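import Mathlib

/-!
# The half law: definitions
-/

namespace Pool.Agent.E8helper24.HP

/-- For all `n`, `a n` is at most `(1 / 2 + C log (n + 2) / (n + 1)) t n`. -/
def AtMostHalf (a t : ℕ → ℕ) (C : ℝ) : Prop :=
  ∀ n, (a n : ℝ) ≤ (1 / 2 + C * (Real.log (n + 2) / (n + 1))) * t n

/-- The constant `(16 m b ^ (4 m + 2)) ^ (b ² + 2)`. -/
noncomputable def constant (b m : ℕ) : ℝ := (16 * m * (b : ℝ) ^ (4 * m + 2)) ^ (b ^ 2 + 2)

end Pool.Agent.E8helper24.HP
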