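import Pool.Agent.E8helper24.HP.Pow
import Pool.Agent.E8helper24.HP.Pub
import Pool.Agent.E8helper1.TPS.Conv
import Pool.Agent.E8helper1.TS.AvgP
import Pool.Agent.E8helper77.TS.Soc

/-!
# The half law with a uniform constant in every characteristic
-/

open CategoryTheory AlgebraicGeometry

universe u v

set_option linter.unusedSectionVars false

namespace Pool.Agent.E8helper24.HP

open Module
open Pool.Agent.H914 Pool.Agent.H914.VarClass Pool.Agent.H914.VarClass.Obj
  Pool.Agent.H914.WeilCohomology Pool.Agent.H281R3.HT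
open Pool.Agent.Y129 (pw TG finrank_TG PowerAction tateClasses homEqNum_algSpan)
open Pool.Agent.E8helper1.TX
open Pool.Agent.E8helper1.TS (algj numTriv StrongAt StrongH strong_two semisimpleH_of_strong
  algj_gr)
open Pool.Agent.E8helper1.TP (Gal hdim)
open Pool.Agent.E8helper56.TY (M5)
open Pool.Agent.Y133.Half (algSys numDim_eq_cycRank cycRank homEqNum_iff')
open Pool.Agent.W536.RR (algSpan_induction)

variable {k : Type u} [Field k] {𝒱 : VarClass k} {ops : CycleOps 𝒱}
  {W : WeilCohomology.{u, 0} ops} {X Z : 𝒱.Obj}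

lemma M_leQ {b M m : ℕ} (hb : 1 ≤ b) (hM : 2 ≤ M)
    (hm : (b : ℝ) ^ 3 * (M : ℝ) ^ 2 * Real.log (2 * b * M + 1) ≤ m) : M ≤ m := by
  have hb' : (1 : ℝ) ≤ b := by exact_mod_cast hb
  have hM' : (2 : ℝ) ≤ M := by exact_mod_cast hM
  have h1 : (1 : ℝ) ≤ (b : ℝ) ^ 3 := one_le_pow₀ hb'
  have h2 : (1 : ℝ) ≤ Real.log (2 * b * M + 1) := by
    rw [Real.le_log_iff_exp_le (by positivity)]
    have := Real.exp_one_lt_d9
    nlinarith
  have h3 : (M : ℝ) ≤ m := by
    calc (M : ℝ) ≤ (M : ℝ) ^ 2 := by nlinarith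
      _ ≤ (b : ℝ) ^ 3 * (M : ℝ) ^ 2 := le_mul_of_one_le_left (by positivity) h1
      _ ≤ (b : ℝ) ^ 3 * (M : ℝ) ^ 2 * Real.log (2 * b * M + 1) :=
          le_mul_of_one_le_right (by positivity) h2
      _ ≤ m := hm
  exact_mod_cast h3

/-! ### Groups with one generator -/

/-- A subgroup which contains a power of the generator has finite index. -/
theorem finiteIndex_of_pow {Γ : Type} [Group Γ] {γ : Γ} (hγ : ∀ g, g ∈ Subgroup.zpowers γ) {N : ℕ}
    (hN : 0 < N) {D : Subgroup Γ} (h : γ ^ N ∈ D) : D.FiniteIndex := by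
  have h1 : Function.Surjective (fun i : Fin N => (QuotientGroup.mk (γ ^ (i : ℕ)) : Γ ⧸ D)) := by
    intro q
    obtain ⟨g, rfl⟩ := QuotientGroup.mk_surjective q
    obtain ⟨z, rfl⟩ := Subgroup.mem_zpowers_iff.1 (hγ g)
    have hN' : (0 : ℤ) < N := by exact_mod_cast hN
    obtain ⟨i, hi⟩ := Int.eq_ofNat_of_zero_le (Int.emod_nonneg z hN'.ne')
    have hi' : i < N := by
      have := Int.emod_lt_of_pos z hN'
      omega
    refine ⟨⟨i, hi'⟩, ?_⟩
    change (QuotientGroup.mk (γ ^ i) : Γ ⧸ D) = QuotientGroup.mk (γ ^ z)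
    rw [QuotientGroup.eq]
    have h2 : (γ ^ i)⁻¹ * γ ^ z = (γ ^ N) ^ (z / N) := by
      rw [← zpow_natCast γ i, ← zpow_neg, ← zpow_add, ← zpow_natCast γ N, ← zpow_mul]
      congr 1
      have := Int.mul_ediv_add_emod z N
      rw [← hi]
      omega
    rw [h2]
    exact D.zpow_mem h _
  have h3 : Finite (Γ ⧸ D) := Finite.of_surjective _ h1
  exact Subgroup.finiteIndex_of_finite_quotient

section strong

variable {Γ : Type} [Group Γ] {χ : Γ →* W.Kˣ}
  {ρ : ∀ n, Γ →* (W.H (pw X n) ≃ₐ[W.K] W.H (pw X n))}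

/-- If homological and numerical equivalence agree, there are no numerically trivial classes. -/
theorem numTriv_bot (hN : HomEqNum W Z) (j : ℕ) : numTriv W Z j = ⊥ := by
  rw [eq_bot_iff]
  rintro c ⟨hc, hc'⟩
  have h1 : c ∈ algSpan W Z := by
    refine Submodule.span_le.2 ?_ hc
    rintro _ ⟨z, hz, rfl⟩
    exact Submodule.subset_span (Set.mem_iUnion.2 ⟨j, z, hz, rfl⟩)
  have h2 : c ∈ transcendental W Z := by
    refine Pool.Agent.Y129.mem_transcendental.2 fun d hd => ?_
    refine algSpan_induction (p := fun d => W.tr Z (d * c) = 0) ?_ ?_ ?_ ?_ hd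
    · rw [zero_mul, map_zero]
    · intro a b ha hb
      rw [add_mul, map_add, ha, hb, add_zero]
    · intro t a ha
      rw [smul_mul_assoc, map_smul, ha, smul_zero]
    · intro l z hz
      by_cases hl : l = Z.dim - j
      · rw [W.even_comm (W.cl_mem hz) c]
        exact hc' _ ⟨z, hl ▸ hz, rfl⟩
      · by_cases hj : j ≤ Z.dim
        · exact W.tr_eq_zero (W.mul_mem (W.cl_mem hz) (algj_gr hc)) (by omega)
        · have h0 := algj_gr hc
          rw [W.gr_eq_bot Z (2 * j) (by omega), Submodule.mem_bot] at h0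
          rw [h0, mul_zero, map_zero]
  rw [Submodule.mem_bot]
  exact homEqNum_algSpan hN h1 h2

/-- For a group with one generator the Tate conjecture and the equality of homological and numerical
equivalence imply the strong form of the Tate conjecture. -/
theorem strong_of_cyclic {γ : Γ} (hγ : ∀ g, g ∈ Subgroup.zpowers γ)
    {n : ℕ} (hN : HomEqNum W (pw X n)) (j : ℕ)
    (hTj : tateClasses χ (W.gr (pw X n)) (ρ n) j ≤ algj W (pw X n) j) :
    StrongAt W X χ ρ n j := by
  intro Δ hΔ E F hEF hF hE hFE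
  rw [numTriv_bot hN, finrank_bot, add_zero]
  obtain ⟨N, hN0, -, hNΔ⟩ := Subgroup.exists_pow_mem_of_index_ne_zero hΔ.index_ne_zero γ
  have hN1 : 0 < N := hN0
  obtain ⟨g0, hg0⟩ : ∃ g0, g0 = γ ^ N := ⟨_, rfl⟩
  have hg0Δ : g0 ∈ Δ := hg0 ▸ hNΔ
  let T : F →ₗ[W.K] F :=
    (((ρ n g0 : W.H (pw X n) ≃ₐ[W.K] W.H (pw X n)).toLinearMap -
      (χ g0 : W.K) ^ j • LinearMap.id).restrict (p := F) (q := F)
        fun x hx => hEF (hFE g0 hg0Δ x hx))
  have hTa : ∀ x : F, (T x : W.H (pw X n)) = ρ n g0 x - (χ g0 : W.K) ^ j • (x : W.H (pw X n)) :=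
    fun x => rfl
  have h1 := LinearMap.finrank_range_add_finrank_ker T
  have h2 : finrank W.K (LinearMap.range T) ≤ finrank W.K E := by
    have h3 : (LinearMap.range T).map F.subtype ≤ E := by
      rintro _ ⟨_, ⟨x, rfl⟩, rfl⟩
      exact hFE g0 hg0Δ x x.2
    have h4 : finrank W.K ((LinearMap.range T).map F.subtype) = finrank W.K (LinearMap.range T) :=
      (Submodule.equivMapOfInjective _ F.injective_subtype _).finrank_eq.symm
    rw [← h4]
    exact Submodule.finrank_mono h3
  have h5 : finrank W.K (LinearMap.ker T) ≤ finrank W.K (algj W (pw X n) j) := by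
    have h3 : (LinearMap.ker T).map F.subtype ≤ algj W (pw X n) j := by
      rintro _ ⟨x, hx, rfl⟩
      apply hTj
      have hx' : ρ n g0 (x : W.H (pw X n)) = (χ g0 : W.K) ^ j • (x : W.H (pw X n)) := by
        have h6 := hTa x
        rw [LinearMap.mem_ker.1 hx] at h6
        exact (sub_eq_zero.1 h6.symm)
      let D : Subgroup Γ :=
        { carrier := {g | ρ n g (x : W.H (pw X n)) = (χ g : W.K) ^ j • (x : W.H (pw X n))}
          one_mem' := by
            change ρ n 1 (x : W.H (pw X n)) = ((χ 1 : W.Kˣ) : W.K) ^ j • (x : W.H (pw X n))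
            rw [map_one, map_one, Units.val_one, one_pow, one_smul]
            rfl
          mul_mem' := by
            intro g g' hg hg'
            change ρ n g (x : W.H (pw X n)) = (χ g : W.K) ^ j • (x : W.H (pw X n)) at hg
            change ρ n g' (x : W.H (pw X n)) = (χ g' : W.K) ^ j • (x : W.H (pw X n)) at hg'
            change ρ n (g * g') (x : W.H (pw X n)) =
              ((χ (g * g') : W.Kˣ) : W.K) ^ j • (x : W.H (pw X n))
            rw [map_mul, map_mul]
            change ρ n g (ρ n g' (x : W.H (pw X n))) = _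
            rw [hg', map_smul, hg, smul_smul, Units.val_mul, mul_pow, mul_comm]
          inv_mem' := by
            intro g hg
            change ρ n g (x : W.H (pw X n)) = (χ g : W.K) ^ j • (x : W.H (pw X n)) at hg
            change ρ n g⁻¹ (x : W.H (pw X n)) =
              ((χ g⁻¹ : W.Kˣ) : W.K) ^ j • (x : W.H (pw X n))
            have h7 : ρ n g⁻¹ (ρ n g (x : W.H (pw X n))) = (x : W.H (pw X n)) := by
              have h8 : ρ n g⁻¹ (ρ n g (x : W.H (pw X n))) = ρ n (g⁻¹ * g) (x : W.H (pw X n)) := by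
                rw [map_mul]
                rfl
              rw [h8, inv_mul_cancel, map_one]
              rfl
            rw [hg, map_smul] at h7
            have h9 : ((χ g : W.K) ^ j) ≠ 0 := pow_ne_zero _ (Units.ne_zero _)
            have h10 := congrArg (fun y => ((χ g : W.K) ^ j)⁻¹ • y) h7
            simp only [smul_smul] at h10
            rw [inv_mul_cancel₀ h9, one_smul] at h10
            rw [h10, map_inv, Units.val_inv_eq_inv_val, inv_pow] }
      refine ⟨hF x.2, D, finiteIndex_of_pow hγ hN1 ?_, fun g hg => hg⟩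
      rw [← hg0]
      exact hx'
    have h4 : finrank W.K ((LinearMap.ker T).map F.subtype) = finrank W.K (LinearMap.ker T) :=
      (Submodule.equivMapOfInjective _ F.injective_subtype _).finrank_eq.symm
    rw [← h4]
    exact Submodule.finrank_mono h3
  omega

/-- The Tate classes of one degree. -/
theorem tatej_le (h : PowerAction W X χ ρ) {n : ℕ}
    (hT : TG W X χ ρ n ≤ algSpan W (pw X n)) (j : ℕ) :
    tateClasses χ (W.gr (pw X n)) (ρ n) j ≤ algj W (pw X n) j := fun c hc =>
  (Pool.Agent.Y129.TG_eq_iff h n).1 (le_antisymm hT (h.algSpan_le n)) j c hc.1 hc.2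

end strong

/-- **Semisimplicity** if the group has one generator. -/
theorem semisimple_of_cyclic (G : Gal W X) (hcyc : IsCyclic G.Γ) {n : ℕ} (hn : 1 ≤ n)
    (hT : TG W X G.chi G.rho n ≤ algSpan W (pw X n)) (hN : HomEqNum W (pw X n)) :
    G.Semisimple := by
  obtain ⟨γ, hγ⟩ := hcyc.exists_generator
  exact semisimpleH_of_strong G.power Pool.Agent.E8helper77.TS.t_SOC Pool.Agent.E8helper1.TS.t_AVG
    (strong_two G.power hn (strong_of_cyclic hγ hN X.dim (tatej_le G.power hT X.dim)))

/-- **The half law with a constant which depends only on the Betti numbers and the dimension**, in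
every characteristic. -/
theorem tate_halfQ {ℓ : ℕ} [Fact ℓ.Prime] (φ : W.K ≃+* ℚ_[ℓ])
    (hX : 0 < hdim W X) (G : Gal W X) (hG : Pool.Agent.E8helper1.TPQ.Frobenii G φ)
    (hss : IsCyclic G.Γ ∨ G.Semisimple) (M : ℕ)
    (hM : M = Pool.Agent.E8helper1.TPQ.exponent (hdim W X) X.dim) (m : ℕ)
    (hm : (hdim W X : ℝ) ^ 3 * (M : ℝ) ^ 2 * Real.log (2 * hdim W X * M + 1) ≤ m) :
    (G.Semisimple ∧ (∀ n, G.TateConj n) ∧ ∀ n, Pool.Agent.E8helper1.TPQ.HomNum W (pw X n)) ∨
      AtMostHalf (fun n => cycRank ops (pw X n)) G.tateDim (constant (hdim W X) m) := by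
  by_cases hfirst : G.Semisimple ∧ (∀ n, G.TateConj n) ∧
      ∀ n, Pool.Agent.E8helper1.TPQ.HomNum W (pw X n)
  · exact Or.inl hfirst
  right
  have h1' : 1 ≤ (hdim W X).factorial * ((2 * X.dim + 1) * (hdim W X).factorial) ^
      (hdim W X - 1) :=
    Nat.succ_le_of_lt (Nat.mul_pos (Nat.factorial_pos _)
      (Nat.pow_pos (Nat.mul_pos (by omega) (Nat.factorial_pos _))))
  have hM2 : 2 ≤ M := by
    rw [hM, Pool.Agent.E8helper1.TPQ.exponent]
    omega
  have hMm : M ≤ m := M_leQ hX hM2 hm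
  have hle : ∀ n, algSpan W (pw X n) ≤ TG W X G.chi G.rho n := G.power.algSpan_le
  have hlt : (algSys W).a (pw X (2 * m - 1)) <
      finrank W.K (TG W X G.chi G.rho (2 * m - 1)) := by
    by_contra hcon
    rw [not_lt] at hcon
    apply hfirst
    have k1 : (algSys W).a (pw X (2 * m - 1)) ≤ finrank W.K (algSpan W (pw X (2 * m - 1))) :=
      Pool.Agent.E8helper24.INF.a_le_C (algSys W) _
    have k2 := Submodule.finrank_mono (hle (2 * m - 1))
    have k3 : TG W X G.chi G.rho (2 * m - 1) ≤ algSpan W (pw X (2 * m - 1)) :=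
      (Submodule.eq_of_le_of_finrank_le (hle _) (by omega)).ge
    have k4 : HomEqNum W (pw X (2 * m - 1)) := by
      rw [homEqNum_iff', ← numDim_eq_cycRank W]
      omega
    have hss' : G.Semisimple := by
      rcases hss with hc | hss
      · exact semisimple_of_cyclic G hc (by omega) k3 k4
      · exact hss
    obtain ⟨e0, N, -, -, -, e1, e2⟩ := Pool.Agent.E8helper1.TPQ.tate_lawQ
      Pool.Agent.E8helper1.TPQ.s_asmq2 Pool.Agent.E8helper97.TW.t_EMB φ hX G hG hss' M hM m hMm
      ((G.le_iff _).1 k3)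
    exact ⟨hss', e1.1 (e2 hm), e0⟩
  intro n
  have h1 := half_powers (G := TG W X G.chi G.rho) hX G.power.stable hle (m := m) (by omega)
    hlt n
  rw [numDim_eq_cycRank W, finrank_TG, ← G.dim_eq] at h1
  exact h1

end Pool.Agent.E8helper24.HP
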