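import Pool.Agent.E8helper24.HP.SysHalf
import Pool.Agent.E8helper24.HP.Pub
import Pool.Agent.E8helper24.INF.AbsH
import Pool.Agent.E8helper1.TPH.Conv

/-!
# The half law with an explicit constant for absolutely Hodge classes
-/

open CategoryTheory AlgebraicGeometry

universe u

set_option linter.unusedSectionVars false

namespace Pool.Agent.E8helper24.HP.AbsH

open Module
open Pool.Agent.H914 Pool.Agent.H914.VarClass Pool.Agent.H914.VarClass.Obj
  Pool.Agent.H914.WeilCohomology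
open Pool.Agent.Y133.Half (Sys pw)
open Pool.Agent.Y121
open Pool.Agent.Y121.AHS
open Pool.Agent.Y121.AHS.Full (toD isAbsHodge_iff)
open Pool.Agent.E8helper1.TX (abs_iff)
open Pool.Agent.E8helper1.TPH

variable {k : Type u} [Field k] {𝒱 : VarClass k} {ops : CycleOps 𝒱}
  {T : HodgeTheory ops} {D : Full.Conjugates T} {X : 𝒱.Obj}

lemma M_leH {b d M m : ℕ} {p : Prop} (hb : 1 ≤ b) (hM : M = exponent b d ∨ p ∧ M = 2)
    (hm : (b : ℝ) ^ 3 * (M : ℝ) ^ 2 * Real.log (2 * b * M + 1) ≤ m) : 1 ≤ M ∧ M ≤ m := by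
  have hM1 : 1 ≤ M := by
    rcases hM with rfl | ⟨-, rfl⟩
    · exact Nat.succ_le_of_lt (Nat.mul_pos (Nat.factorial_pos _)
        (Nat.pow_pos (lt_of_lt_of_le Nat.one_pos (le_max_left _ _))))
    · norm_num
  refine ⟨hM1, ?_⟩
  have hb' : (1 : ℝ) ≤ b := by exact_mod_cast hb
  have hM' : (1 : ℝ) ≤ M := by exact_mod_cast hM1
  have h1 : (1 : ℝ) ≤ (b : ℝ) ^ 3 := one_le_pow₀ hb'
  have h2 : (1 : ℝ) ≤ Real.log (2 * b * M + 1) := by
    rw [Real.le_log_iff_exp_le (by positivity)]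
    have := Real.exp_one_lt_d9
    nlinarith
  have h3 : (M : ℝ) ≤ m := by
    calc (M : ℝ) ≤ (M : ℝ) ^ 2 := by nlinarith
      _ ≤ (b : ℝ) ^ 3 * (M : ℝ) ^ 2 := le_mul_of_one_le_left (by positivity) h1
      _ ≤ (b : ℝ) ^ 3 * (M : ℝ) ^ 2 * Real.log (2 * b * M + 1) :=
          le_mul_of_one_le_right (by positivity) h2
      _ ≤ m := hm
  exact_mod_cast h3

/-- **The half law with an explicit constant for absolutely Hodge classes.** -/
theorem abs_half (C : Conj T) (hX : 0 < hdim T X) {P : X.Cycles} (hP : C.Polarizes X P) (M : ℕ)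
    (hM : M = exponent (hdim T X) X.dim ∨ NoTypeFour T X ∧ M = 2) (m : ℕ)
    (hm : (hdim T X : ℝ) ^ 3 * (M : ℝ) ^ 2 * Real.log (2 * hdim T X * M + 1) ≤ m) :
    (∀ n, AbsConj D (pw X n)) ∨ ∀ Z : 𝒱.Obj,
      AtMostHalf (fun n => Pool.Agent.E8helper1.TPH.absDim D ((pw X n).prod (Z.prod Z)))
        (fun n => Pool.Agent.E8helper1.TPH.hodgeDim T ((pw X n).prod (Z.prod Z)))
        (constant (hdim T X) m) := by
  by_cases hall : ∀ n, AbsConj D (pw X n)
  · exact Or.inl hall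
  right
  obtain ⟨hM1, hMm⟩ := M_leH hX hM hm
  set S : Sys (toH T).W := AH.absSys (toD D) with hS
  set S' : Sys (toH T).W := AH.hodgeSys (toH T) with hS'
  have hle : ∀ Z, S.C Z ≤ S'.C Z := fun Z => AH.abs_le_hodge (toD D) Z
  have ea : ∀ Z : 𝒱.Obj, S.a Z = finrank (toH T).W.K (S.C Z) := fun Z =>
    Sys.nondeg_iff.1 (AH.abs_nondeg (toD D) Z)
  have hnot : ¬ AbsConj D (pw X (2 * m - 1)) := by
    intro h
    obtain ⟨N, -, -, -, h1, h2⟩ := abs_law C hX hP M hM m hMm h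
    exact hall (h1.1 (h2 hm))
  have hlt : S.a (pw X (2 * m - 1)) < finrank (toH T).W.K (S'.C (pw X (2 * m - 1))) := by
    rw [ea]
    apply Submodule.finrank_lt_finrank_of_lt
    refine lt_of_le_of_ne (hle _) fun h => hnot ?_
    exact (abs_iff (pw X (2 * m - 1))).1 h.ge
  intro Z n
  have h1 := half_sys (X := X) hle hX (by omega) hlt n Z
  have h2 : Pool.Agent.E8helper1.TPH.absDim D ((pw X n).prod (Z.prod Z)) =
      S.a ((pw X n).prod (Z.prod Z)) := by
    rw [ea, Pool.Agent.E8helper1.TPH.absDim, span_abs, ← Full.absDim_eq]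
    rfl
  have h3 : Pool.Agent.E8helper1.TPH.hodgeDim T ((pw X n).prod (Z.prod Z)) =
      finrank (toH T).W.K (S'.C ((pw X n).prod (Z.prod Z))) := by
    rw [hodgeDim_eq']
    rfl
  change ((Pool.Agent.E8helper1.TPH.absDim D ((pw X n).prod (Z.prod Z)) : ℕ) : ℝ) ≤ _
  rw [h2]
  change _ ≤ _ * ((Pool.Agent.E8helper1.TPH.hodgeDim T ((pw X n).prod (Z.prod Z)) : ℕ) : ℝ)
  rw [h3]
  exact h1

end Pool.Agent.E8helper24.HP.AbsH
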