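import Pool.Agent.E8helper24.HP.Pub

/-!
# The quantization law: definitions
-/

namespace Pool.Agent.E8helper24.HP

/-- For all `n`, `a n` is at most `(1 / r + C log (n + 2) / (n + 1)) t n`. -/
def AtMostOneOver (r : ℕ) (a t : ℕ → ℕ) (C : ℝ) : Prop :=
  ∀ n, (a n : ℝ) ≤ (1 / r + C * (Real.log (n + 2) / (n + 1))) * t n

end Pool.Agent.E8helper24.HP
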