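import Pool.Agent.E8helper24.HP.Quant
import Pool.Agent.E8helper24.HP.QPub
import Pool.Agent.E8helper24.QF.Law

/-!
# The quantization law with an explicit constant for common Tate classes
-/

open CategoryTheory AlgebraicGeometry TensorProduct

universe u

set_option linter.unusedSectionVars false

namespace Pool.Agent.E8helper24.HP.Common

open Module
open Pool.Agent.H914 Pool.Agent.H914.VarClass Pool.Agent.H914.VarClass.Obj
  Pool.Agent.H914.WeilCohomology
open Pool.Agent.Y133.Half Pool.Agent.Y121.AH
open Pool.Agent.E8helper24.QF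
open Pool.Agent.E8helper24.INF.Drb (rankBy)

variable {k : Type u} [Field k] {𝒱 : VarClass k} {ops : CycleOps 𝒱}
  {Γ : Type} [Group Γ] {W : WeilCohomology.{u, 0} ops}
  {ι : Type} {L : ι → Type} [∀ i, Field (L i)] [∀ i, Algebra W.K (L i)]
  (A : ∀ i, GalAction Γ W (L i))

/-- The combinations of common Tate classes of degree `2 j`. -/
noncomputable def combs (i : ι) (Z : 𝒱.Obj) (j : ℕ) : AddSubmonoid ((baseW W (L i)).H Z) :=
  AddSubmonoid.closure {y | ∃ (l : (baseW W (L i)).K) (c : W.H Z),
    IsCommon A Z j c ∧ l • em W (L i) c = y}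

/-- The homogeneous components of the elements of the extended space of common classes. -/
lemma proj_mem_combs (i : ι) {Z : 𝒱.Obj} (j : ℕ) {x : (baseW W (L i)).H Z}
    (hx : x ∈ ((commonPred (fun i => toGA (A i)) i).sys.base (L i)).C Z) :
    H914.proj ((baseW W (L i)).isInternal Z) (2 * j) x ∈ combs A i Z j := by
  have hx' : x ∈ ((commonPred (fun i => toGA (A i)) i).sp Z).baseChange (L i) := hx
  refine base_induction (P := fun x : (L i) ⊗[W.K] W.H Z =>
    H914.proj ((baseW W (L i)).isInternal Z) (2 * j) (show (baseW W (L i)).H Z from x) ∈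
      combs A i Z j) ?_ ?_ ?_ hx'
  · have h : H914.proj ((baseW W (L i)).isInternal Z) (2 * j)
        (show (baseW W (L i)).H Z from (0 : (L i) ⊗[W.K] W.H Z)) = 0 :=
      map_zero (H914.proj ((baseW W (L i)).isInternal Z) (2 * j))
    rw [h]
    exact zero_mem _
  · intro x y hx hy
    have h : H914.proj ((baseW W (L i)).isInternal Z) (2 * j)
        (show (baseW W (L i)).H Z from (x + y)) =
        H914.proj ((baseW W (L i)).isInternal Z) (2 * j) (show (baseW W (L i)).H Z from x) +
        H914.proj ((baseW W (L i)).isInternal Z) (2 * j) (show (baseW W (L i)).H Z from y) :=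
      map_add (H914.proj ((baseW W (L i)).isInternal Z) (2 * j)) _ _
    rw [h]
    exact add_mem hx hy
  · intro l a ha
    rw [tmul_eq]
    refine ClassPred.sp_ind (Q := commonPred (fun i => toGA (A i)) i)
      (q := fun a => H914.proj ((baseW W (L i)).isInternal Z) (2 * j)
        ((show (baseW W (L i)).K from l) • em W (L i) a) ∈ combs A i Z j) ?_ ?_ ?_ ha
    · intro j' a ha
      have h1 : em W (L i) a ∈ (baseW W (L i)).gr Z (2 * j') := (ha i).1
      rw [map_smul]
      by_cases h : j' = j
      · subst h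
        rw [proj_same _ h1]
        exact AddSubmonoid.subset_closure ⟨_, a, ha, rfl⟩
      · rw [proj_ne _ h1 (by omega), smul_zero]
        exact zero_mem _
    · rw [em_zero, smul_zero, map_zero]
      exact zero_mem _
    · intro a b ha hb
      rw [em_add, smul_add, map_add]
      exact add_mem ha hb

/-- If the spaces agree all Tate classes are combinations of common Tate classes. -/
lemma defined_of_le (i : ι) {Z : 𝒱.Obj}
    (h : (tatePred (toGA (A i))).sys.C Z ≤
      ((commonPred (fun i => toGA (A i)) i).sys.base (L i)).C Z) : DefinedOverQ A i Z := by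
  intro j x hx
  have h1 : x ∈ (tatePred (toGA (A i))).sys.C Z :=
    ClassPred.sp_of (Q := tatePred (toGA (A i))) (isTate_iff.1 hx)
  have h2 := proj_mem_combs A i j (h h1)
  have h3 : H914.proj ((baseW W (L i)).isInternal Z) (2 * j) x = x :=
    proj_same _ (isTate_iff.1 hx).1
  rw [h3] at h2
  exact h2

lemma rankBy_eq (i : ι) (Z : 𝒱.Obj) : rankBy (IsCommon A) Z =
    ((commonPred (fun i => toGA (A i)) i).sys.base (L i)).a Z := by
  rw [a_base]
  exact INF.Drb.rankBy_sys (commonPred (fun i => toGA (A i)) i) _

lemma tateDim_eq (i : ι) (Z : 𝒱.Obj) : QF.tateDim (A i) Z =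
    finrank (baseW W (L i)).K ((tatePred (toGA (A i))).sys.C Z) := rfl

/-- If the numbers agree all Tate classes are combinations of common Tate classes. -/
theorem defined_or (i : ι) (Z : 𝒱.Obj) :
    DefinedOverQ A i Z ∨ rankBy (IsCommon A) Z < QF.tateDim (A i) Z := by
  by_cases h : rankBy (IsCommon A) Z < QF.tateDim (A i) Z
  · exact Or.inr h
  left
  rw [not_lt, rankBy_eq A i, tateDim_eq] at h
  have hle := base_le (A := fun i => toGA (A i)) i i Z
  have k1 := INF.a_le_C ((commonPred (fun i => toGA (A i)) i).sys.base (L i)) Z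
  exact defined_of_le A i (Submodule.eq_of_le_of_finrank_le hle (by omega)).ge

/-- **The quantization law with an explicit constant for common Tate classes.** -/
theorem common_quant (i : ι) {X : 𝒱.Obj} (hX : 0 < finrank W.K (W.H X)) {m r : ℕ} (hm : 1 ≤ m)
    (hr : 1 ≤ r) (hlt : (r - 1) * rankBy (IsCommon A) (pw X (2 * m - 1)) <
      QF.tateDim (A i) (pw X (2 * m - 1))) (Z : 𝒱.Obj) :
    AtMostOneOver r (fun n => rankBy (IsCommon A) ((pw X n).prod (Z.prod Z)))
      (fun n => QF.tateDim (A i) ((pw X n).prod (Z.prod Z)))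
      (constant (finrank W.K (W.H X)) m) := by
  have hle : ∀ Z, ((commonPred (fun i => toGA (A i)) i).sys.base (L i)).C Z ≤
      (tatePred (toGA (A i))).sys.C Z := base_le (A := fun i => toGA (A i)) i i
  have hfin : finrank (baseW W (L i)).K ((baseW W (L i)).H X) = finrank W.K (W.H X) := by
    have h : finrank (L i) ((L i) ⊗[W.K] W.H X) = finrank W.K (W.H X) :=
      Module.finrank_baseChange
    exact h
  rw [rankBy_eq A i, tateDim_eq] at hlt
  intro n
  have h1 := quant_sys (W := baseW W (L i)) hle (by rw [hfin]; exact hX) hm hr hlt n Z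
  rw [hfin] at h1
  change ((rankBy (IsCommon A) ((pw X n).prod (Z.prod Z)) : ℕ) : ℝ) ≤
    _ * ((QF.tateDim (A i) ((pw X n).prod (Z.prod Z)) : ℕ) : ℝ)
  rw [rankBy_eq A i, tateDim_eq]
  exact h1

end Pool.Agent.E8helper24.HP.Common
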