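import Pool.Agent.E8helper24.HP.Core

/-!
# The half law with an explicit constant: the constant
-/

open CategoryTheory AlgebraicGeometry

universe u v

set_option linter.unusedSectionVars false

namespace Pool.Agent.E8helper24.HP

open Module
open Pool.Agent.H914 Pool.Agent.H914.VarClass Pool.Agent.H914.VarClass.Obj
  Pool.Agent.H914.WeilCohomology Pool.Agent.Y133.Half
open Pool.Agent.E8helper24.INF

lemma exp_bound {q : ℝ} (hq : 0 < q) (s : ℕ) (x : ℝ) (hx : 0 ≤ x) :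
    x ^ s * Real.exp (-(x / q)) ≤ s.factorial * q ^ s := by
  have h1 := Real.pow_div_factorial_le_exp (x / q) (by positivity) s
  have h2 : (0 : ℝ) < s.factorial := by exact_mod_cast Nat.factorial_pos s
  rw [div_le_iff₀ h2, div_pow, div_le_iff₀ (by positivity)] at h1
  rw [Real.exp_neg, ← div_eq_mul_inv, div_le_iff₀ (Real.exp_pos _)]
  calc x ^ s ≤ Real.exp (x / q) * s.factorial * q ^ s := h1
    _ = _ := by ring

/-- The growth of a convex sequence from a bound for one step of length `j`. -/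
lemma growth_step {a : ℕ → ℕ} (hpos : ∀ l, 0 < a l)
    (hconv : ∀ l, a (l + 1) ^ 2 ≤ a (l + 2) * a l) {B j : ℕ} (hj : 0 < j) (hB : 0 < B)
    (h : ∀ l, a (l + j) + a l ≤ B ^ j * a l) (l : ℕ) :
    (a (l + 1) : ℝ) ≤ B * Real.exp (-(1 / (j * (B : ℝ) ^ j))) * a l := by
  have hp : ∀ i, (0 : ℝ) < a i := fun i => by exact_mod_cast hpos i
  set r : ℝ := a (l + 1) / a l with hr
  have hr0 : 0 ≤ r := by positivity
  have hrl : r * a l ≤ a (l + 1) := by rw [hr, div_mul_cancel₀ _ (hp l).ne']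
  have h3 : r ^ j * a l ≤ a (l + j) :=
    ratio_pow hr0 (l₀ := l) (fun i hi => ratio_mono (n := i) hpos hconv hrl hi) j l le_rfl
  have h4 : (a (l + j) : ℝ) + a l ≤ (B : ℝ) ^ j * a l := by exact_mod_cast h l
  have h5 : r ^ j + 1 ≤ (B : ℝ) ^ j := by
    have : (r ^ j + 1) * a l ≤ (B : ℝ) ^ j * a l := by
      calc (r ^ j + 1) * a l = r ^ j * a l + a l := by ring
        _ ≤ a (l + j) + a l := by linarith
        _ ≤ _ := h4
    exact le_of_mul_le_mul_right this (hp l)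
  have hB' : (0 : ℝ) < B := by exact_mod_cast hB
  have hBj : (0 : ℝ) < (B : ℝ) ^ j := by positivity
  have hj' : (0 : ℝ) < j := by exact_mod_cast hj
  have h6 : r ^ j ≤ (B * Real.exp (-(1 / (j * (B : ℝ) ^ j)))) ^ j := by
    have e1 : Real.exp (-(1 / (j * (B : ℝ) ^ j))) ^ j = Real.exp (-(1 / (B : ℝ) ^ j)) := by
      rw [← Real.exp_nat_mul]
      congr 1
      field_simp
    rw [mul_pow, e1]
    have e2 := Real.add_one_le_exp (-(1 / (B : ℝ) ^ j))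
    calc r ^ j ≤ (B : ℝ) ^ j - 1 := by linarith
      _ = (B : ℝ) ^ j * (-(1 / (B : ℝ) ^ j) + 1) := by field_simp; ring
      _ ≤ _ := mul_le_mul_of_nonneg_left e2 hBj.le
  have h7 : r ≤ B * Real.exp (-(1 / (j * (B : ℝ) ^ j))) :=
    (pow_le_pow_iff_left₀ hr0 (by positivity) hj.ne').1 h6
  calc (a (l + 1) : ℝ) = r * a l := by rw [hr, div_mul_cancel₀ _ (hp l).ne']
    _ ≤ _ := mul_le_mul_of_nonneg_right h7 (hp l).le

/-- The constant `(16 m b^(4 m + 2)) ^ (b² + 2)`. -/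
noncomputable def cst (b m : ℕ) : ℝ := (16 * m * (b : ℝ) ^ (4 * m + 2)) ^ (b ^ 2 + 2)

/-- The constant of the case of operators which are not nilpotent. -/
noncomputable def dst (b m : ℕ) : ℝ :=
  2 ^ (b ^ 2) * ((b ^ 2 + 1).factorial * (2 * m * (b : ℝ) ^ (4 * m)) ^ (b ^ 2 + 1))

lemma one_le_dst {b m : ℕ} (hb : 1 ≤ b) (hm : 1 ≤ m) : 1 ≤ dst b m := by
  have hb' : (1 : ℝ) ≤ b := by exact_mod_cast hb
  have hm' : (1 : ℝ) ≤ m := by exact_mod_cast hm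
  have h1 : (1 : ℝ) ≤ (b : ℝ) ^ (4 * m) := one_le_pow₀ hb'
  have h2 : (1 : ℝ) ≤ 2 * m * (b : ℝ) ^ (4 * m) := by nlinarith
  have h3 : (1 : ℝ) ≤ (2 * m * (b : ℝ) ^ (4 * m)) ^ (b ^ 2 + 1) := one_le_pow₀ h2
  have h4 : (1 : ℝ) ≤ ((b ^ 2 + 1).factorial : ℝ) := by
    exact_mod_cast Nat.succ_le_of_lt (Nat.factorial_pos _)
  have h5 : (1 : ℝ) ≤ 2 ^ (b ^ 2) := one_le_pow₀ (by norm_num)
  rw [dst]
  have h6 : (1 : ℝ) ≤ (b ^ 2 + 1).factorial * (2 * m * (b : ℝ) ^ (4 * m)) ^ (b ^ 2 + 1) := by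
    nlinarith
  nlinarith

/-- The comparison of the constants. -/
lemma cst_ge {b m : ℕ} (hb : 1 ≤ b) (hm : 1 ≤ m) :
    4 * ((b : ℝ) ^ (2 * m) * (((b ^ 2 + 1 : ℕ) : ℝ) * (m + 1) * (b : ℝ) ^ (2 * (m + 1))) +
      4 * (b : ℝ) ^ 2 * dst b m) + 5 ≤ cst b m := by
  have hb' : (1 : ℝ) ≤ b := by exact_mod_cast hb
  have hm' : (1 : ℝ) ≤ m := by exact_mod_cast hm
  have hb2 : (1 : ℝ) ≤ (b : ℝ) ^ 2 := one_le_pow₀ hb'
  set s : ℕ := b ^ 2 + 1 with hs
  have hs2 : 2 ≤ s := by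
    have : 1 ≤ b ^ 2 := Nat.one_le_pow _ _ hb
    omega
  set u : ℝ := m * (b : ℝ) ^ (4 * m) with hu
  have hbm : (1 : ℝ) ≤ (b : ℝ) ^ (4 * m) := one_le_pow₀ hb'
  have hu1 : 1 ≤ u := by rw [hu]; nlinarith
  have hs' : (s : ℝ) = (b : ℝ) ^ 2 + 1 := by rw [hs]; push_cast; ring
  have hsb : (s : ℝ) ≤ 2 * (b : ℝ) ^ 2 := by rw [hs']; linarith
  have hs0 : (0 : ℝ) ≤ s := Nat.cast_nonneg _
  set w : ℝ := 8 * (b : ℝ) ^ 2 * u with hw
  have hw8 : 8 ≤ w := by rw [hw]; nlinarith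
  -- the first term
  have e1 : (b : ℝ) ^ (2 * m) * ((s : ℝ) * (m + 1) * (b : ℝ) ^ (2 * (m + 1))) ≤
      2 * s * (b : ℝ) ^ 2 * u := by
    have h1 : (b : ℝ) ^ (2 * m) * (b : ℝ) ^ (2 * (m + 1)) = (b : ℝ) ^ 2 * (b : ℝ) ^ (4 * m) := by
      rw [← pow_add, ← pow_add]; congr 1; ring
    calc (b : ℝ) ^ (2 * m) * ((s : ℝ) * (m + 1) * (b : ℝ) ^ (2 * (m + 1))) =
        s * (m + 1) * ((b : ℝ) ^ (2 * m) * (b : ℝ) ^ (2 * (m + 1))) := by ring
      _ = s * (m + 1) * ((b : ℝ) ^ 2 * (b : ℝ) ^ (4 * m)) := by rw [h1]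
      _ ≤ s * (2 * m) * ((b : ℝ) ^ 2 * (b : ℝ) ^ (4 * m)) := by
          refine mul_le_mul_of_nonneg_right ?_ (by positivity)
          exact mul_le_mul_of_nonneg_left (by linarith) hs0
      _ = _ := by rw [hu]; ring
  have e2 : 4 * (2 * s * (b : ℝ) ^ 2 * u) ≤ w ^ 2 := by
    have h1 : (s : ℝ) * ((b : ℝ) ^ 2 * u) ≤ (2 * (b : ℝ) ^ 2) * ((b : ℝ) ^ 2 * u) :=
      mul_le_mul_of_nonneg_right hsb (by positivity)
    have h2 : (b : ℝ) ^ 2 * ((b : ℝ) ^ 2 * u) ≤ ((b : ℝ) ^ 2 * u) * ((b : ℝ) ^ 2 * u) :=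
      mul_le_mul_of_nonneg_right (by nlinarith) (by positivity)
    rw [hw]
    nlinarith
  have e3 : w ^ 2 ≤ w ^ (s + 1) := pow_le_pow_right₀ (by linarith) (by omega)
  -- the second term
  have e4 : dst b m ≤ 2⁻¹ * (4 * u) ^ s * (s : ℝ) ^ s := by
    have h1 : ((s.factorial : ℕ) : ℝ) ≤ (s : ℝ) ^ s := by exact_mod_cast Nat.factorial_le_pow s
    have h2 : (2 : ℝ) ^ (b ^ 2) = 2⁻¹ * 2 ^ s := by rw [hs, pow_succ]; ring
    rw [dst, ← hs, h2]
    calc (2⁻¹ * 2 ^ s) * ((s.factorial : ℝ) * (2 * m * (b : ℝ) ^ (4 * m)) ^ s) ≤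
        (2⁻¹ * 2 ^ s) * ((s : ℝ) ^ s * (2 * m * (b : ℝ) ^ (4 * m)) ^ s) := by
          refine mul_le_mul_of_nonneg_left ?_ (by positivity)
          exact mul_le_mul_of_nonneg_right h1 (by positivity)
      _ = 2⁻¹ * (2 ^ s * (2 * m * (b : ℝ) ^ (4 * m)) ^ s) * (s : ℝ) ^ s := by ring
      _ = _ := by
          rw [← mul_pow, hu]
          congr 3
          ring
  have e5 : 4 * (4 * (b : ℝ) ^ 2 * dst b m) ≤ w ^ (s + 1) := by
    have h1 : (4 * u) ^ s * (s : ℝ) ^ s ≤ w ^ s := by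
      rw [← mul_pow]
      refine pow_le_pow_left₀ (by positivity) ?_ s
      rw [hw]
      have : u * s ≤ u * (2 * (b : ℝ) ^ 2) := mul_le_mul_of_nonneg_left hsb (by linarith)
      nlinarith
    calc 4 * (4 * (b : ℝ) ^ 2 * dst b m) ≤
        4 * (4 * (b : ℝ) ^ 2 * (2⁻¹ * (4 * u) ^ s * (s : ℝ) ^ s)) := by
          refine mul_le_mul_of_nonneg_left (mul_le_mul_of_nonneg_left e4 (by positivity))
            (by norm_num)
      _ = (8 * (b : ℝ) ^ 2) * ((4 * u) ^ s * (s : ℝ) ^ s) := by ring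
      _ ≤ (8 * (b : ℝ) ^ 2) * w ^ s := mul_le_mul_of_nonneg_left h1 (by positivity)
      _ ≤ w * w ^ s := by
          refine mul_le_mul_of_nonneg_right ?_ (by positivity)
          rw [hw]; nlinarith
      _ = _ := by rw [pow_succ]; ring
  have e6 : (5 : ℝ) ≤ w ^ (s + 1) := by
    calc (5 : ℝ) ≤ w ^ 1 := by rw [pow_one]; linarith
      _ ≤ _ := pow_le_pow_right₀ (by linarith) (by omega)
  have e7 : cst b m = 2 ^ (s + 1) * w ^ (s + 1) := by
    rw [cst, ← mul_pow, hw, hu]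
    have h1 : b ^ 2 + 2 = s + 1 := by rw [hs]
    rw [h1]
    congr 1
    rw [pow_add]
    ring
  have e8 : (8 : ℝ) ≤ 2 ^ (s + 1) := by
    calc (8 : ℝ) = 2 ^ 3 := by norm_num
      _ ≤ _ := pow_le_pow_right₀ (by norm_num) (by omega)
  have e9 : (0 : ℝ) ≤ w ^ (s + 1) := by positivity
  rw [e7]
  have e10 : 8 * w ^ (s + 1) ≤ 2 ^ (s + 1) * w ^ (s + 1) := mul_le_mul_of_nonneg_right e8 e9
  linarith

variable {k : Type u} [Field k] {𝒱 : VarClass k} {ops : CycleOps 𝒱}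
  {W : WeilCohomology.{u, v} ops} {X Y Z P Q U : 𝒱.Obj}

/-- **The half law at one exponent.** -/
theorem half_at {S : Sys W} (hpos : ∀ l, 0 < S.al X l) (hX : 0 < finrank W.K (W.H X))
    {l₁ : W.H X} (hl₁ : l₁ ∈ S.C X) (hl1 : W.tr X l₁ = 1) {k ε : ℕ} (hε : ε ≤ 1)
    (M : Submodule W.K (W.H (PP X k))) (hM : ∀ a ∈ S.Op (PP X k) (PP X k), ∀ m ∈ M, a m ∈ M)
    (hr : S.a (PP X k) < finrank W.K M) {l : ℕ} (hl : 1 ≤ l) (h0 : 0 < S.a (Z.prod Z))
    (M' : Submodule W.K (W.H (VV X Z ε l))) (hSM' : S.C (VV X Z ε l) ≤ M')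
    (hM' : ∀ a ∈ S.Op (PP X k) (VV X Z ε l), ∀ m ∈ M, a m ∈ M') :
    2 * (S.a (VV X Z ε l) : ℝ) ≤
      (1 + ((finrank W.K (W.H X) : ℝ) ^ (2 * (k + 1)) *
        (((finrank W.K (W.H X) ^ 2 + 1 : ℕ) : ℝ) * ((k + 1 : ℕ) + 1) *
          (finrank W.K (W.H X) : ℝ) ^ (2 * (k + 1 + 1))) +
        4 * (finrank W.K (W.H X) : ℝ) ^ 2 * dst (finrank W.K (W.H X)) (k + 1)) *
        (Real.log ((l : ℝ) + 2) / l)) * finrank W.K M' := by
  set b := finrank W.K (W.H X) with hb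
  have hb1 : (1 : ℝ) ≤ b := by exact_mod_cast hX
  have hd1 : 1 ≤ dst b (k + 1) := one_le_dst hX (by omega)
  set L : ℝ := Real.log ((l : ℝ) + 2) / l with hL
  have hlog : (0.5 : ℝ) ≤ Real.log (l + 2) := by
    have := log_ge l
    have := Real.log_two_gt_d9
    linarith
  have hl0 : (0 : ℝ) < l := by exact_mod_cast hl
  have hL1 : 1 ≤ 2 * L * (l + 1) := by
    rw [hL]
    have : 2 * (Real.log ((l : ℝ) + 2) / l) * (l + 1) =
        2 * Real.log ((l : ℝ) + 2) + 2 * Real.log ((l : ℝ) + 2) / l := by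
      field_simp
    rw [this]
    have : 0 ≤ 2 * Real.log ((l : ℝ) + 2) / l := by
      apply div_nonneg _ hl0.le
      linarith
    linarith
  have hL0 : 0 ≤ L := by rw [hL]; exact div_nonneg (by linarith) hl0.le
  have hT0 : (0 : ℝ) ≤ finrank W.K M' := Nat.cast_nonneg _
  have hY : 0 < S.a (pw X ε) := by
    obtain ⟨m, hm, hm1⟩ := S.exists_lam hl₁ hl1 ε
    exact S.a_pos hm hm1
  set E₁ : ℝ := (b : ℝ) ^ (2 * (k + 1)) *
        (((b ^ 2 + 1 : ℕ) : ℝ) * ((k + 1 : ℕ) + 1) * (b : ℝ) ^ (2 * (k + 1 + 1))) with hE₁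
  have hE₁0 : 0 ≤ E₁ := by positivity
  set E₂ : ℝ := 4 * (b : ℝ) ^ 2 * dst b (k + 1) with hE₂
  have hE₂0 : 0 ≤ E₂ := by rw [hE₂]; have : 0 ≤ dst b (k + 1) := by linarith
                           positivity
  -- the conclusion from a bound for the small case
  have hsmall : ∀ D : ℝ, 0 ≤ D → D ≤ dst b (k + 1) →
      (S.a (sq X Z l) : ℝ) * ((l : ℝ) + 2) ^ (b ^ 2) * (l + 1) ≤
        D * (((b : ℝ) ^ 2) ^ (l + 1) * S.a (Z.prod Z)) →
      2 * (S.a (VV X Z ε l) : ℝ) ≤ (1 + (E₁ + E₂) * L) * finrank W.K M' := by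
    intro D hD hDd h
    have h1 := case_small (S := S) (X := X) (Z := Z) hX hY hD h
    rw [← hb] at h1
    have h2 : (finrank W.K (S.C (VV X Z ε l)) : ℝ) ≤ finrank W.K M' := by
      exact_mod_cast Submodule.finrank_mono hSM'
    have h3 : (b : ℝ) ^ (ε + 1) ≤ (b : ℝ) ^ 2 := pow_le_pow_right₀ hb1 (by omega)
    have h4 : (S.a (VV X Z ε l) : ℝ) * (l + 1) ≤
        (b : ℝ) ^ 2 * dst b (k + 1) * finrank W.K M' := by
      refine h1.trans ?_
      refine mul_le_mul (mul_le_mul h3 hDd hD (by positivity)) h2 (Nat.cast_nonneg _) ?_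
      positivity
    have h5 : (0 : ℝ) ≤ S.a (VV X Z ε l) := Nat.cast_nonneg _
    calc 2 * (S.a (VV X Z ε l) : ℝ) ≤ (2 * (S.a (VV X Z ε l) : ℝ)) * (2 * L * (l + 1)) := by
          nlinarith
      _ = 4 * L * ((S.a (VV X Z ε l) : ℝ) * (l + 1)) := by ring
      _ ≤ 4 * L * ((b : ℝ) ^ 2 * dst b (k + 1) * finrank W.K M') :=
          mul_le_mul_of_nonneg_left h4 (by positivity)
      _ = E₂ * L * finrank W.K M' := by rw [hE₂]; ring
      _ ≤ (1 + (E₁ + E₂) * L) * finrank W.K M' := by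
          refine mul_le_mul_of_nonneg_right ?_ hT0
          have : 0 ≤ E₁ * L := mul_nonneg hE₁0 hL0
          linarith
  by_cases hnil : ∀ x ∈ S.NOp (PP X k) (PP X k), IsNilpotent x
  · by_cases hbig : Big S X Z (b ^ 2 + 1) l
    · have h1 := case_big hpos hX hl₁ hl1 hε M hM (r := 2) (by omega) hnil hl h0 hbig M' hSM' hM'
      rw [← hb, ← hL] at h1
      push_cast at h1
      refine h1.trans (mul_le_mul_of_nonneg_right ?_ hT0)
      have h2 : (b : ℝ) ^ (2 * k + 2) *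
          (((b : ℝ) ^ 2 + 1) * ((k : ℝ) + 2) * (b : ℝ) ^ (2 * (k + 2))) = E₁ := by
        rw [hE₁]
        push_cast
        ring
      rw [h2]
      have : 0 ≤ E₂ * L := mul_nonneg hE₂0 hL0
      linarith
    · refine hsmall 1 (by norm_num) hd1 ?_
      have h1 : S.a (sq X Z l) * (l + 2) ^ (b ^ 2 + 1) ≤ (b ^ 2) ^ (l + 1) * S.a (Z.prod Z) := by
        rw [Big, ← hb] at hbig
        omega
      have h2 : (S.a (sq X Z l) : ℝ) * ((l : ℝ) + 2) ^ (b ^ 2 + 1) ≤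
          ((b : ℝ) ^ 2) ^ (l + 1) * S.a (Z.prod Z) := by exact_mod_cast h1
      rw [one_mul]
      refine le_trans ?_ h2
      rw [pow_succ ((l : ℝ) + 2) (b ^ 2), ← mul_assoc]
      refine mul_le_mul_of_nonneg_left (by linarith) (by positivity)
  · push Not at hnil
    obtain ⟨x, hx, hn⟩ := hnil
    have hgr := growth_step (a := S.al X) hpos (S.al_convex X) (B := b ^ 2) (j := 2 * k + 2)
      (by omega) (Nat.pow_pos hX) (fun l => by
        have := growth_PP hX hx hn l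
        rw [← hb, pow_mul] at this
        exact this)
    set q : ℝ := ((2 * k + 2 : ℕ) : ℝ) * ((b ^ 2 : ℕ) : ℝ) ^ (2 * k + 2) with hq
    have hq0 : 0 < q := by
      have : (0 : ℝ) < b := by linarith
      rw [hq]
      push_cast
      positivity
    set c : ℝ := ((b ^ 2 : ℕ) : ℝ) * Real.exp (-(1 / q)) with hc
    have hc0 : 0 < c := by
      have : (0 : ℝ) < b := by linarith
      rw [hc]
      push_cast
      positivity
    have h1 := sq_geom S hc0 hgr Z l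
    refine hsmall (dst b (k + 1)) (by linarith) le_rfl ?_
    have h2 : c ^ (l + 1) = ((b : ℝ) ^ 2) ^ (l + 1) * Real.exp (-(((l : ℝ) + 1) / q)) := by
      rw [hc, mul_pow, ← Real.exp_nat_mul]
      push_cast
      congr 2
      ring
    have h3 := exp_bound hq0 (b ^ 2 + 1) ((l : ℝ) + 1) (by positivity)
    have h4 : ((l : ℝ) + 2) ^ (b ^ 2) ≤ 2 ^ (b ^ 2) * ((l : ℝ) + 1) ^ (b ^ 2) := by
      rw [← mul_pow]
      exact pow_le_pow_left₀ (by positivity) (by linarith) _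
    have h5 : q = 2 * ((k + 1 : ℕ) : ℝ) * (b : ℝ) ^ (4 * (k + 1)) := by
      rw [hq]
      push_cast
      rw [← pow_mul]
      ring
    have hdst : dst b (k + 1) = 2 ^ (b ^ 2) * ((b ^ 2 + 1).factorial * q ^ (b ^ 2 + 1)) := by
      rw [dst, h5]
    rw [hdst]
    have hN : (0 : ℝ) ≤ S.a (Z.prod Z) := Nat.cast_nonneg _
    calc (S.a (sq X Z l) : ℝ) * ((l : ℝ) + 2) ^ (b ^ 2) * (l + 1) ≤
        (c ^ (l + 1) * S.a (Z.prod Z)) * (2 ^ (b ^ 2) * ((l : ℝ) + 1) ^ (b ^ 2)) * (l + 1) := by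
          refine mul_le_mul_of_nonneg_right ?_ (by positivity)
          exact mul_le_mul h1 h4 (by positivity) (by positivity)
      _ = (2 ^ (b ^ 2) * (((l : ℝ) + 1) ^ (b ^ 2 + 1) * Real.exp (-(((l : ℝ) + 1) / q)))) *
          (((b : ℝ) ^ 2) ^ (l + 1) * S.a (Z.prod Z)) := by
          rw [h2]; ring
      _ ≤ _ := by
          refine mul_le_mul_of_nonneg_right ?_ (by positivity)
          exact mul_le_mul_of_nonneg_left h3 (by positivity)

end Pool.Agent.E8helper24.HP
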