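import Pool.Agent.E8helper24.HP.Flat

/-!
# The half law with an explicit constant: the three cases
-/

open CategoryTheory AlgebraicGeometry

universe u v

set_option linter.unusedSectionVars false

namespace Pool.Agent.E8helper24.HP

open Module
open Pool.Agent.H914 Pool.Agent.H914.VarClass Pool.Agent.H914.VarClass.Obj
  Pool.Agent.H914.WeilCohomology Pool.Agent.Y133.Half
open Pool.Agent.E8helper24.INF

variable {k : Type u} [Field k] {𝒱 : VarClass k} {ops : CycleOps 𝒱}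
  {W : WeilCohomology.{u, v} ops} {X Y Z P Q U : 𝒱.Obj}

/-- The object `X^(ε+1) × (Z × X^(l+1))²`. -/
noncomputable abbrev VV (X Z : 𝒱.Obj) (ε l : ℕ) : 𝒱.Obj := (pw X ε).prod (sq X Z l)

/-- The object `X^(k+1) × X^(k+1)`. -/
noncomputable abbrev PP (X : 𝒱.Obj) (k : ℕ) : 𝒱.Obj := (pw X k).prod (pw X k)

/-- The case of a large value and nilpotent operators. -/
theorem case_big {S : Sys W} (hpos : ∀ l, 0 < S.al X l) (hX : 0 < finrank W.K (W.H X))
    {l₁ : W.H X} (hl₁ : l₁ ∈ S.C X) (hl1 : W.tr X l₁ = 1) {k r ε : ℕ} (hε : ε ≤ 1)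
    (M : Submodule W.K (W.H (PP X k))) (hM : ∀ a ∈ S.Op (PP X k) (PP X k), ∀ m ∈ M, a m ∈ M)
    (hr : r * S.a (PP X k) < finrank W.K M + S.a (PP X k))
    (hnil : ∀ x ∈ S.NOp (PP X k) (PP X k), IsNilpotent x)
    {κ l : ℕ} (hl : 1 ≤ l) (h0 : 0 < S.a (Z.prod Z)) (hbig : Big S X Z κ l)
    (M' : Submodule W.K (W.H (VV X Z ε l))) (hSM' : S.C (VV X Z ε l) ≤ M')
    (hM' : ∀ a ∈ S.Op (PP X k) (VV X Z ε l), ∀ m ∈ M, a m ∈ M') :
    (r : ℝ) * S.a (VV X Z ε l) ≤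
      (1 + ((finrank W.K (W.H X) : ℝ) ^ (2 * k + 2) * (κ * (k + 2 : ℕ) *
        (finrank W.K (W.H X) : ℝ) ^ (2 * (k + 2)))) * (Real.log ((l : ℝ) + 2) / l)) *
        finrank W.K M' := by
  set b := finrank W.K (W.H X) with hb
  set t := finrank W.K M with ht
  set E' : ℝ := κ * (k + 2 : ℕ) * (b : ℝ) ^ (2 * (k + 2)) with hE'
  have hE'0 : 0 ≤ E' := by positivity
  have hflat := flat_all_at S hpos hX hl₁ hl1 h0 hl hbig (e := k + k + 1 + ε + 1) (j := k + 2)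
    (by omega) (by omega)
  rw [← hb, ← hE'] at hflat
  set L : ℝ := Real.log ((l : ℝ) + 2) / l with hL
  have hL0 : 0 ≤ L := by
    have := log_pos' l
    positivity
  set s := S.a (sq X Z l) with hs
  obtain ⟨G, hG1, hG2, hG3, hG4⟩ := wcount' S (PP X k) (VV X Z ε l) M M' hM hM' hnil
  set R := (G.map fun g => finrank W.K (LinearMap.range g)).sum with hR
  have hbP : finrank W.K (W.H (PP X k)) = b ^ (k + 1) * b ^ (k + 1) := by
    rw [Pool.Agent.Y133.Half.finrank_prod, finrank_pw]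
  have hRr : r ≤ R := by
    have h1 : t ≤ R * S.a (PP X k) := by
      refine hG3.trans ?_
      rw [hR, ← List.sum_map_mul_right]
      refine List.sum_le_sum fun g hg => ?_
      exact S.r_le_rank (hG1 g hg).1 (hG1 g hg).2 (pw X k)
    by_contra h2
    push Not at h2
    have h3 : (R + 1) * S.a (PP X k) ≤ r * S.a (PP X k) := Nat.mul_le_mul_right _ h2
    rw [add_mul, one_mul] at h3
    omega
  have hpart : ∀ g ∈ G, ((finrank W.K (LinearMap.range g) : ℝ) * (b : ℝ) ^ (ε + 1) - E' * L) *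
      s ≤ S.r (PP X k) g (VV X Z ε l) := by
    intro g hg
    have h1 := r_lower' S (P := PP X k) (P₀ := pw X ε) (hG1 g hg).1 (hG1 g hg).2 (Z.prod (pw X l))
    change S.a (((PP X k).prod (pw X ε)).prod (sq X Z l)) + _ * S.a (sq X Z l) ≤
      S.r (PP X k) g ((pw X ε).prod (sq X Z l)) + _ * S.a (sq X Z l) at h1
    have h3 : S.a (((PP X k).prod (pw X ε)).prod (sq X Z l)) =
        S.a ((pw X (k + k + 1 + ε + 1)).prod (sq X Z l)) := by
      apply a_cl
      simp only [cl_prod, cl_pw, pwc_add]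
    rw [h3, hbP, finrank_pw, ← hb, ← hs] at h1
    have h4 : (S.a ((pw X (k + k + 1 + ε + 1)).prod (sq X Z l)) : ℝ) +
        finrank W.K (LinearMap.range g) * (b : ℝ) ^ (ε + 1) * s ≤
        S.r (PP X k) g (VV X Z ε l) + (b : ℝ) ^ (k + 1) * (b : ℝ) ^ (k + 1) * (b : ℝ) ^ (ε + 1) * s := by
      exact_mod_cast h1
    have h5 : (b : ℝ) ^ (k + k + 1 + ε + 1 + 1) =
        (b : ℝ) ^ (k + 1) * (b : ℝ) ^ (k + 1) * (b : ℝ) ^ (ε + 1) := by
      rw [← pow_add, ← pow_add]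
      congr 1
      ring
    rw [h5] at hflat
    nlinarith
  have hsum := list_bound G (fun g => S.r (PP X k) g (VV X Z ε l)) (fun g => finrank W.K (LinearMap.range g)) hpart
  rw [← hR] at hsum
  have hV1 : (S.a (VV X Z ε l) : ℝ) ≤ (b : ℝ) ^ (ε + 1) * s := by
    have h1 := S.a_le (pw X ε) (Z.prod (pw X l))
    rw [finrank_pw] at h1
    change S.a (VV X Z ε l) ≤ b ^ (ε + 1) * s at h1
    exact_mod_cast h1
  have hV2 : s ≤ finrank W.K M' := by
    have h1 := a_prod_ge S (pw X ε) (sq X Z l)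
    have h2 : 0 < S.a (pw X ε) := by
      obtain ⟨m, hm, hm1⟩ := S.exists_lam hl₁ hl1 ε
      exact S.a_pos hm hm1
    calc s ≤ S.a (pw X ε) * s := Nat.le_mul_of_pos_left _ h2
      _ ≤ S.a (VV X Z ε l) := h1
      _ ≤ finrank W.K (S.C (VV X Z ε l)) := a_le_C S (VV X Z ε l)
      _ ≤ finrank W.K M' := Submodule.finrank_mono hSM'
  have hV2' : (s : ℝ) ≤ finrank W.K M' := by exact_mod_cast hV2
  have hG4' : ((G.map fun g => S.r (PP X k) g (VV X Z ε l)).sum : ℝ) ≤ finrank W.K M' := by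
    exact_mod_cast hG4
  have htb : t ≤ b ^ (2 * k + 2) := by
    have h1 : t ≤ finrank W.K (W.H (PP X k)) := Submodule.finrank_le _
    rw [hbP, ← pow_add] at h1
    have h2 : k + 1 + (k + 1) = 2 * k + 2 := by ring
    rwa [h2] at h1
  have hGt : (G.length : ℝ) ≤ (b : ℝ) ^ (2 * k + 2) := by exact_mod_cast hG2.trans htb
  have hRr' : (r : ℝ) ≤ R := by exact_mod_cast hRr
  have hbε : (0 : ℝ) ≤ (b : ℝ) ^ (ε + 1) := by positivity
  have hs0 : (0 : ℝ) ≤ s := Nat.cast_nonneg _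
  have hEL : 0 ≤ E' * L := mul_nonneg hE'0 hL0
  have hT0 : (0 : ℝ) ≤ finrank W.K M' := Nat.cast_nonneg _
  calc (r : ℝ) * S.a (VV X Z ε l) ≤ r * ((b : ℝ) ^ (ε + 1) * s) :=
        mul_le_mul_of_nonneg_left hV1 (Nat.cast_nonneg _)
    _ ≤ R * ((b : ℝ) ^ (ε + 1) * s) := mul_le_mul_of_nonneg_right hRr' (by positivity)
    _ = (R * (b : ℝ) ^ (ε + 1) - G.length * (E' * L)) * s + G.length * (E' * L) * s := by ring
    _ ≤ finrank W.K M' + (b : ℝ) ^ (2 * k + 2) * (E' * L) * finrank W.K M' := by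
        refine add_le_add (hsum.trans hG4') ?_
        exact mul_le_mul (mul_le_mul_of_nonneg_right hGt hEL) hV2' hs0 (by positivity)
    _ = _ := by ring

/-- The case of a small value. -/
theorem case_small {S : Sys W} (hX : 0 < finrank W.K (W.H X))
    {ε l : ℕ} (hY : 0 < S.a (pw X ε)) {D : ℝ} (hD : 0 ≤ D)
    (h : (S.a (sq X Z l) : ℝ) * ((l : ℝ) + 2) ^ (finrank W.K (W.H X) ^ 2) * (l + 1) ≤
      D * (((finrank W.K (W.H X) : ℝ) ^ 2) ^ (l + 1) * S.a (Z.prod Z))) :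
    (S.a (VV X Z ε l) : ℝ) * (l + 1) ≤
      (finrank W.K (W.H X) : ℝ) ^ (ε + 1) * D * finrank W.K (S.C (VV X Z ε l)) := by
  set b := finrank W.K (W.H X) with hb
  have h1 := S.a_le (pw X ε) (Z.prod (pw X l))
  rw [finrank_pw] at h1
  change S.a (VV X Z ε l) ≤ b ^ (ε + 1) * S.a (sq X Z l) at h1
  have h3 := C_ge S X (pw X ε) Z l hY
  rw [← hb] at h3
  have h3' : (S.a (Z.prod Z) : ℝ) * ((b : ℝ) ^ 2) ^ (l + 1) ≤
      finrank W.K (S.C (VV X Z ε l)) * ((l : ℝ) + 2) ^ (b ^ 2) := by exact_mod_cast h3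
  have h1' : (S.a (VV X Z ε l) : ℝ) ≤ (b : ℝ) ^ (ε + 1) * S.a (sq X Z l) := by exact_mod_cast h1
  have hbε : (0 : ℝ) ≤ (b : ℝ) ^ (ε + 1) := by positivity
  have hl0 : (0 : ℝ) < (l : ℝ) + 2 := by positivity
  have hp : (0 : ℝ) < ((l : ℝ) + 2) ^ (b ^ 2) := by positivity
  have h6 : ((S.a (VV X Z ε l) : ℝ) * (l + 1)) * ((l : ℝ) + 2) ^ (b ^ 2) ≤
      ((b : ℝ) ^ (ε + 1) * D * finrank W.K (S.C (VV X Z ε l))) * ((l : ℝ) + 2) ^ (b ^ 2) := by
    calc ((S.a (VV X Z ε l) : ℝ) * (l + 1)) * ((l : ℝ) + 2) ^ (b ^ 2) =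
        (S.a (VV X Z ε l) : ℝ) * (((l : ℝ) + 2) ^ (b ^ 2) * (l + 1)) := by ring
      _ ≤ ((b : ℝ) ^ (ε + 1) * S.a (sq X Z l)) * (((l : ℝ) + 2) ^ (b ^ 2) * (l + 1)) :=
          mul_le_mul_of_nonneg_right h1' (by positivity)
      _ = (b : ℝ) ^ (ε + 1) *
          ((S.a (sq X Z l) : ℝ) * ((l : ℝ) + 2) ^ (b ^ 2) * (l + 1)) := by ring
      _ ≤ (b : ℝ) ^ (ε + 1) * (D * (((b : ℝ) ^ 2) ^ (l + 1) * S.a (Z.prod Z))) :=
          mul_le_mul_of_nonneg_left h hbε
      _ = (b : ℝ) ^ (ε + 1) * D * (S.a (Z.prod Z) * ((b : ℝ) ^ 2) ^ (l + 1)) := by ring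
      _ ≤ (b : ℝ) ^ (ε + 1) * D *
          (finrank W.K (S.C (VV X Z ε l)) * ((l : ℝ) + 2) ^ (b ^ 2)) :=
          mul_le_mul_of_nonneg_left h3' (by positivity)
      _ = _ := by ring
  exact le_of_mul_le_mul_right h6 hp

/-! ### Operators which are not nilpotent -/

/-- A numerically trivial operator which is not nilpotent bounds the growth. -/
lemma growth_of_not_nilpotent {S : Sys W} {j : ℕ}
    (hP : ∀ l, S.a (P.prod ((pw X l).prod (pw X l))) = S.al X (l + j))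
    (hd : finrank W.K (W.H P) = finrank W.K (W.H X) ^ (2 * j))
    {x : Module.End W.K (W.H P)} (hx : x ∈ S.NOp P P) (hn : ¬ IsNilpotent x) (l : ℕ) :
    S.al X (l + j) + S.al X l ≤ finrank W.K (W.H X) ^ (2 * j) * S.al X l := by
  obtain ⟨g, hg, hgg, h0, hr⟩ := S.exists_idem hx hn ((pw X l).prod (pw X l))
  have h2 := S.r_add_le (Z := (pw X l).prod (pw X l)) g (1 - g)
  rw [add_sub_cancel, Sys.r_one, hr, zero_add, hP] at h2
  obtain ⟨hg', hdim⟩ := Sys.finrank_compl hgg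
  have h3 := S.r_le_rank (Submodule.sub_mem _ Sys.Op.id hg) hg' (pw X l)
  have h4 := Sys.finrank_range_pos h0
  have h6 : S.a ((pw X l).prod (pw X l)) = S.al X l := rfl
  rw [h6] at h3
  have h7 : finrank W.K (LinearMap.range (1 - g)) + 1 ≤ finrank W.K (W.H X) ^ (2 * j) := by
    rw [← hd, ← hdim]; omega
  calc S.al X (l + j) + S.al X l ≤
      finrank W.K (LinearMap.range (1 - g)) * S.al X l + S.al X l :=
        Nat.add_le_add_right (h2.trans h3) _
    _ = (finrank W.K (LinearMap.range (1 - g)) + 1) * S.al X l := by ring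
    _ ≤ _ := Nat.mul_le_mul_right _ h7

/-- The same for an operator on `X^(k+1) × X^(k+1)`. -/
lemma growth_PP {S : Sys W} {k : ℕ} (hX : 0 < finrank W.K (W.H X))
    {x : Module.End W.K (W.H (PP X k))} (hx : x ∈ S.NOp (PP X k) (PP X k))
    (hn : ¬ IsNilpotent x) (l : ℕ) :
    S.al X (l + (2 * k + 2)) + S.al X l ≤
      finrank W.K (W.H X) ^ (2 * (2 * k + 2)) * S.al X l := by
  set P := PP X k with hPd
  have h1 : (1 : W.H P) ≠ 0 := by
    have : Nontrivial (W.H P) := by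
      apply Module.nontrivial_of_finrank_pos (R := W.K)
      rw [hPd, Pool.Agent.Y133.Half.finrank_prod, finrank_pw]
      exact Nat.mul_pos (Nat.pow_pos hX) (Nat.pow_pos hX)
    exact one_ne_zero
  let θ : P ≅ pw X (k + k + 1) := pwAdd X k k
  have hE := Sys.NOp.ext_left (Q := P) hx
  have h1' : ∀ l, S.a ((P.prod P).prod ((pw X l).prod (pw X l))) = S.al X (l + (2 * k + 2)) := by
    intro l
    rw [S.a_iso (prodCongr (prodCongr θ θ ≪≫ pwAdd X _ _) (Iso.refl _))]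
    exact S.a_pw X (by ring)
  have h2 : finrank W.K (W.H (P.prod P)) = finrank W.K (W.H X) ^ (2 * (2 * k + 2)) := by
    rw [Pool.Agent.Y133.Half.finrank_prod, finrank_iso θ, finrank_pw, ← pow_add]
    congr 1
    ring
  refine growth_of_not_nilpotent h1' h2 hE (fun ⟨n, hn'⟩ => hn ⟨n, ?_⟩) l
  rw [Sys.extOp_pow] at hn'
  apply LinearMap.ext
  intro y
  have h3 := congrArg (fun f : Module.End W.K (W.H (P.prod P)) => f (xp W y 1)) hn'
  simp only [extOp_xp, LinearMap.zero_apply, Module.End.one_apply] at h3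
  exact xp_eq_zero_right h1 h3

end Pool.Agent.E8helper24.HP
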