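import Mathlib

/-!
# The explicit infection law: the constant
-/

namespace Pool.Agent.E8helper24.HP

/-- The constant `2 ^ (b ² + 10) (q + 1) b ^ (q + 4)`. -/
noncomputable def constD (b q : ℕ) : ℝ := 2 ^ (b ^ 2 + 10) * (q + 1) * (b : ℝ) ^ (q + 4)

end Pool.Agent.E8helper24.HP
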