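import Pool.Agent.E8helper24.HP.Infect
import Pool.Agent.E8helper24.HP.DPub
import Pool.Agent.E8helper24.INF.DInf

/-!
# The infection law for conjecture D with an explicit constant
-/

open CategoryTheory AlgebraicGeometry

universe u v

set_option linter.unusedSectionVars false

namespace Pool.Agent.E8helper24.HP

open Module
open Pool.Agent.H914 Pool.Agent.H914.VarClass Pool.Agent.H914.VarClass.Obj
  Pool.Agent.H914.WeilCohomology Pool.Agent.Y133.Half
open Pool.Agent.E8helper24.INF

variable {k : Type u} [Field k] {𝒱 : VarClass k} {ops : CycleOps 𝒱}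

lemma constD_eq (b q : ℕ) : constD b q = 4 * b * cI b q := by
  rw [constD, cI, pow_add, pow_add]
  norm_num
  ring

theorem d_explicit (W : WeilCohomology.{u, v} ops) (X : 𝒱.Obj) (q : ℕ) :
    HomEqNum W (pw X q) ∨ ∀ n : ℕ,
        (∀ Z : 𝒱.Obj, AtMost W (constD (finrank W.K (W.H X)) q * rate n)
          ((pw X n).prod (Z.prod Z))) ∧
        (∀ Y : 𝒱.Obj, AtMost W (constD (finrank W.K (W.H X)) q * rate n * finrank W.K (W.H Y))
          ((pw X n).prod Y)) ∧
        (∀ Y Z : 𝒱.Obj, AtMost W (constD (finrank W.K (W.H X)) q * rate n *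
          finrank W.K (W.H Y)) ((pw X n).prod (Y.prod (Z.prod Z)))) := by
  by_cases hD : HomEqNum W (pw X q)
  · exact Or.inl hD
  right
  have hq : (algSys W).Num (pw X q) ≠ ⊥ := fun h => hD ((homEqNum_iff _).2 h)
  set b := finrank W.K (W.H X) with hb
  have hb1 : 1 ≤ b := by
    by_contra h0
    apply hq
    have h1 : finrank W.K (W.H (pw X q)) = 0 := by
      rw [finrank_pw, ← hb]
      have : b = 0 := by omega
      rw [this, zero_pow (by omega)]
    rw [eq_bot_iff]
    intro x _
    have : Subsingleton (W.H (pw X q)) := Module.finrank_zero_iff.1 h1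
    rw [Submodule.mem_bot]
    exact Subsingleton.elim _ _
  set C : ℝ := cI b q with hCdef
  have hC1 : (512 : ℝ) * b ≤ C := (cI_ge hb1 q).1
  have hbR : (1 : ℝ) ≤ b := by exact_mod_cast hb1
  have hC : 0 ≤ C := by linarith
  have h : ∀ (n : ℕ) (Y Z : 𝒱.Obj), Concl (algSys W) X Y Z C n := fun n Y Z =>
    infection_at (algSys W) X q hq n Y Z
  have e0 : ∀ V : 𝒱.Obj, ((algSys W).a V : ℝ) = cycRank ops V := fun V => by
    rw [numDim_eq_cycRank W V]
  have e1 : ∀ V : 𝒱.Obj, (finrank W.K ((algSys W).C V) : ℝ) = algDim W V := fun V => by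
    rw [algDim_eq]
    rfl
  have hd : ∀ V : 𝒱.Obj, (0 : ℝ) ≤ algDim W V := fun V => Nat.cast_nonneg _
  have hbpos : ∀ V : 𝒱.Obj, 0 < (algSys W).a V → (1 : ℝ) ≤ finrank W.K (W.H V) := by
    intro V hV
    have := a_le_H (algSys W) V
    exact_mod_cast (by omega : 1 ≤ finrank W.K (W.H V))
  have hpos_of : ∀ {V V' : 𝒱.Obj} (_ : V ⟶ V'), 0 < (algSys W).a V → 0 < (algSys W).a V' := by
    intro V V' f hV
    by_contra h0
    have h1 := a_prod_eq_zero (algSys W) (Nat.eq_zero_of_not_pos h0) f
    omega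
  have key1 : ∀ (n : ℕ) (Z : 𝒱.Obj), (cycRank ops ((pw X n).prod (Z.prod Z)) : ℝ) ≤
      ((C + 1) * √2 * rate n * b) * algDim W ((pw X n).prod (Z.prod Z)) := by
    intro n Z
    rw [← e0, ← e1]
    refine shift_bound (algSys W) hC h X Z (Z.prod Z) (r := 1) (by positivity) (by norm_num)
      (by norm_num) le_rfl (fun m => ?_) n (fun hV => ?_)
    · rw [ob]
      simp only [cl_prod, cl_pw]
      change _ = (pwc (cl X) m * cl X) * _
      ac_rfl
    · exact hbpos X (hpos_of (fst _ _ ≫ prj X n 0) hV)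
  have key2 : ∀ (n : ℕ) (Y : 𝒱.Obj), (cycRank ops ((pw X n).prod Y) : ℝ) ≤
      ((C + 1) * √4 * rate n * finrank W.K (W.H Y)) * algDim W ((pw X n).prod Y) := by
    intro n Y
    rw [← e0, ← e1]
    refine shift_bound (algSys W) hC h Y X Y (r := 2) (by positivity) (by norm_num)
      (by norm_num) le_rfl (fun m => ?_) n (fun hV => ?_)
    · rw [ob]
      simp only [cl_prod, cl_pw]
      change _ = ((pwc (cl X) m * cl X) * cl X) * _
      ac_rfl
    · exact hbpos Y (hpos_of (snd _ _) hV)
  have hCC : (C + 1) * 2 * b ≤ constD b q := by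
    rw [constD_eq, ← hCdef]
    nlinarith
  intro n
  have hr := rate_nonneg n
  refine ⟨fun Z => ?_, fun Y => ?_, fun Y Z => ?_⟩
  · refine (key1 n Z).trans (mul_le_mul_of_nonneg_right ?_ (hd _))
    have h1 : √(2 : ℝ) ≤ 2 := by
      rw [Real.sqrt_le_left (by norm_num)]
      norm_num
    calc (C + 1) * √2 * rate n * b = ((C + 1) * √2 * b) * rate n := by ring
      _ ≤ ((C + 1) * 2 * b) * rate n := by
          refine mul_le_mul_of_nonneg_right ?_ hr
          refine mul_le_mul_of_nonneg_right ?_ (by linarith)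
          exact mul_le_mul_of_nonneg_left h1 (by linarith)
      _ ≤ constD b q * rate n := mul_le_mul_of_nonneg_right hCC hr
  · refine (key2 n Y).trans (mul_le_mul_of_nonneg_right ?_ (hd _))
    have h1 : √(4 : ℝ) = 2 := by
      rw [show (4 : ℝ) = 2 ^ 2 by norm_num]
      exact Real.sqrt_sq (by norm_num)
    rw [h1]
    refine mul_le_mul_of_nonneg_right ?_ (Nat.cast_nonneg _)
    refine mul_le_mul_of_nonneg_right ?_ hr
    refine le_trans ?_ hCC
    exact le_mul_of_one_le_right (by positivity) hbR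
  · have h1 := h n Y Z
    rw [Concl, e0, e1] at h1
    refine h1.trans (mul_le_mul_of_nonneg_right ?_ (hd _))
    have h2 : (0 : ℝ) ≤ rate n * finrank W.K (W.H Y) := mul_nonneg hr (Nat.cast_nonneg _)
    have h3 : C ≤ constD b q := by
      refine le_trans ?_ hCC
      nlinarith
    calc C * finrank W.K (W.H Y) * rate n = C * (rate n * finrank W.K (W.H Y)) := by ring
      _ ≤ constD b q * (rate n * finrank W.K (W.H Y)) := mul_le_mul_of_nonneg_right h3 h2
      _ = _ := by ring

end Pool.Agent.E8helper24.HP
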