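import Pool.Agent.E8helper24.QF.Defs
import Pool.Agent.E8helper24.HP.QPub

/-!
# Classes which are fixed by the whole Galois group: definitions
-/

open CategoryTheory AlgebraicGeometry

universe u

namespace Pool.Agent.E8helper24.HP

open Pool.Agent.H914 Pool.Agent.H914.VarClass Pool.Agent.H914.VarClass.Obj
  Pool.Agent.H914.WeilCohomology Pool.Agent.Y121.AHS
open Pool.Agent.R920.MT (Property)
open Pool.Agent.Y133.Half (pw)
open Pool.Agent.E8helper24.INF.Drb (rankBy)
open Pool.Agent.E8helper24.QF (GalAction)

variable {k : Type u} [Field k] {𝒱 : VarClass k} {ops : CycleOps 𝒱}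

section One

variable {Γ : Type} [Group Γ] {W : WeilCohomology.{u, 0} ops} {L : Type} [Field L]
  [Algebra W.K L] (A : GalAction Γ W L)

/-- The invariant classes of degree `2 j`: the classes which are fixed by all elements of `Γ`, if
the effect on the Tate twist is taken into account. -/
def IsInvariant (X : 𝒱.Obj) (j : ℕ) (x : HL W L X) : Prop :=
  IsDeg (2 * j) x ∧ ∀ g, (A.act g).e X x = twL (A.act g).c j x

/-- The dimension of the space spanned by the invariant classes of all degrees. -/
noncomputable def invDim (X : 𝒱.Obj) : ℕ :=
  Set.finrank L {x : HL W L X | ∃ j, IsInvariant A X j x}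

end One

section Many

variable {ι : Type} {Γ : Type} [Group Γ] {W : WeilCohomology.{u, 0} ops} {L : ι → Type}
  [∀ i, Field (L i)] [∀ i, Algebra W.K (L i)] (A : ∀ i, GalAction Γ W (L i))

/-- The rational invariant classes of degree `2 j`: the rational classes which are invariant
for all `i`. -/
def IsRatInv : Property W := fun X j c => ∀ i, IsInvariant (A i) X j (emL W (L i) c)

/-- All invariant classes for the index `i` on `X` are linear combinations, with coefficients in
`L i`, of rational invariant classes. -/
def InvOverQ (i : ι) (X : 𝒱.Obj) : Prop := ∀ j x, IsInvariant (A i) X j x →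
  x ∈ AddSubmonoid.closure {y | ∃ l c, IsRatInv A X j c ∧ smL l (emL W (L i) c) = y}

/-- For all `n` and all varieties `Z` the rank of the intersection form on the rational invariant
classes on `X^(n+1) × Z × Z` is at most `(1 / r + C log (n + 2) / (n + 1))` times the dimension of
the space of the invariant classes for `i`. -/
def RatOneOver (i : ι) (X : 𝒱.Obj) (r : ℕ) (C : ℝ) : Prop := ∀ Z : 𝒱.Obj,
  AtMostOneOver r (fun n => rankBy (IsRatInv A) ((pw X n).prod (Z.prod Z)))
    (fun n => invDim (A i) ((pw X n).prod (Z.prod Z))) C

end Many

end Pool.Agent.E8helper24.HP
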