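import Pool.Agent.E8helper24.HP.Quant
import Pool.Agent.E8helper24.HP.ExactPub
import Pool.Agent.E8helper24.QF.Law

/-!
# The quantization law for classes which are fixed by the whole Galois group
-/

open CategoryTheory AlgebraicGeometry TensorProduct

universe u

set_option linter.unusedSectionVars false

namespace Pool.Agent.E8helper24.HP.Exact

open Module
open Pool.Agent.H914 Pool.Agent.H914.VarClass Pool.Agent.H914.VarClass.Obj
  Pool.Agent.H914.WeilCohomology
open Pool.Agent.Y133.Half Pool.Agent.Y121.AH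
open Pool.Agent.E8helper24.QF
open Pool.Agent.E8helper24.INF.Drb (rankBy)

variable {k : Type u} [Field k] {𝒱 : VarClass k} {ops : CycleOps 𝒱}

section pred

variable {Γ : Type} [Group Γ] {W : WeilCohomology.{u, 0} ops} {L : Type} [Field L]
  [Algebra W.K L] (A : GA Γ W L) {X Y Z P : 𝒱.Obj}

/-- The invariant classes. -/
def It (X : 𝒱.Obj) (j : ℕ) (x : (baseW W L).H X) : Prop :=
  x ∈ (baseW W L).gr X (2 * j) ∧ ∀ g, (A.C g).C.e X x = (A.C g).C.c ^ j • x

/-- The invariant classes. -/
def invPred : ClassPred (baseW W L) where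
  P X j x := It A X j x
  gr h := h.1
  zero := ⟨Submodule.zero_mem _, fun g => by rw [map_zero, smul_zero]⟩
  add := by
    rintro X j a b ⟨ha, ha'⟩ ⟨hb, hb'⟩
    refine ⟨Submodule.add_mem _ ha hb, fun g => ?_⟩
    rw [map_add, ha' g, hb' g, smul_add]
  smul := by
    rintro X j r a ⟨ha, ha'⟩
    refine ⟨Submodule.smul_mem _ _ ha, fun g => ?_⟩
    rw [(A.C g).semi, ha' g, smul_comm]
  cl {X j z} hz := ⟨(baseW W L).cl_mem hz, fun g => (A.C g).C.cyc hz⟩
  mul := by
    rintro X i j a b ⟨ha, ha'⟩ ⟨hb, hb'⟩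
    refine ⟨by rw [mul_add]; exact (baseW W L).mul_mem ha hb, fun g => ?_⟩
    rw [map_mul, ha' g, hb' g, smul_mul_smul_comm, pow_add]
  map := by
    rintro X Y f j a ⟨ha, ha'⟩
    refine ⟨(baseW W L).map_mem f ha, fun g => ?_⟩
    rw [(A.C g).C.nat, ha' g, map_smul]
  push := by
    rintro X Y f j l h a ⟨ha, ha'⟩
    refine ⟨push_gr f h ha, fun g => ?_⟩
    have h2 := (A.C g).C.push f a
    have hc : (A.C g).C.c ^ X.dim ≠ 0 := pow_ne_zero _ (A.C g).C.ne
    rw [ha' g, map_smul, smul_smul, ← pow_add] at h2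
    apply smul_right_injective _ hc
    change (A.C g).C.c ^ X.dim • (A.C g).C.e Y ((baseW W L).push f a) =
      (A.C g).C.c ^ X.dim • (A.C g).C.c ^ l • (baseW W L).push f a
    rw [h2, smul_smul, ← pow_add]
    congr 2
    omega

variable {ι : Type} {L : ι → Type} [∀ i, Field (L i)] [∀ i, Algebra W.K (L i)]
  (A : ∀ i, GA Γ W (L i))

/-- The rational invariant classes. -/
def ratPred (i₀ : ι) : ClassPred W where
  P X j x := ∀ i, It (A i) X j (em W (L i) x)
  gr h := mem_of_em_mem (h i₀).1
  zero i := by rw [em_zero]; exact (invPred (A i)).zero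
  add ha hb i := by rw [em_add]; exact (invPred (A i)).add (ha i) (hb i)
  smul r _ ha i := by rw [em_smul]; exact (invPred (A i)).smul _ (ha i)
  cl hz i := (invPred (A i)).cl hz
  mul ha hb i := by rw [em_mul]; exact (invPred (A i)).mul (ha i) (hb i)
  map f _ _ ha i := by rw [← em_map]; exact (invPred (A i)).map f (ha i)
  push f _ _ h _ ha i := by rw [← em_push]; exact (invPred (A i)).push f h (ha i)

variable {A}

/-- Extended rational invariant classes are invariant classes. -/
lemma base_leI (i₀ i : ι) (Z : 𝒱.Obj) :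
    ((ratPred A i₀).sys.base (L i)).C Z ≤ (invPred (A i)).sys.C Z := by
  intro x hx
  have hx' : x ∈ ((ratPred A i₀).sp Z).baseChange (L i) := hx
  refine base_induction (P := fun x : (L i) ⊗[W.K] W.H Z => (show (baseW W (L i)).H Z from x) ∈
    (invPred (A i)).sp Z) ?_ ?_ ?_ hx'
  · exact Submodule.zero_mem _
  · intro x y hx hy; exact Submodule.add_mem _ hx hy
  · intro l a ha
    have h : (show (baseW W (L i)).H Z from (l ⊗ₜ[W.K] a)) ∈ (invPred (A i)).sp Z := by
      rw [tmul_eq]
      refine Submodule.smul_mem _ _ ?_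
      refine ClassPred.sp_ind (Q := ratPred A i₀)
        (q := fun a => em W (L i) a ∈ (invPred (A i)).sp Z) ?_ ?_ ?_ ha
      · intro j a ha; exact ClassPred.sp_of (Q := invPred (A i)) (ha i)
      · rw [em_zero]; exact Submodule.zero_mem _
      · intro a b ha hb; rw [em_add]; exact Submodule.add_mem _ ha hb
    exact h

end pred

variable {Γ : Type} [Group Γ] {W : WeilCohomology.{u, 0} ops}
  {ι : Type} {L : ι → Type} [∀ i, Field (L i)] [∀ i, Algebra W.K (L i)]
  (A : ∀ i, GalAction Γ W (L i))

lemma inv_iff {i : ι} {X : 𝒱.Obj} {j : ℕ} {x : (baseW W (L i)).H X} :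
    IsInvariant (A i) X j x ↔ It (toGA (A i)) X j x := Iff.rfl

/-- The combinations of rational invariant classes of degree `2 j`. -/
noncomputable def combs (i : ι) (Z : 𝒱.Obj) (j : ℕ) : AddSubmonoid ((baseW W (L i)).H Z) :=
  AddSubmonoid.closure {y | ∃ (l : (baseW W (L i)).K) (c : W.H Z),
    IsRatInv A Z j c ∧ l • em W (L i) c = y}

/-- The homogeneous components of the elements of the extended space of rational invariant classes. -/
lemma proj_mem_combs (i : ι) {Z : 𝒱.Obj} (j : ℕ) {x : (baseW W (L i)).H Z}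
    (hx : x ∈ ((ratPred (fun i => toGA (A i)) i).sys.base (L i)).C Z) :
    H914.proj ((baseW W (L i)).isInternal Z) (2 * j) x ∈ combs A i Z j := by
  have hx' : x ∈ ((ratPred (fun i => toGA (A i)) i).sp Z).baseChange (L i) := hx
  refine base_induction (P := fun x : (L i) ⊗[W.K] W.H Z =>
    H914.proj ((baseW W (L i)).isInternal Z) (2 * j) (show (baseW W (L i)).H Z from x) ∈
      combs A i Z j) ?_ ?_ ?_ hx'
  · have h : H914.proj ((baseW W (L i)).isInternal Z) (2 * j)
        (show (baseW W (L i)).H Z from (0 : (L i) ⊗[W.K] W.H Z)) = 0 :=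
      map_zero (H914.proj ((baseW W (L i)).isInternal Z) (2 * j))
    rw [h]
    exact zero_mem _
  · intro x y hx hy
    have h : H914.proj ((baseW W (L i)).isInternal Z) (2 * j)
        (show (baseW W (L i)).H Z from (x + y)) =
        H914.proj ((baseW W (L i)).isInternal Z) (2 * j) (show (baseW W (L i)).H Z from x) +
        H914.proj ((baseW W (L i)).isInternal Z) (2 * j) (show (baseW W (L i)).H Z from y) :=
      map_add (H914.proj ((baseW W (L i)).isInternal Z) (2 * j)) _ _
    rw [h]
    exact add_mem hx hy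
  · intro l a ha
    rw [tmul_eq]
    refine ClassPred.sp_ind (Q := ratPred (fun i => toGA (A i)) i)
      (q := fun a => H914.proj ((baseW W (L i)).isInternal Z) (2 * j)
        ((show (baseW W (L i)).K from l) • em W (L i) a) ∈ combs A i Z j) ?_ ?_ ?_ ha
    · intro j' a ha
      have h1 : em W (L i) a ∈ (baseW W (L i)).gr Z (2 * j') := (ha i).1
      rw [map_smul]
      by_cases h : j' = j
      · subst h
        rw [proj_same _ h1]
        exact AddSubmonoid.subset_closure ⟨_, a, ha, rfl⟩
      · rw [proj_ne _ h1 (by omega), smul_zero]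
        exact zero_mem _
    · rw [em_zero, smul_zero, map_zero]
      exact zero_mem _
    · intro a b ha hb
      rw [em_add, smul_add, map_add]
      exact add_mem ha hb

/-- If the spaces agree all invariant classes are combinations of rational invariant classes. -/
lemma defined_of_le (i : ι) {Z : 𝒱.Obj}
    (h : (invPred (toGA (A i))).sys.C Z ≤
      ((ratPred (fun i => toGA (A i)) i).sys.base (L i)).C Z) : InvOverQ A i Z := by
  intro j x hx
  have h1 : x ∈ (invPred (toGA (A i))).sys.C Z :=
    ClassPred.sp_of (Q := invPred (toGA (A i))) ((inv_iff A).1 hx)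
  have h2 := proj_mem_combs A i j (h h1)
  have h3 : H914.proj ((baseW W (L i)).isInternal Z) (2 * j) x = x :=
    proj_same _ ((inv_iff A).1 hx).1
  rw [h3] at h2
  exact h2

lemma rankBy_eq (i : ι) (Z : 𝒱.Obj) : rankBy (IsRatInv A) Z =
    ((ratPred (fun i => toGA (A i)) i).sys.base (L i)).a Z := by
  rw [a_base]
  exact INF.Drb.rankBy_sys (ratPred (fun i => toGA (A i)) i) _

lemma invDim_eq (i : ι) (Z : 𝒱.Obj) : invDim (A i) Z =
    finrank (baseW W (L i)).K ((invPred (toGA (A i))).sys.C Z) := rfl

/-- If the numbers agree all invariant classes are combinations of rational invariant classes. -/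
theorem defined_or (i : ι) (Z : 𝒱.Obj) :
    InvOverQ A i Z ∨ rankBy (IsRatInv A) Z < invDim (A i) Z := by
  by_cases h : rankBy (IsRatInv A) Z < invDim (A i) Z
  · exact Or.inr h
  left
  rw [not_lt, rankBy_eq A i, invDim_eq] at h
  have hle := base_leI (A := fun i => toGA (A i)) i i Z
  have k1 := INF.a_le_C ((ratPred (fun i => toGA (A i)) i).sys.base (L i)) Z
  exact defined_of_le A i (Submodule.eq_of_le_of_finrank_le hle (by omega)).ge

/-- **The quantization law with an explicit constant for rational invariant classes.** -/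
theorem common_quant (i : ι) {X : 𝒱.Obj} (hX : 0 < finrank W.K (W.H X)) {m r : ℕ} (hm : 1 ≤ m)
    (hr : 1 ≤ r) (hlt : (r - 1) * rankBy (IsRatInv A) (pw X (2 * m - 1)) <
      invDim (A i) (pw X (2 * m - 1))) :
    RatOneOver A i X r (constant (finrank W.K (W.H X)) m) := by
  have hle : ∀ Z, ((ratPred (fun i => toGA (A i)) i).sys.base (L i)).C Z ≤
      (invPred (toGA (A i))).sys.C Z := base_leI (A := fun i => toGA (A i)) i i
  have hfin : finrank (baseW W (L i)).K ((baseW W (L i)).H X) = finrank W.K (W.H X) := by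
    have h : finrank (L i) ((L i) ⊗[W.K] W.H X) = finrank W.K (W.H X) :=
      Module.finrank_baseChange
    exact h
  rw [rankBy_eq A i, invDim_eq] at hlt
  intro Z n
  have h1 := quant_sys (W := baseW W (L i)) hle (by rw [hfin]; exact hX) hm hr hlt n Z
  rw [hfin] at h1
  change ((rankBy (IsRatInv A) ((pw X n).prod (Z.prod Z)) : ℕ) : ℝ) ≤
    _ * ((invDim (A i) ((pw X n).prod (Z.prod Z)) : ℕ) : ℝ)
  rw [rankBy_eq A i, invDim_eq]
  exact h1

end Pool.Agent.E8helper24.HP.Exact
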