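import Pool.Agent.E8helper24.HP.SysHalf

/-!
# The quantization law with an explicit constant
-/

open CategoryTheory AlgebraicGeometry

universe u v

set_option linter.unusedSectionVars false

namespace Pool.Agent.E8helper24.HP

open Module
open Pool.Agent.H914 Pool.Agent.H914.VarClass Pool.Agent.H914.VarClass.Obj
  Pool.Agent.H914.WeilCohomology Pool.Agent.Y133.Half
open Pool.Agent.E8helper24.INF

variable {k : Type u} [Field k] {𝒱 : VarClass k} {ops : CycleOps 𝒱}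
  {W : WeilCohomology.{u, v} ops} {X Y Z P Q U : 𝒱.Obj}

/-- **The quantization law at one exponent.** -/
theorem quant_at {S : Sys W} (hpos : ∀ l, 0 < S.al X l) (hX : 0 < finrank W.K (W.H X))
    {l₁ : W.H X} (hl₁ : l₁ ∈ S.C X) (hl1 : W.tr X l₁ = 1) {k ε r : ℕ} (hε : ε ≤ 1)
    (M : Submodule W.K (W.H (PP X k))) (hM : ∀ a ∈ S.Op (PP X k) (PP X k), ∀ m ∈ M, a m ∈ M)
    (hr : (r - 1) * S.a (PP X k) < finrank W.K M) {l : ℕ} (hl : 1 ≤ l) (h0 : 0 < S.a (Z.prod Z))
    (M' : Submodule W.K (W.H (VV X Z ε l))) (hSM' : S.C (VV X Z ε l) ≤ M')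
    (hM' : ∀ a ∈ S.Op (PP X k) (VV X Z ε l), ∀ m ∈ M, a m ∈ M') :
    (r : ℝ) * (S.a (VV X Z ε l) : ℝ) ≤
      (1 + ((finrank W.K (W.H X) : ℝ) ^ (2 * (k + 1)) *
        (((finrank W.K (W.H X) ^ 2 + 1 : ℕ) : ℝ) * ((k + 1 : ℕ) + 1) *
          (finrank W.K (W.H X) : ℝ) ^ (2 * (k + 1 + 1))) +
        (r : ℝ) / 2 * (4 * (finrank W.K (W.H X) : ℝ) ^ 2 *
          dst (finrank W.K (W.H X)) (k + 1))) *
        (Real.log ((l : ℝ) + 2) / l)) * finrank W.K M' := by
  set b := finrank W.K (W.H X) with hb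
  have hb1 : (1 : ℝ) ≤ b := by exact_mod_cast hX
  have hd1 : 1 ≤ dst b (k + 1) := one_le_dst hX (by omega)
  set L : ℝ := Real.log ((l : ℝ) + 2) / l with hL
  have hlog : (0.5 : ℝ) ≤ Real.log (l + 2) := by
    have := log_ge l
    have := Real.log_two_gt_d9
    linarith
  have hl0 : (0 : ℝ) < l := by exact_mod_cast hl
  have hL1 : 1 ≤ 2 * L * (l + 1) := by
    rw [hL]
    have : 2 * (Real.log ((l : ℝ) + 2) / l) * (l + 1) =
        2 * Real.log ((l : ℝ) + 2) + 2 * Real.log ((l : ℝ) + 2) / l := by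
      field_simp
    rw [this]
    have : 0 ≤ 2 * Real.log ((l : ℝ) + 2) / l := by
      apply div_nonneg _ hl0.le
      linarith
    linarith
  have hL0 : 0 ≤ L := by rw [hL]; exact div_nonneg (by linarith) hl0.le
  have hT0 : (0 : ℝ) ≤ finrank W.K M' := Nat.cast_nonneg _
  have hY : 0 < S.a (pw X ε) := by
    obtain ⟨m, hm, hm1⟩ := S.exists_lam hl₁ hl1 ε
    exact S.a_pos hm hm1
  set E₁ : ℝ := (b : ℝ) ^ (2 * (k + 1)) *
        (((b ^ 2 + 1 : ℕ) : ℝ) * ((k + 1 : ℕ) + 1) * (b : ℝ) ^ (2 * (k + 1 + 1))) with hE₁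
  have hE₁0 : 0 ≤ E₁ := by positivity
  set E₂ : ℝ := 4 * (b : ℝ) ^ 2 * dst b (k + 1) with hE₂
  have hE₂0 : 0 ≤ E₂ := by rw [hE₂]; have : 0 ≤ dst b (k + 1) := by linarith
                           positivity
  -- the conclusion from a bound for the small case
  have hsmall : ∀ D : ℝ, 0 ≤ D → D ≤ dst b (k + 1) →
      (S.a (sq X Z l) : ℝ) * ((l : ℝ) + 2) ^ (b ^ 2) * (l + 1) ≤
        D * (((b : ℝ) ^ 2) ^ (l + 1) * S.a (Z.prod Z)) →
      (r : ℝ) * (S.a (VV X Z ε l) : ℝ) ≤ (1 + (E₁ + (r : ℝ) / 2 * E₂) * L) *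
        finrank W.K M' := by
    intro D hD hDd h
    have h1 := case_small (S := S) (X := X) (Z := Z) hX hY hD h
    rw [← hb] at h1
    have h2 : (finrank W.K (S.C (VV X Z ε l)) : ℝ) ≤ finrank W.K M' := by
      exact_mod_cast Submodule.finrank_mono hSM'
    have h3 : (b : ℝ) ^ (ε + 1) ≤ (b : ℝ) ^ 2 := pow_le_pow_right₀ hb1 (by omega)
    have h4 : (S.a (VV X Z ε l) : ℝ) * (l + 1) ≤
        (b : ℝ) ^ 2 * dst b (k + 1) * finrank W.K M' := by
      refine h1.trans ?_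
      refine mul_le_mul (mul_le_mul h3 hDd hD (by positivity)) h2 (Nat.cast_nonneg _) ?_
      positivity
    have h5 : (0 : ℝ) ≤ S.a (VV X Z ε l) := Nat.cast_nonneg _
    have h6 : 2 * (S.a (VV X Z ε l) : ℝ) ≤ E₂ * L * finrank W.K M' := by
      calc 2 * (S.a (VV X Z ε l) : ℝ) ≤ (2 * (S.a (VV X Z ε l) : ℝ)) * (2 * L * (l + 1)) := by
            nlinarith
        _ = 4 * L * ((S.a (VV X Z ε l) : ℝ) * (l + 1)) := by ring
        _ ≤ 4 * L * ((b : ℝ) ^ 2 * dst b (k + 1) * finrank W.K M') :=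
            mul_le_mul_of_nonneg_left h4 (by positivity)
        _ = E₂ * L * finrank W.K M' := by rw [hE₂]; ring
    calc (r : ℝ) * (S.a (VV X Z ε l) : ℝ) = (r : ℝ) / 2 * (2 * (S.a (VV X Z ε l) : ℝ)) := by ring
      _ ≤ (r : ℝ) / 2 * (E₂ * L * finrank W.K M') :=
          mul_le_mul_of_nonneg_left h6 (by positivity)
      _ = ((r : ℝ) / 2 * E₂ * L) * finrank W.K M' := by ring
      _ ≤ (1 + (E₁ + (r : ℝ) / 2 * E₂) * L) * finrank W.K M' := by
          refine mul_le_mul_of_nonneg_right ?_ hT0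
          have : 0 ≤ E₁ * L := mul_nonneg hE₁0 hL0
          linarith
  by_cases hnil : ∀ x ∈ S.NOp (PP X k) (PP X k), IsNilpotent x
  · by_cases hbig : Big S X Z (b ^ 2 + 1) l
    · have h1 := case_big hpos hX hl₁ hl1 hε M hM (r := r) (by
        rcases Nat.eq_zero_or_pos r with h | h
        · rw [h] at hr ⊢
          omega
        · obtain ⟨r', rfl⟩ : ∃ r', r = r' + 1 := ⟨r - 1, by omega⟩
          rw [add_mul, one_mul]
          have h2 : (r' + 1 - 1) * S.a (PP X k) = r' * S.a (PP X k) := by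
            rw [Nat.add_sub_cancel]
          omega) hnil hl h0 hbig M' hSM' hM'
      rw [← hb, ← hL] at h1
      push_cast at h1
      refine h1.trans (mul_le_mul_of_nonneg_right ?_ hT0)
      have h2 : (b : ℝ) ^ (2 * k + 2) *
          (((b : ℝ) ^ 2 + 1) * ((k : ℝ) + 2) * (b : ℝ) ^ (2 * (k + 2))) = E₁ := by
        rw [hE₁]
        push_cast
        ring
      rw [h2]
      have : 0 ≤ (r : ℝ) / 2 * (E₂ * L) := mul_nonneg (by positivity) (mul_nonneg hE₂0 hL0)
      linarith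
    · refine hsmall 1 (by norm_num) hd1 ?_
      have h1 : S.a (sq X Z l) * (l + 2) ^ (b ^ 2 + 1) ≤ (b ^ 2) ^ (l + 1) * S.a (Z.prod Z) := by
        rw [Big, ← hb] at hbig
        omega
      have h2 : (S.a (sq X Z l) : ℝ) * ((l : ℝ) + 2) ^ (b ^ 2 + 1) ≤
          ((b : ℝ) ^ 2) ^ (l + 1) * S.a (Z.prod Z) := by exact_mod_cast h1
      rw [one_mul]
      refine le_trans ?_ h2
      rw [pow_succ ((l : ℝ) + 2) (b ^ 2), ← mul_assoc]
      refine mul_le_mul_of_nonneg_left (by linarith) (by positivity)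
  · push Not at hnil
    obtain ⟨x, hx, hn⟩ := hnil
    have hgr := growth_step (a := S.al X) hpos (S.al_convex X) (B := b ^ 2) (j := 2 * k + 2)
      (by omega) (Nat.pow_pos hX) (fun l => by
        have := growth_PP hX hx hn l
        rw [← hb, pow_mul] at this
        exact this)
    set q : ℝ := ((2 * k + 2 : ℕ) : ℝ) * ((b ^ 2 : ℕ) : ℝ) ^ (2 * k + 2) with hq
    have hq0 : 0 < q := by
      have : (0 : ℝ) < b := by linarith
      rw [hq]
      push_cast
      positivity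
    set c : ℝ := ((b ^ 2 : ℕ) : ℝ) * Real.exp (-(1 / q)) with hc
    have hc0 : 0 < c := by
      have : (0 : ℝ) < b := by linarith
      rw [hc]
      push_cast
      positivity
    have h1 := sq_geom S hc0 hgr Z l
    refine hsmall (dst b (k + 1)) (by linarith) le_rfl ?_
    have h2 : c ^ (l + 1) = ((b : ℝ) ^ 2) ^ (l + 1) * Real.exp (-(((l : ℝ) + 1) / q)) := by
      rw [hc, mul_pow, ← Real.exp_nat_mul]
      push_cast
      congr 2
      ring
    have h3 := exp_bound hq0 (b ^ 2 + 1) ((l : ℝ) + 1) (by positivity)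
    have h4 : ((l : ℝ) + 2) ^ (b ^ 2) ≤ 2 ^ (b ^ 2) * ((l : ℝ) + 1) ^ (b ^ 2) := by
      rw [← mul_pow]
      exact pow_le_pow_left₀ (by positivity) (by linarith) _
    have h5 : q = 2 * ((k + 1 : ℕ) : ℝ) * (b : ℝ) ^ (4 * (k + 1)) := by
      rw [hq]
      push_cast
      rw [← pow_mul]
      ring
    have hdst : dst b (k + 1) = 2 ^ (b ^ 2) * ((b ^ 2 + 1).factorial * q ^ (b ^ 2 + 1)) := by
      rw [dst, h5]
    rw [hdst]
    have hN : (0 : ℝ) ≤ S.a (Z.prod Z) := Nat.cast_nonneg _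
    calc (S.a (sq X Z l) : ℝ) * ((l : ℝ) + 2) ^ (b ^ 2) * (l + 1) ≤
        (c ^ (l + 1) * S.a (Z.prod Z)) * (2 ^ (b ^ 2) * ((l : ℝ) + 1) ^ (b ^ 2)) * (l + 1) := by
          refine mul_le_mul_of_nonneg_right ?_ (by positivity)
          exact mul_le_mul h1 h4 (by positivity) (by positivity)
      _ = (2 ^ (b ^ 2) * (((l : ℝ) + 1) ^ (b ^ 2 + 1) * Real.exp (-(((l : ℝ) + 1) / q)))) *
          (((b : ℝ) ^ 2) ^ (l + 1) * S.a (Z.prod Z)) := by
          rw [h2]; ring
      _ ≤ _ := by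
          refine mul_le_mul_of_nonneg_right ?_ (by positivity)
          exact mul_le_mul_of_nonneg_left h3 (by positivity)


/-- **The quantization law with an explicit constant for two systems of classes.** -/
theorem quant_sys {S T : Sys W} (hle : ∀ Z, S.C Z ≤ T.C Z) (hX : 0 < finrank W.K (W.H X)) {m r : ℕ}
    (hm : 1 ≤ m) (hr1 : 1 ≤ r)
    (hlt : (r - 1) * S.a (pw X (2 * m - 1)) < finrank W.K (T.C (pw X (2 * m - 1))))
    (n : ℕ) (Z : 𝒱.Obj) :
    (S.a ((pw X n).prod (Z.prod Z)) : ℝ) ≤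
      (1 / r + cst (finrank W.K (W.H X)) m * lrate n) *
        finrank W.K (T.C ((pw X n).prod (Z.prod Z))) := by
  set b := finrank W.K (W.H X) with hb
  set V := (pw X n).prod (Z.prod Z) with hV
  have hr := lrate_pos n
  have hT0 : (0 : ℝ) ≤ finrank W.K (T.C V) := Nat.cast_nonneg _
  have hc := cst_ge (b := b) (m := m) hX hm
  set E : ℝ := (b : ℝ) ^ (2 * m) * (((b ^ 2 + 1 : ℕ) : ℝ) * (m + 1) * (b : ℝ) ^ (2 * (m + 1))) +
      4 * (b : ℝ) ^ 2 * dst b m with hE
  have hE0 : 0 ≤ E := by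
    have h1 := one_le_dst (b := b) (m := m) hX hm
    have h2 : 0 ≤ dst b m := by linarith
    positivity
  have hzero : S.a V = 0 → (S.a V : ℝ) ≤ (1 / r + cst b m * lrate n) * finrank W.K (T.C V) := by
    intro h1
    rw [h1, Nat.cast_zero]
    have : 0 ≤ cst b m := by linarith
    positivity
  by_cases hZ : ∀ l ∈ S.C X, W.tr X l = 0
  · exact hzero (a_prod_eq_zero S (a_eq_zero_of_tr S hZ) (X := V) (fst _ _ ≫ prj X n 0))
  push Not at hZ
  obtain ⟨l', hl', hl'0⟩ := hZ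
  obtain ⟨z, hz, hz1⟩ : ∃ l ∈ S.C X, W.tr X l = 1 :=
    ⟨(W.tr X l')⁻¹ • l', Submodule.smul_mem _ _ hl', by
      rw [map_smul, smul_eq_mul, inv_mul_cancel₀ hl'0]⟩
  have hpos : ∀ n, 0 < S.al X n := by
    intro n
    obtain ⟨m, hm, hm1⟩ := S.exists_lam hz hz1 n
    refine S.a_pos (Sys.xp_mem_C S hm hm) ?_
    rw [tr_xp, hm1, mul_one]
  rcases Nat.eq_zero_or_pos (S.a (Z.prod Z)) with h0 | h0
  · exact hzero (a_prod_eq_zero S h0 (X := V) (snd _ _))
  rcases Nat.lt_or_ge r 2 with hr2 | hr2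
  · -- the trivial case
    obtain rfl : r = 1 := by omega
    have h1 : (S.a V : ℝ) ≤ finrank W.K (T.C V) := by
      exact_mod_cast (a_le_C S _).trans (Submodule.finrank_mono (hle _))
    have h3 : (1 : ℝ) ≤ 1 / ((1 : ℕ) : ℝ) + cst b m * lrate n := by
      have : 0 ≤ cst b m * lrate n := mul_nonneg (by linarith) hr.le
      rw [Nat.cast_one, div_one]
      linarith
    calc (S.a V : ℝ) ≤ finrank W.K (T.C V) := h1
      _ ≤ _ := le_mul_of_one_le_left hT0 h3
  rcases le_or_gt n 5 with hn | hn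
  · -- small exponents
    have h1 : (S.a V : ℝ) ≤ finrank W.K (T.C V) := by
      exact_mod_cast (a_le_C S _).trans (Submodule.finrank_mono (hle _))
    have h2 : (0.1 : ℝ) ≤ lrate n := by
      have h3 := log_ge n
      have h4 := Real.log_two_gt_d9
      have h5 : (n : ℝ) ≤ 5 := by exact_mod_cast hn
      rw [lrate, le_div_iff₀ (by positivity)]
      nlinarith
    have h3 : (1 : ℝ) ≤ 1 / r + cst b m * lrate n := by
      have h4 : (10 : ℝ) ≤ cst b m := by
        have e1 := one_le_dst (b := b) (m := m) hX hm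
        have e2 : (1 : ℝ) ≤ (b : ℝ) ^ 2 := one_le_pow₀ (by exact_mod_cast hX)
        have e3 : (4 : ℝ) ≤ 4 * (b : ℝ) ^ 2 * dst b m := by nlinarith
        have e4 : (0 : ℝ) ≤ (b : ℝ) ^ (2 * m) * (((b ^ 2 + 1 : ℕ) : ℝ) * (m + 1) *
          (b : ℝ) ^ (2 * (m + 1))) := by positivity
        linarith
      have h5 : (0 : ℝ) ≤ 1 / r := by positivity
      nlinarith
    calc (S.a V : ℝ) ≤ finrank W.K (T.C V) := h1
      _ ≤ _ := le_mul_of_one_le_left hT0 h3
  · obtain ⟨l, ε, hε, hnl⟩ : ∃ l ε, ε ≤ 1 ∧ n = 2 * l + 2 + ε :=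
      ⟨(n - 2) / 2, (n - 2) % 2, by omega, by omega⟩
    have hl1 : 1 ≤ l := by omega
    obtain ⟨k, rfl⟩ : ∃ k, m = k + 1 := ⟨m - 1, by omega⟩
    -- the isomorphisms
    have hcV : cl (VV X Z ε l) = cl V := by
      rw [hV, hnl]
      simp only [cl_prod, cl_sq, cl_pw]
      have e1 : 2 * l + 2 + ε = ε + (l + l + 1) + 1 := by ring
      rw [e1, ← pwc_add (cl X) ε (l + l + 1)]
      ac_rfl
    have hcP : cl (PP X k) = cl (pw X (2 * (k + 1) - 1)) := by
      have e1 : 2 * (k + 1) - 1 = k + k + 1 := by omega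
      rw [e1]
      simp only [cl_prod, cl_pw, pwc_add]
    have h1 := quant_at (S := S) (Z := Z) (r := r) hpos hX hz hz1 hε (T.C (PP X k))
      (fun a ha x hx => Sys.Op.apply hle ha hx)
      (by rw [a_cl S hcP, C_cl T hcP]; exact hlt) hl1 h0 (T.C (VV X Z ε l)) (hle _)
      (fun a ha x hx => Sys.Op.apply hle ha hx)
    rw [a_cl S hcV, C_cl T hcV, ← hb] at h1
    push_cast at h1 hE
    have h2 : Real.log ((l : ℝ) + 2) / l ≤ 8 * lrate n := by
      have hl0 : (0 : ℝ) < l := by exact_mod_cast hl1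
      have h1 : (0 : ℝ) < (n : ℝ) + 1 := by positivity
      have h2 : (n : ℝ) + 1 ≤ 8 * l := by
        have : n + 1 ≤ 8 * l := by omega
        exact_mod_cast this
      have h3 : Real.log ((l : ℝ) + 2) ≤ Real.log ((n : ℝ) + 2) := by
        apply Real.log_le_log (by positivity)
        have : (l : ℝ) ≤ n := by exact_mod_cast (by omega : l ≤ n)
        linarith
      have h4 := log_pos' n
      rw [lrate, mul_div_assoc', div_le_div_iff₀ hl0 h1]
      calc Real.log ((l : ℝ) + 2) * ((n : ℝ) + 1) ≤ Real.log ((n : ℝ) + 2) * ((n : ℝ) + 1) :=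
            mul_le_mul_of_nonneg_right h3 h1.le
        _ ≤ Real.log ((n : ℝ) + 2) * (8 * l) := mul_le_mul_of_nonneg_left h2 h4.le
        _ = _ := by ring
    have h3 : (r : ℝ) * (S.a V : ℝ) ≤
        (1 + ((r : ℝ) / 2 * E) * (Real.log ((l : ℝ) + 2) / l)) * finrank W.K (T.C V) := by
      refine h1.trans (mul_le_mul_of_nonneg_right ?_ hT0)
      have hr2' : (1 : ℝ) ≤ (r : ℝ) / 2 := by
        have : (2 : ℝ) ≤ r := by exact_mod_cast hr2
        linarith
      have hE1 : (0 : ℝ) ≤ (b : ℝ) ^ (2 * (k + 1)) * (((b : ℝ) ^ 2 + 1) * ((k : ℝ) + 1 + 1) *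
          (b : ℝ) ^ (2 * (k + 1 + 1))) := by positivity
      have hLL : 0 ≤ Real.log ((l : ℝ) + 2) / l := by
        have := log_pos' l
        positivity
      have h7 := mul_le_mul_of_nonneg_right hr2' hE1
      rw [one_mul] at h7
      rw [hE]
      have h8 := mul_le_mul_of_nonneg_right h7 hLL
      nlinarith [h8]
    have h4 : ((r : ℝ) / 2 * E) * (Real.log ((l : ℝ) + 2) / l) ≤
        ((r : ℝ) / 2 * E) * (8 * lrate n) :=
      mul_le_mul_of_nonneg_left h2 (by positivity)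
    have h5 : 4 * E * lrate n ≤ cst b (k + 1) * lrate n :=
      mul_le_mul_of_nonneg_right (by linarith) hr.le
    have hr0 : (0 : ℝ) < r := by exact_mod_cast hr1
    have h5' := mul_le_mul_of_nonneg_left h5 hr0.le
    have h6 : (r : ℝ) * (S.a V : ℝ) ≤
        (r : ℝ) * ((1 / r + cst b (k + 1) * lrate n) * finrank W.K (T.C V)) := by
      have h9 : (r : ℝ) * ((1 / r + cst b (k + 1) * lrate n) * finrank W.K (T.C V)) =
          (1 + (r : ℝ) * (cst b (k + 1) * lrate n)) * finrank W.K (T.C V) := by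
        field_simp
      rw [h9]
      refine h3.trans (mul_le_mul_of_nonneg_right ?_ hT0)
      linarith
    exact le_of_mul_le_mul_left h6 hr0

end Pool.Agent.E8helper24.HP
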