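import Pool.Agent.E8helper24.INF.Uni2

/-!
# The half law with an explicit constant: flatness for one exponent
-/

open CategoryTheory AlgebraicGeometry

universe u v

set_option linter.unusedSectionVars false

namespace Pool.Agent.E8helper24.HP

open Module
open Pool.Agent.H914 Pool.Agent.H914.VarClass Pool.Agent.H914.VarClass.Obj
  Pool.Agent.H914.WeilCohomology Pool.Agent.Y133.Half
open Pool.Agent.E8helper24.INF

/-! ### Flatness with an error term -/

lemma flat_at {N : ℕ → ℕ} {B κ N₀ : ℕ} (hN₀ : 0 < N₀) (hB : 1 ≤ B) (hpos : ∀ l, 0 < N l)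
    (hconv : ∀ l, N (l + 1) ^ 2 ≤ N (l + 2) * N l) (h0 : N 0 ≤ B * N₀) {l : ℕ}
    (hlow : B ^ (l + 1) * N₀ ≤ N l * (l + 2) ^ κ) (j : ℕ) (hl : 1 ≤ l) :
    (1 - κ * j * (Real.log ((l : ℝ) + 2) / l)) * ((B : ℝ) ^ j * N l) ≤ N (l + j) := by
  have hp : ∀ i, (0 : ℝ) < N i := fun i => by exact_mod_cast hpos i
  set r : ℝ := N (l + 1) / N l with hr
  have hr0 : 0 ≤ r := by positivity
  have hrl : r * N l ≤ N (l + 1) := by rw [hr, div_mul_cancel₀ _ (hp l).ne']
  have h1 : ∀ i, i ≤ l → (N (i + 1) : ℝ) ≤ r * N i := by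
    intro i hi
    have h2 : (N (i + 1) / N i : ℝ) * N i ≤ N (i + 1) := by rw [div_mul_cancel₀ _ (hp i).ne']
    have h3 := ratio_mono hpos hconv h2 hi
    have h4 : (N (i + 1) / N i : ℝ) ≤ r := by
      rw [hr, le_div_iff₀ (hp l)]
      exact h3
    calc (N (i + 1) : ℝ) = (N (i + 1) / N i : ℝ) * N i := by rw [div_mul_cancel₀ _ (hp i).ne']
      _ ≤ r * N i := mul_le_mul_of_nonneg_right h4 (hp i).le
  have h2 : ∀ i, i ≤ l → (N i : ℝ) ≤ r ^ i * N 0 := by
    intro i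
    induction i with
    | zero => intro _; simp
    | succ i ih =>
      intro hi
      calc (N (i + 1) : ℝ) ≤ r * N i := h1 i (by omega)
        _ ≤ r * (r ^ i * N 0) := mul_le_mul_of_nonneg_left (ih (by omega)) hr0
        _ = _ := by ring
  have h3 : r ^ j * N l ≤ N (l + j) :=
    ratio_pow hr0 (l₀ := l) (fun i hi => ratio_mono (n := i) hpos hconv hrl hi) j l le_rfl
  have hN₀' : (0 : ℝ) < N₀ := by exact_mod_cast hN₀
  have hB' : (0 : ℝ) < B := by exact_mod_cast hB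
  have h4 : (B : ℝ) ^ l ≤ r ^ l * ((l : ℝ) + 2) ^ κ := by
    have e1 : (B : ℝ) ^ (l + 1) * N₀ ≤ N l * ((l : ℝ) + 2) ^ κ := by exact_mod_cast hlow
    have e3 : (N 0 : ℝ) ≤ B * N₀ := by exact_mod_cast h0
    have e4 : (0 : ℝ) ≤ ((l : ℝ) + 2) ^ κ := by positivity
    have e5 : (N₀ * B : ℝ) * (B : ℝ) ^ l ≤ (N₀ * B : ℝ) * (r ^ l * ((l : ℝ) + 2) ^ κ) := by
      calc (N₀ * B : ℝ) * (B : ℝ) ^ l = (B : ℝ) ^ (l + 1) * N₀ := by ring
        _ ≤ N l * ((l : ℝ) + 2) ^ κ := e1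
        _ ≤ (r ^ l * N 0) * ((l : ℝ) + 2) ^ κ :=
            mul_le_mul_of_nonneg_right (h2 l le_rfl) e4
        _ ≤ (r ^ l * (B * N₀)) * ((l : ℝ) + 2) ^ κ :=
            mul_le_mul_of_nonneg_right (mul_le_mul_of_nonneg_left e3 (by positivity)) e4
        _ = _ := by ring
    exact le_of_mul_le_mul_left e5 (by positivity)
  have hl0 : (0 : ℝ) < l := by exact_mod_cast hl
  set L := Real.log ((l : ℝ) + 2) with hL
  have h5 : (B : ℝ) * Real.exp (-(κ * L / l)) ≤ r := by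
    have e1 : ((B : ℝ) * Real.exp (-(κ * L / l))) ^ l ≤ r ^ l := by
      have e2 : Real.exp (-(κ * L / l)) ^ l = (((l : ℝ) + 2) ^ κ)⁻¹ := by
        rw [← Real.exp_nat_mul, ← Real.exp_log (show (0 : ℝ) < (((l : ℝ) + 2) ^ κ)⁻¹ by
          positivity), Real.log_inv, Real.log_pow, ← hL]
        congr 1
        field_simp
      rw [mul_pow, e2, ← div_eq_mul_inv, div_le_iff₀ (by positivity)]
      exact h4
    exact (pow_le_pow_iff_left₀ (by positivity) hr0 (by omega)).1 e1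
  have h6 : (B : ℝ) ^ j * (1 - κ * j * (L / l)) ≤ r ^ j := by
    have e1 : (1 : ℝ) - κ * j * (L / l) ≤ Real.exp (-(κ * L / l)) ^ j := by
      rw [← Real.exp_nat_mul]
      have := Real.add_one_le_exp ((j : ℝ) * (-(κ * L / l)))
      have e2 : (j : ℝ) * (-(κ * L / l)) + 1 = 1 - κ * j * (L / l) := by ring
      rw [e2] at this
      exact this
    calc (B : ℝ) ^ j * (1 - κ * j * (L / l)) ≤ (B : ℝ) ^ j * Real.exp (-(κ * L / l)) ^ j :=
          mul_le_mul_of_nonneg_left e1 (by positivity)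
      _ = ((B : ℝ) * Real.exp (-(κ * L / l))) ^ j := (mul_pow _ _ _).symm
      _ ≤ r ^ j := pow_le_pow_left₀ (by positivity) h5 j
  calc (1 - κ * j * (L / l)) * ((B : ℝ) ^ j * N l) =
      ((B : ℝ) ^ j * (1 - κ * j * (L / l))) * N l := by ring
    _ ≤ r ^ j * N l := mul_le_mul_of_nonneg_right h6 (hp l).le
    _ ≤ N (l + j) := h3

variable {k : Type u} [Field k] {𝒱 : VarClass k} {ops : CycleOps 𝒱}
  {W : WeilCohomology.{u, v} ops} {X Y Z P Q U : 𝒱.Obj}

/-- The condition on the growth at one exponent. -/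
def Big (S : Sys W) (X Z : 𝒱.Obj) (κ l : ℕ) : Prop :=
  (finrank W.K (W.H X) ^ 2) ^ (l + 1) * S.a (Z.prod Z) ≤ S.a (sq X Z l) * (l + 2) ^ κ

lemma flat_even_at (S : Sys W) (hpos : ∀ l, 0 < S.al X l) (hX : 0 < finrank W.K (W.H X))
    {Z : 𝒱.Obj} (h0 : 0 < S.a (Z.prod Z)) {κ l : ℕ} (hl : 1 ≤ l) (hbig : Big S X Z κ l)
    {e j : ℕ} (he : e + 1 = 2 * j) :
    ((finrank W.K (W.H X) : ℝ) ^ (e + 1) -
        (κ * j * (finrank W.K (W.H X) : ℝ) ^ (2 * j)) * (Real.log ((l : ℝ) + 2) / l)) *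
      S.a (sq X Z l) ≤ S.a ((pw X e).prod (sq X Z l)) := by
  have h := flat_at (N := fun l => S.a (sq X Z l)) (N₀ := S.a (Z.prod Z)) h0
    (Nat.pow_pos hX) (fun l => lt_of_lt_of_le (Nat.mul_pos h0 (hpos l)) (sq_ge S X Z l))
    (sq_convex S X Z) (sq_zero_le S X Z) hbig j hl
  have h2 : S.a ((pw X e).prod (sq X Z l)) = S.a (sq X Z (l + j)) := by
    apply a_cl
    rw [cl_prod, cl_pw]
    exact cl_pw_sq X Z e l j he
  rw [h2]
  refine le_trans (le_of_eq ?_) h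
  push_cast
  rw [he, pow_mul]
  ring

theorem flat_all_at (S : Sys W) (hpos : ∀ l, 0 < S.al X l) (hX : 0 < finrank W.K (W.H X))
    {l₁ : W.H X} (hl₁ : l₁ ∈ S.C X) (hl1 : W.tr X l₁ = 1)
    {Z : 𝒱.Obj} (h0 : 0 < S.a (Z.prod Z)) {κ l : ℕ} (hl : 1 ≤ l) (hbig : Big S X Z κ l)
    {e j : ℕ} (he : e + 1 ≤ 2 * j) (he' : 2 * j ≤ e + 2) :
    ((finrank W.K (W.H X) : ℝ) ^ (e + 1) -
        (κ * j * (finrank W.K (W.H X) : ℝ) ^ (2 * j)) * (Real.log ((l : ℝ) + 2) / l)) *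
      S.a (sq X Z l) ≤ S.a ((pw X e).prod (sq X Z l)) := by
  rcases Nat.lt_or_ge (e + 1) (2 * j) with hj | hj
  swap
  · exact flat_even_at S hpos hX h0 hl hbig (by omega)
  · have h1 := flat_even_at S hpos hX h0 hl hbig (e := e + 1) (j := j) (by omega)
    set b := finrank W.K (W.H X) with hb
    have h2 := r_lower' S (P := X) (P₀ := pw X e) (unitOp_mem S hl₁) (unitOp_idem hl1)
      (Z.prod (pw X l))
    change S.a ((X.prod (pw X e)).prod (sq X Z l)) + _ * S.a (sq X Z l) ≤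
      S.r X (unitOp W l₁) ((pw X e).prod (sq X Z l)) + _ * S.a (sq X Z l) at h2
    have h3 := r_unit_le S hl₁ ((pw X e).prod (sq X Z l))
    have h4 : S.a ((X.prod (pw X e)).prod (sq X Z l)) = S.a ((pw X (e + 1)).prod (sq X Z l)) := by
      apply a_cl
      simp only [cl_prod, cl_pw]
      change _ = (pwc (cl X) e * cl X) * _
      ac_rfl
    have h5 : 1 ≤ finrank W.K (LinearMap.range (unitOp W l₁)) :=
      Sys.finrank_range_pos (unitOp_ne hl1)
    rw [h4, finrank_pw] at h2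
    have h6 : (S.a ((pw X (e + 1)).prod (sq X Z l)) : ℝ) + (b : ℝ) ^ (e + 1) * S.a (sq X Z l) ≤
        S.a ((pw X e).prod (sq X Z l)) + (b : ℝ) * (b : ℝ) ^ (e + 1) * S.a (sq X Z l) := by
      have h7 : S.a ((pw X (e + 1)).prod (sq X Z l)) + b ^ (e + 1) * S.a (sq X Z l) ≤
          S.a ((pw X e).prod (sq X Z l)) + b * b ^ (e + 1) * S.a (sq X Z l) := by
        calc S.a ((pw X (e + 1)).prod (sq X Z l)) + b ^ (e + 1) * S.a (sq X Z l) ≤
            S.a ((pw X (e + 1)).prod (sq X Z l)) +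
              finrank W.K (LinearMap.range (unitOp W l₁)) * b ^ (e + 1) * S.a (sq X Z l) := by
              refine Nat.add_le_add_left (Nat.mul_le_mul_right _ ?_) _
              exact Nat.le_mul_of_pos_left _ h5
          _ ≤ S.r X (unitOp W l₁) ((pw X e).prod (sq X Z l)) +
              b * b ^ (e + 1) * S.a (sq X Z l) := h2
          _ ≤ _ := Nat.add_le_add_right h3 _
      exact_mod_cast h7
    have h8 : (b : ℝ) ^ (e + 1 + 1) = b * (b : ℝ) ^ (e + 1) := by ring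
    rw [h8] at h1
    nlinarith

/-! ### Chains with weights -/

theorem wcount' (S : Sys W) (P Z : 𝒱.Obj) (M : Submodule W.K (W.H P))
    (M' : Submodule W.K (W.H Z)) (hM : ∀ a ∈ S.Op P P, ∀ m ∈ M, a m ∈ M)
    (hM' : ∀ a ∈ S.Op P Z, ∀ m ∈ M, a m ∈ M')
    (hnil : ∀ x ∈ S.NOp P P, IsNilpotent x) :
    ∃ G : List (Module.End W.K (W.H P)), (∀ g ∈ G, g ∈ S.Op P P ∧ g ∘ₗ g = g) ∧
      G.length ≤ finrank W.K M ∧
      finrank W.K M ≤ (G.map fun g => S.r P g P).sum ∧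
      (G.map fun g => S.r P g Z).sum ≤ finrank W.K M' := by
  let X : Fin 2 → 𝒱.Obj := ![P, Z]
  have hnil' : ∀ x ∈ S.Op P P, (∀ y ∈ S.Op P P,
      LinearMap.trace W.K (W.H P) (par (W.isInternal P) ∘ₗ x ∘ₗ y) = 0) → IsNilpotent x := by
    intro x hx h
    obtain ⟨c, hc, rfl⟩ := Sys.mem_Op.1 hx
    apply hnil
    refine Sys.NOp.corr ⟨hc, fun d hd => ?_⟩
    have h1 := h (W.corr (W.map (swap P P) d)) (Sys.Op.corr (S.map _ hd))
    rw [trace_corr_corr, swap_swap] at h1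
    exact h1
  obtain ⟨G, hG1, hG2, hG3, hG4⟩ := wchain (S.cat X) 0 hnil' _ M
    (fun a ha m hm => hM a ha m hm) rfl
  refine ⟨G, hG1, hG2, ?_, ?_⟩
  · have h1 : (G.map fun g => S.r P g P).sum =
        (G.map fun g => rk (A := (S.cat X).S 0 0) (B := (S.cat X).S 0 0)
          ((S.cat X).B 0 0 g LinearMap.id)).sum := by
      congr 1
      apply List.map_congr_left
      intro g hg
      exact (S.rk_BO_r (P := P) (Z := P) (g := g) (Sys.Op.ev (S := S) (hG1 g hg).1)).symm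
    rw [h1]
    exact hG3
  · have h1 : (G.map fun g => S.r P g Z).sum =
        (G.map fun g => rk (A := (S.cat X).S 0 1) (B := (S.cat X).S 1 0)
          ((S.cat X).B 0 1 g LinearMap.id)).sum := by
      congr 1
      apply List.map_congr_left
      intro g hg
      exact (S.rk_BO_r (P := P) (Z := Z) (g := g) (Sys.Op.ev (S := S) (hG1 g hg).1)).symm
    rw [h1]
    refine (hG4 1).trans ?_
    have h3 : (S.cat X).gen 0 1 M ≤ (M' : Submodule W.K (W.H Z)) := by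
      refine Submodule.span_le.2 ?_
      rintro _ ⟨v, hv, m, hm, rfl⟩
      exact hM' v hv m hm
    exact Submodule.finrank_mono (R := W.K) (M := W.H Z) h3

end Pool.Agent.E8helper24.HP
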