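import Pool.Agent.E8helper24.HP.Flat
import Pool.Agent.E8helper24.INF.Fin

/-!
# The infection law with an explicit constant
-/

open CategoryTheory AlgebraicGeometry

universe u v

set_option linter.unusedSectionVars false

namespace Pool.Agent.E8helper24.HP

open Module
open Pool.Agent.H914 Pool.Agent.H914.VarClass Pool.Agent.H914.VarClass.Obj
  Pool.Agent.H914.WeilCohomology Pool.Agent.Y133.Half
open Pool.Agent.E8helper24.INF

variable {k : Type u} [Field k] {𝒱 : VarClass k} {ops : CycleOps 𝒱}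
  {W : WeilCohomology.{u, v} ops} {X Y Z P Q U : 𝒱.Obj}

lemma finrank_UU (X : 𝒱.Obj) (q m : ℕ) :
    finrank W.K (W.H (pw ((pw X q).prod (pw X q)) m)) =
      (finrank W.K (W.H X) ^ 2) ^ ((q + 1) * (m + 1)) := by
  rw [finrank_pw, Pool.Agent.Y133.Half.finrank_prod, finrank_pw, ← pow_add, ← pow_mul, ← pow_mul]
  congr 1
  ring

lemma cl_UU (X : 𝒱.Obj) (q m : ℕ) :
    cl (pw ((pw X q).prod (pw X q)) m) = pwc (cl X) ((q + q + 1) * m + (q + q + 1) + m) := by
  rw [cl_pw, cl_prod, cl_pw, pwc_add, pwc_pwc]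

lemma cl_UU_sq (X Z : 𝒱.Obj) (q m l : ℕ) :
    cl ((pw ((pw X q).prod (pw X q)) m).prod (sq X Z l)) =
      cl (sq X Z (l + (q + 1) * (m + 1))) := by
  rw [cl_prod, cl_UU]
  apply cl_pw_sq
  ring

lemma log_small {κ j l : ℕ} (hl : 1 ≤ l) (hj : (l + 2) ^ (κ * j) ≤ 2 ^ l) :
    (1 / 4 : ℝ) ≤ 1 - κ * j * (Real.log ((l : ℝ) + 2) / l) := by
  have hl0 : (0 : ℝ) < l := by exact_mod_cast hl
  have h1 : (((l : ℝ) + 2) ^ (κ * j)) ≤ 2 ^ l := by exact_mod_cast hj
  have h2 := Real.log_le_log (by positivity) h1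
  rw [Real.log_pow, Real.log_pow] at h2
  push_cast at h2
  have h3 := Real.log_two_lt_d9
  have h4 : (κ : ℝ) * j * (Real.log ((l : ℝ) + 2) / l) ≤ 3 / 4 := by
    rw [mul_div_assoc', div_le_iff₀ hl0]
    nlinarith
  linarith

/-- **The main inequality** for one exponent. -/
theorem master_at (S : Sys W) (hpos : ∀ l, 0 < S.al X l)
    (hX : 0 < finrank W.K (W.H X)) {q : ℕ} {z : W.H (pw X q)} (hz : z ∈ S.Num (pw X q))
    (hz0 : z ≠ 0) {l₁ : W.H (pw X q)} (hl1 : W.tr (pw X q) l₁ = 1)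
    (m : ℕ) {κ l : ℕ} (hl : 1 ≤ l) (hj : (l + 2) ^ (κ * ((q + 1) * (m + 1))) ≤ 2 ^ l)
    (Y Z : 𝒱.Obj) (h0 : 0 < S.a (Z.prod Z)) (hbig : Big S X Z κ l) (hY : 0 < S.a Y) :
    (S.a ((pw ((pw X q).prod (pw X q)) m).prod (Y.prod (sq X Z l))) : ℝ) ≤
      32 * finrank W.K (W.H Y) *
        √(finrank W.K (W.H X) ^ (2 * (q + 1)) / (2 * (m + 2))) *
          finrank W.K (S.C ((pw ((pw X q).prod (pw X q)) m).prod (Y.prod (sq X Z l)))) := by
  set b := finrank W.K (W.H X) with hb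
  set U := (pw X q).prod (pw X q) with hU
  set P := pw U m with hP
  set A := P.prod (Y.prod (sq X Z l)) with hA
  have hβ : finrank W.K (W.H U) = b ^ (2 * (q + 1)) := by
    rw [hU, Pool.Agent.Y133.Half.finrank_prod, finrank_pw, ← pow_add]
    congr 1
    ring
  set β := b ^ (2 * (q + 1)) with hβ'
  have hβ0 : 0 < β := Nat.pow_pos hX
  -- the class on `U`
  have h1q : (1 : W.H (pw X q)) ≠ 0 := one_ne_zero_of hz0
  set zU : W.H U := xp W z 1 with hzU
  have hzUn : zU ∈ S.Num U := Sys.Num.mul (Sys.Num.map _ hz) (S.map _ (S.one _))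
  have hzU0 : zU ≠ 0 := fun h => hz0 (xp_eq_zero_right h1q h)
  have htrz : W.tr U zU = 0 := by
    have h := hzUn.2 1 (S.one U)
    rwa [mul_one] at h
  have htrl : W.tr U (xp W l₁ l₁) = 1 := by
    rw [tr_xp, hl1, mul_one]
  set u : Module.End W.K (W.H P) := lft W ((W.tr U).smulRight zU) m with hu
  have huN : u ∈ S.NOp P P := lft_mem S (smulRight_mem S hzUn) m
  set s : ℝ := √((β : ℝ) / (2 * (m + 2))) with hs
  have hs0 : 0 < s := Real.sqrt_pos.2 (by positivity)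
  have hs2 : s ^ 2 = (β : ℝ) / (2 * (m + 2)) := Real.sq_sqrt (by positivity)
  have hker : ∀ i : ℕ, (finrank W.K (LinearMap.ker (u ^ i)) : ℝ) ≤
      (2 * (i : ℝ) + 1) * (s * (β : ℝ) ^ (m + 1)) := by
    intro i
    have h1 := ker_lft (W.tr U) (xp W l₁ l₁) zU htrl htrz hzU0 m i
    rw [hβ] at h1
    have h2 : (finrank W.K (LinearMap.ker (u ^ i)) : ℝ) ^ 2 * (2 * (m + 2)) ≤
        (2 * (i : ℝ) + 1) ^ 2 * (β : ℝ) ^ (2 * (m + 1) + 1) := by exact_mod_cast h1
    have h3 : (finrank W.K (LinearMap.ker (u ^ i)) : ℝ) ^ 2 ≤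
        ((2 * (i : ℝ) + 1) * (s * (β : ℝ) ^ (m + 1))) ^ 2 := by
      have h4 : ((2 * (i : ℝ) + 1) * (s * (β : ℝ) ^ (m + 1))) ^ 2 =
          ((2 * (i : ℝ) + 1) ^ 2 * (β : ℝ) ^ (2 * (m + 1) + 1)) / (2 * (m + 2)) := by
        rw [mul_pow, mul_pow, hs2, ← pow_mul]
        ring
      rw [h4, le_div_iff₀ (by positivity)]
      exact h2
    exact (pow_le_pow_iff_left₀ (by positivity) (by positivity) two_ne_zero).1 h3
  have hsum : ∀ I : ℕ, ((∑ n ∈ Finset.range I, finrank W.K (LinearMap.ker (u ^ n)) : ℕ) : ℝ) ≤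
      (I : ℝ) ^ 2 * (s * (β : ℝ) ^ (m + 1)) := by
    intro I
    rw [Nat.cast_sum, ← sum_odd, Finset.sum_mul]
    exact Finset.sum_le_sum fun i _ => hker i
  -- flatness
  have hcl : cl (P.prod (sq X Z l)) = cl (sq X Z (l + (q + 1) * (m + 1))) := cl_UU_sq X Z q m l
  have hflat : (β : ℝ) ^ (m + 1) * S.a (sq X Z l) ≤ 4 * S.a (P.prod (sq X Z l)) := by
    have h1 := flat_at (N := fun l => S.a (sq X Z l)) (N₀ := S.a (Z.prod Z)) h0
      (Nat.pow_pos hX) (fun l => lt_of_lt_of_le (Nat.mul_pos h0 (hpos l)) (sq_ge S X Z l))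
      (sq_convex S X Z) (sq_zero_le S X Z) hbig ((q + 1) * (m + 1)) hl
    have h2 := log_small hl hj
    rw [← a_cl S hcl] at h1
    have h3 : (((b ^ 2 : ℕ) : ℝ) ^ ((q + 1) * (m + 1))) = (β : ℝ) ^ (m + 1) := by
      rw [hβ']
      push_cast
      rw [← pow_mul, ← pow_mul]
      congr 1
      ring
    rw [h3] at h1
    have h4 : (0 : ℝ) ≤ (β : ℝ) ^ (m + 1) * S.a (sq X Z l) := by positivity
    have h5 := mul_le_mul_of_nonneg_right h2 h4
    push_cast at h1 h5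
    linarith
  have hYA : S.a (P.prod (sq X Z l)) ≤ S.a A := by
    have h1 := a_prod_ge S Y (P.prod (sq X Z l))
    have h2 : S.a (Y.prod (P.prod (sq X Z l))) = S.a A := by
      apply a_cl
      rw [hA]
      simp only [cl_prod]
      ac_rfl
    rw [h2] at h1
    exact le_trans (Nat.le_mul_of_pos_left _ hY) h1
  have hYA' : (S.a (P.prod (sq X Z l)) : ℝ) ≤ S.a A := by exact_mod_cast hYA
  -- the count
  have hb1 : (1 : ℝ) ≤ finrank W.K (W.H Y) := by
    have := a_le_H S Y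
    exact_mod_cast (by omega : 1 ≤ finrank W.K (W.H Y))
  have hfin := choose_steps (a := S.a A) (d := finrank W.K (S.C A)) (s := s)
    (b := 2 * finrank W.K (W.H Y)) (Nat.cast_nonneg _) hs0 (by linarith)
    (by exact_mod_cast a_le_C S A) (by
      intro I
      have h1 := count_le S P Y (Z.prod (pw X l)) huN I
      change I * S.a A ≤ finrank W.K (S.C A) +
        (∑ n ∈ Finset.range I, finrank W.K (LinearMap.ker (u ^ n))) * finrank W.K (W.H Y) *
          S.a (sq X Z l) at h1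
      have h2 : (I : ℝ) * S.a A ≤ finrank W.K (S.C A) +
        ((∑ n ∈ Finset.range I, finrank W.K (LinearMap.ker (u ^ n)) : ℕ) : ℝ) *
          finrank W.K (W.H Y) * S.a (sq X Z l) := by exact_mod_cast h1
      refine h2.trans (add_le_add_right ?_ _)
      have hYn : (0 : ℝ) ≤ finrank W.K (W.H Y) := Nat.cast_nonneg _
      calc ((∑ n ∈ Finset.range I, finrank W.K (LinearMap.ker (u ^ n)) : ℕ) : ℝ) *
          finrank W.K (W.H Y) * S.a (sq X Z l) ≤
          ((I : ℝ) ^ 2 * (s * (β : ℝ) ^ (m + 1))) * finrank W.K (W.H Y) * S.a (sq X Z l) := by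
            refine mul_le_mul_of_nonneg_right ?_ (Nat.cast_nonneg _)
            exact mul_le_mul_of_nonneg_right (hsum I) hYn
        _ = ((I : ℝ) ^ 2 * s * finrank W.K (W.H Y)) * ((β : ℝ) ^ (m + 1) * S.a (sq X Z l)) := by
            ring
        _ ≤ ((I : ℝ) ^ 2 * s * finrank W.K (W.H Y)) * (4 * S.a A) := by
            refine mul_le_mul_of_nonneg_left (hflat.trans ?_) (by positivity)
            linarith
        _ = _ := by ring)
  have hcast : (b : ℝ) ^ (2 * (q + 1)) = (β : ℝ) := by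
    rw [hβ']
    push_cast
    rfl
  rw [hcast, ← hs]
  refine hfin.trans (le_of_eq ?_)
  ring

/-- The bound if the ranks do not grow fast. -/
theorem small_at (S : Sys W) {q m l : ℕ} (Y Z : 𝒱.Obj)
    (hbig : ¬ Big S X Z (finrank W.K (W.H X) ^ 2 + 1) l) (hjl : (q + 1) * (m + 1) ≤ l)
    (hY : 0 < S.a Y) :
    (S.a ((pw ((pw X q).prod (pw X q)) m).prod (Y.prod (sq X Z l))) : ℝ) * (l + 2) ≤
      finrank W.K (W.H Y) * 2 ^ (finrank W.K (W.H X) ^ 2) *
          finrank W.K (S.C ((pw ((pw X q).prod (pw X q)) m).prod (Y.prod (sq X Z l)))) := by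
  set b := finrank W.K (W.H X) with hb
  set P := pw ((pw X q).prod (pw X q)) m with hP
  set j := (q + 1) * (m + 1) with hj
  have h1 : S.a (P.prod (Y.prod (sq X Z l))) ≤
      (b ^ 2) ^ j * finrank W.K (W.H Y) * S.a (sq X Z l) := by
    have e1 := S.a_le (P.prod Y) (Z.prod (pw X l))
    change S.a ((P.prod Y).prod (sq X Z l)) ≤ _ * S.a (sq X Z l) at e1
    have e2 : S.a ((P.prod Y).prod (sq X Z l)) = S.a (P.prod (Y.prod (sq X Z l))) := by
      apply a_cl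
      simp only [cl_prod]
      ac_rfl
    rw [e2, Pool.Agent.Y133.Half.finrank_prod, hP, finrank_UU, ← hP, ← hb, ← hj] at e1
    exact e1
  have h3 := C_ge S X Y Z (l + j) hY
  rw [← hb] at h3
  have hclC : cl (Y.prod (sq X Z (l + j))) = cl (P.prod (Y.prod (sq X Z l))) := by
    rw [cl_prod, ← cl_UU_sq X Z q m l]
    simp only [cl_prod, ← hP]
    ac_rfl
  rw [C_cl S hclC] at h3
  rw [Big, not_le, ← hb] at hbig
  have h1' : (S.a (P.prod (Y.prod (sq X Z l))) : ℝ) ≤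
      ((b : ℝ) ^ 2) ^ j * finrank W.K (W.H Y) * S.a (sq X Z l) := by exact_mod_cast h1
  have h3' : (S.a (Z.prod Z) : ℝ) * ((b : ℝ) ^ 2) ^ (l + j + 1) ≤
      finrank W.K (S.C (P.prod (Y.prod (sq X Z l)))) * ((l : ℝ) + j + 2) ^ (b ^ 2) := by
    exact_mod_cast h3
  have h4 : (S.a (sq X Z l) : ℝ) * ((l : ℝ) + 2) ^ (b ^ 2 + 1) ≤
      ((b : ℝ) ^ 2) ^ (l + 1) * S.a (Z.prod Z) := by exact_mod_cast hbig.le
  have hjl' : (j : ℝ) ≤ l := by exact_mod_cast hjl
  have hl0 : (0 : ℝ) ≤ l := Nat.cast_nonneg _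
  have hj0 : (0 : ℝ) ≤ j := Nat.cast_nonneg _
  have h5 : ((l : ℝ) + j + 2) ^ (b ^ 2) ≤ 2 ^ (b ^ 2) * ((l : ℝ) + 2) ^ (b ^ 2) := by
    rw [← mul_pow]
    exact pow_le_pow_left₀ (by positivity) (by linarith) _
  set A : ℝ := (S.a (P.prod (Y.prod (sq X Z l))) : ℝ) with hA
  set Cc : ℝ := (finrank W.K (S.C (P.prod (Y.prod (sq X Z l)))) : ℝ) with hCc
  set bY : ℝ := (finrank W.K (W.H Y) : ℝ) with hbY
  have hbY0 : (0 : ℝ) ≤ bY := Nat.cast_nonneg _
  have hCc0 : (0 : ℝ) ≤ Cc := Nat.cast_nonneg _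
  have hp : (0 : ℝ) < ((l : ℝ) + 2) ^ (b ^ 2) := by positivity
  have h6 : (A * (l + 2)) * ((l : ℝ) + 2) ^ (b ^ 2) ≤
      (bY * 2 ^ (b ^ 2) * Cc) * ((l : ℝ) + 2) ^ (b ^ 2) := by
    calc (A * (l + 2)) * ((l : ℝ) + 2) ^ (b ^ 2) = A * ((l : ℝ) + 2) ^ (b ^ 2 + 1) := by ring
      _ ≤ (((b : ℝ) ^ 2) ^ j * bY * S.a (sq X Z l)) * ((l : ℝ) + 2) ^ (b ^ 2 + 1) :=
          mul_le_mul_of_nonneg_right h1' (by positivity)
      _ = (((b : ℝ) ^ 2) ^ j * bY) * (S.a (sq X Z l) * ((l : ℝ) + 2) ^ (b ^ 2 + 1)) := by ring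
      _ ≤ (((b : ℝ) ^ 2) ^ j * bY) * (((b : ℝ) ^ 2) ^ (l + 1) * S.a (Z.prod Z)) :=
          mul_le_mul_of_nonneg_left h4 (by positivity)
      _ = bY * (S.a (Z.prod Z) * ((b : ℝ) ^ 2) ^ (l + j + 1)) := by ring
      _ ≤ bY * (Cc * (2 ^ (b ^ 2) * ((l : ℝ) + 2) ^ (b ^ 2))) := by
          refine mul_le_mul_of_nonneg_left (h3'.trans ?_) hbY0
          exact mul_le_mul_of_nonneg_left h5 hCc0
      _ = _ := by ring
  exact le_of_mul_le_mul_right h6 hp

/-- The constant. -/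
noncomputable def cI (b q : ℕ) : ℝ := 2 ^ (b ^ 2 + 8) * (q + 1) * (b : ℝ) ^ (q + 3)

lemma cI_ge {b : ℕ} (hb : 1 ≤ b) (q : ℕ) : (512 : ℝ) * b ≤ cI b q ∧
    8 * (b : ℝ) * 2 ^ (b ^ 2) ≤ cI b q ∧
    32 * (b : ℝ) * √((b : ℝ) ^ (2 * (q + 1)) * (48 * ((b ^ 2 + 1 : ℕ) : ℝ) * (q + 1))) ≤ cI b q := by
  have hb1 : (1 : ℝ) ≤ b := by exact_mod_cast hb
  have hq : (1 : ℝ) ≤ (q : ℝ) + 1 := by
    have : (0 : ℝ) ≤ q := Nat.cast_nonneg _
    linarith
  have h2 : (2 : ℝ) ≤ 2 ^ (b ^ 2) := by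
    calc (2 : ℝ) = 2 ^ 1 := (pow_one _).symm
      _ ≤ 2 ^ (b ^ 2) := pow_le_pow_right₀ (by norm_num) (Nat.one_le_pow _ _ hb)
  have h3 : (b : ℝ) ≤ (b : ℝ) ^ (q + 3) := by
    calc (b : ℝ) = (b : ℝ) ^ 1 := (pow_one _).symm
      _ ≤ (b : ℝ) ^ (q + 3) := pow_le_pow_right₀ hb1 (by omega)
  have h4 : cI b q = 256 * (2 ^ (b ^ 2) * ((q + 1) * (b : ℝ) ^ (q + 3))) := by
    rw [cI, pow_add]
    norm_num
    ring
  have h5 : (b : ℝ) ^ (q + 3) ≤ ((q : ℝ) + 1) * (b : ℝ) ^ (q + 3) :=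
    le_mul_of_one_le_left (by positivity) hq
  have h6 : (b : ℝ) ≤ ((q : ℝ) + 1) * (b : ℝ) ^ (q + 3) := h3.trans h5
  have hb0 : (0 : ℝ) ≤ b := by linarith
  refine ⟨?_, ?_, ?_⟩
  · rw [h4]
    have := mul_le_mul h2 h6 hb0 (by positivity)
    linarith
  · rw [h4]
    have := mul_le_mul_of_nonneg_left h6 (show (0 : ℝ) ≤ 2 ^ (b ^ 2) by positivity)
    nlinarith [show (0 : ℝ) ≤ 2 ^ (b ^ 2) * b by positivity]
  · have h7 : √((b : ℝ) ^ (2 * (q + 1)) * (48 * ((b ^ 2 + 1 : ℕ) : ℝ) * (q + 1))) ≤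
        10 * ((q + 1) * (b : ℝ) ^ (q + 2)) := by
      apply Real.sqrt_le_iff.2
      refine ⟨by positivity, ?_⟩
      have e1 : (10 * (((q : ℝ) + 1) * (b : ℝ) ^ (q + 2))) ^ 2 =
          (b : ℝ) ^ (2 * (q + 1)) * (100 * ((q : ℝ) + 1) ^ 2 * (b : ℝ) ^ 2) := by ring
      rw [e1]
      refine mul_le_mul_of_nonneg_left ?_ (by positivity)
      push_cast
      have e2 : (1 : ℝ) ≤ (b : ℝ) ^ 2 := one_le_pow₀ hb1
      have e3 : ((q : ℝ) + 1) ≤ ((q : ℝ) + 1) ^ 2 := by nlinarith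
      calc 48 * ((b : ℝ) ^ 2 + 1) * ((q : ℝ) + 1) ≤ 96 * (b : ℝ) ^ 2 * ((q : ℝ) + 1) := by
            refine mul_le_mul_of_nonneg_right (by linarith) (by linarith)
        _ ≤ 100 * ((q : ℝ) + 1) ^ 2 * (b : ℝ) ^ 2 := by
            have e4 : (b : ℝ) ^ 2 * ((q : ℝ) + 1) ≤ (b : ℝ) ^ 2 * ((q : ℝ) + 1) ^ 2 :=
              mul_le_mul_of_nonneg_left e3 (by positivity)
            have e5 : (0 : ℝ) ≤ (b : ℝ) ^ 2 * ((q : ℝ) + 1) ^ 2 := by positivity
            nlinarith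
    rw [h4]
    calc 32 * (b : ℝ) * √((b : ℝ) ^ (2 * (q + 1)) * (48 * ((b ^ 2 + 1 : ℕ) : ℝ) * (q + 1))) ≤
        32 * (b : ℝ) * (10 * ((q + 1) * (b : ℝ) ^ (q + 2))) :=
          mul_le_mul_of_nonneg_left h7 (by positivity)
      _ = 320 * ((q + 1) * (b : ℝ) ^ (q + 3)) := by ring
      _ ≤ 256 * (2 * ((q + 1) * (b : ℝ) ^ (q + 3))) := by
          have : (0 : ℝ) ≤ (q + 1) * (b : ℝ) ^ (q + 3) := by positivity
          linarith
      _ ≤ 256 * (2 ^ (b ^ 2) * ((q + 1) * (b : ℝ) ^ (q + 3))) := by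
          refine mul_le_mul_of_nonneg_left ?_ (by norm_num)
          exact mul_le_mul_of_nonneg_right h2 (by positivity)

/-- **The infection law with an explicit constant.** -/
theorem concl_at (S : Sys W) (hpos : ∀ l, 0 < S.al X l) (hXa : 0 < S.a X)
    (hX : 0 < finrank W.K (W.H X)) {q : ℕ} {z : W.H (pw X q)} (hz : z ∈ S.Num (pw X q))
    (hz0 : z ≠ 0) {l₁ : W.H (pw X q)} (hl1 : W.tr (pw X q) l₁ = 1) (n : ℕ) (Y Z : 𝒱.Obj) :
    Concl S X Y Z (cI (finrank W.K (W.H X)) q) n := by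
  set b := finrank W.K (W.H X) with hb
  obtain ⟨c1, c2, c3⟩ := cI_ge (b := b) hX q
  set κ := b ^ 2 + 1 with hκ
  have hκ1 : 1 ≤ κ := by omega
  have hb1 : (1 : ℝ) ≤ b := by exact_mod_cast hX
  set C : ℝ := cI b q with hC
  have hC0 : 0 ≤ C := by linarith
  rcases Nat.eq_zero_or_pos (S.a Y) with h0 | hY
  · exact Concl.of_zero S hC0
      (a_prod_eq_zero S h0 (X := ob X Y Z n) (snd _ _ ≫ fst _ _))
  rcases Nat.eq_zero_or_pos (S.a (Z.prod Z)) with h0 | hZ
  · exact Concl.of_zero S hC0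
      (a_prod_eq_zero S h0 (X := ob X Y Z n) (snd _ _ ≫ snd _ _))
  have hYn : (1 : ℝ) ≤ finrank W.K (W.H Y) := by
    have := a_le_H S Y
    exact_mod_cast (by omega : 1 ≤ finrank W.K (W.H Y))
  have hd : (0 : ℝ) ≤ finrank W.K (S.C (ob X Y Z n)) := Nat.cast_nonneg _
  have hr := rate_nonneg n
  have h3 : (S.a (ob X Y Z n) : ℝ) ≤ finrank W.K (S.C (ob X Y Z n)) := by
    exact_mod_cast a_le_C S _
  rcases Nat.lt_or_ge n 3 with hn | hn
  · have h1 := one_le_rate (n := n) (n₀ := 3) (by omega)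
    have h2 : √(2 * (((3 : ℕ) : ℝ) + 1)) ≤ 3 := by
      apply Real.sqrt_le_iff.2
      norm_num
    have h4 : (1 : ℝ) ≤ C * finrank W.K (W.H Y) * rate n := by
      calc (1 : ℝ) ≤ √(2 * (((3 : ℕ) : ℝ) + 1)) * rate n := h1
        _ ≤ 3 * rate n := mul_le_mul_of_nonneg_right h2 hr
        _ ≤ (C * finrank W.K (W.H Y)) * rate n := by
            refine mul_le_mul_of_nonneg_right ?_ hr
            calc (3 : ℝ) ≤ C * 1 := by linarith
              _ ≤ C * finrank W.K (W.H Y) := mul_le_mul_of_nonneg_left hYn hC0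
    rw [Concl]
    calc (S.a (ob X Y Z n) : ℝ) ≤ 1 * finrank W.K (S.C (ob X Y Z n)) := by rw [one_mul]; exact h3
      _ ≤ _ := mul_le_mul_of_nonneg_right h4 hd
  set β : ℝ := (b : ℝ) ^ (2 * (q + 1)) with hβ
  have hβ1 : 1 ≤ β := one_le_pow₀ hb1
  set E : ℝ := 48 * κ * (q + 1) with hE
  have hE0 : 0 ≤ E := by positivity
  have hER : √E ≤ √(β * E) := Real.sqrt_le_sqrt (le_mul_of_one_le_left hE0 hβ1)
  have hs0 : 0 ≤ √(β * E) := Real.sqrt_nonneg _
  rcases exists_params q hκ1 hn with h1 | ⟨m, l, hl, hj, hnl, hm⟩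
  · have h2 := le_rate (n := n) zero_le_one h1 hE0
    rw [Real.sqrt_one] at h2
    have h4 : (1 : ℝ) ≤ C * finrank W.K (W.H Y) * rate n := by
      have h5 : √E ≤ C * finrank W.K (W.H Y) := by
        calc √E ≤ √(β * E) := hER
          _ ≤ 32 * (b : ℝ) * √(β * E) := le_mul_of_one_le_left hs0 (by linarith)
          _ ≤ C := c3
          _ ≤ C * finrank W.K (W.H Y) := le_mul_of_one_le_right hC0 hYn
      exact h2.trans (mul_le_mul_of_nonneg_right h5 hr)
    rw [Concl]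
    calc (S.a (ob X Y Z n) : ℝ) ≤ 1 * finrank W.K (S.C (ob X Y Z n)) := by rw [one_mul]; exact h3
      _ ≤ _ := mul_le_mul_of_nonneg_right h4 hd
  · -- the bound for the square root
    have hs : √((b : ℝ) ^ (2 * (q + 1)) / (2 * (m + 2))) ≤ √(β * E) * rate n := by
      refine le_rate (by positivity) ?_ (by positivity)
      have h2 : (b : ℝ) ^ (2 * (q + 1)) / (2 * (m + 2)) ≤ β * (1 / ((m : ℝ) + 2)) := by
        rw [mul_one_div, ← hβ]
        refine div_le_div_of_nonneg_left (by positivity) (by positivity) ?_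
        have : (0 : ℝ) < (m : ℝ) + 2 := by positivity
        linarith
      refine h2.trans ?_
      rw [mul_assoc]
      exact mul_le_mul_of_nonneg_left hm (by positivity)
    have hjl : (q + 1) * (m + 1) ≤ l := by
      have e1 : 2 ^ (κ * ((q + 1) * (m + 1))) ≤ 2 ^ l :=
        (Nat.pow_le_pow_left (by omega) _).trans hj
      have e2 := (Nat.pow_le_pow_iff_right (by norm_num)).1 e1
      exact (Nat.le_mul_of_pos_left _ hκ1).trans e2
    have hn4 : n + 1 ≤ 4 * (l + 2) := by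
      have e1 : (q + q + 1) * m + (q + q + 1) + m + 1 = 2 * ((q + 1) * (m + 1)) := by ring
      omega
    set P := pw ((pw X q).prod (pw X q)) m with hP
    set e := (q + q + 1) * m + (q + q + 1) + m with he
    have hclP : cl P = pwc (cl X) e := cl_UU X q m
    have red : ∀ Y₁ : 𝒱.Obj, 0 < S.a Y₁ →
        (finrank W.K (W.H Y₁) : ℝ) ≤ b * finrank W.K (W.H Y) →
        cl (ob X Y Z n) = cl (P.prod (Y₁.prod (sq X Z l))) → Concl S X Y Z C n := by
      intro Y₁ hY₁ hbY hcl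
      by_cases hbig : Big S X Z κ l
      · have h1 := master_at S hpos hX hz hz0 hl1 m hl hj Y₁ Z hZ hbig hY₁
        rw [← hP, ← hb, ← a_cl S hcl, ← C_cl S hcl] at h1
        rw [Concl]
        refine h1.trans ?_
        refine mul_le_mul_of_nonneg_right ?_ hd
        calc 32 * (finrank W.K (W.H Y₁) : ℝ) * √((b : ℝ) ^ (2 * (q + 1)) / (2 * (m + 2))) ≤
            32 * (b * finrank W.K (W.H Y)) * (√(β * E) * rate n) := by
              refine mul_le_mul ?_ hs (Real.sqrt_nonneg _) (by positivity)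
              exact mul_le_mul_of_nonneg_left hbY (by norm_num)
          _ = (32 * (b : ℝ) * √(β * E)) * (finrank W.K (W.H Y) * rate n) := by ring
          _ ≤ C * (finrank W.K (W.H Y) * rate n) := by
              refine mul_le_mul_of_nonneg_right c3 ?_
              exact mul_nonneg (by linarith) hr
          _ = _ := by ring
      · have h1 := small_at S (q := q) (m := m) Y₁ Z hbig hjl hY₁
        rw [← hP, ← hb, ← a_cl S hcl, ← C_cl S hcl] at h1
        have hl2 : (0 : ℝ) < (l : ℝ) + 2 := by positivity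
        have hn1 : (0 : ℝ) < (n : ℝ) + 1 := by positivity
        have e1 : (n : ℝ) + 1 ≤ 4 * ((l : ℝ) + 2) := by exact_mod_cast hn4
        have e2 : 1 / ((l : ℝ) + 2) ≤ 8 * rate n := by
          have e3 := inv_le_rate n
          have e4 : 1 / ((l : ℝ) + 2) ≤ 4 * (1 / ((n : ℝ) + 1)) := by
            rw [mul_one_div, div_le_div_iff₀ hl2 hn1]
            linarith
          linarith
        rw [Concl]
        calc (S.a (ob X Y Z n) : ℝ) =
            (S.a (ob X Y Z n) * ((l : ℝ) + 2)) * (1 / ((l : ℝ) + 2)) := by field_simp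
          _ ≤ (finrank W.K (W.H Y₁) * 2 ^ (b ^ 2) * finrank W.K (S.C (ob X Y Z n))) *
              (1 / ((l : ℝ) + 2)) := mul_le_mul_of_nonneg_right h1 (by positivity)
          _ ≤ ((b * finrank W.K (W.H Y)) * 2 ^ (b ^ 2) * finrank W.K (S.C (ob X Y Z n))) *
              (8 * rate n) := by
              refine mul_le_mul ?_ e2 (by positivity) (by positivity)
              refine mul_le_mul_of_nonneg_right ?_ hd
              exact mul_le_mul_of_nonneg_right hbY (by positivity)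
          _ = (8 * (b : ℝ) * 2 ^ (b ^ 2)) *
              (finrank W.K (W.H Y) * rate n * finrank W.K (S.C (ob X Y Z n))) := by ring
          _ ≤ C * (finrank W.K (W.H Y) * rate n * finrank W.K (S.C (ob X Y Z n))) := by
              refine mul_le_mul_of_nonneg_right c2 ?_
              exact mul_nonneg (mul_nonneg (by linarith) hr) hd
          _ = _ := by ring
    rcases hnl with hnl | hnl
    · refine red Y hY (le_mul_of_one_le_left (by linarith) hb1) ?_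
      rw [ob, hnl]
      simp only [cl_prod, cl_sq, hclP, cl_pw, ← pwc_add (cl X) e (l + l + 1)]
      ac_rfl
    · refine red (X.prod Y) ?_ ?_ ?_
      · exact lt_of_lt_of_le (Nat.mul_pos hXa hY) (a_prod_ge S X Y)
      · rw [Pool.Agent.Y133.Half.finrank_prod]
        push_cast
        exact le_rfl
      · rw [ob, hnl]
        simp only [cl_prod, cl_sq, hclP, cl_pw]
        change (pwc (cl X) (e + (l + l + 1) + 1) * cl X) * _ = _
        rw [← pwc_add (cl X) e (l + l + 1)]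
        ac_rfl

/-- **The infection law with an explicit constant**, for a system of classes. -/
theorem infection_at (S : Sys W) (X : 𝒱.Obj) (q : ℕ) (hq : S.Num (pw X q) ≠ ⊥) (n : ℕ)
    (Y Z : 𝒱.Obj) : Concl S X Y Z (cI (finrank W.K (W.H X)) q) n := by
  have hc0 : 0 ≤ cI (finrank W.K (W.H X)) q := by
    rw [cI]
    positivity
  by_cases hZ : ∀ l ∈ S.C X, W.tr X l = 0
  · refine Concl.of_zero S hc0 ?_
    exact a_prod_eq_zero S (a_eq_zero_of_tr S hZ) (X := ob X Y Z n) (fst _ _ ≫ prj X n 0)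
  push Not at hZ
  obtain ⟨l', hl', hl'0⟩ := hZ
  obtain ⟨l, hl, hl1⟩ : ∃ l ∈ S.C X, W.tr X l = 1 :=
    ⟨(W.tr X l')⁻¹ • l', Submodule.smul_mem _ _ hl', by
      rw [map_smul, smul_eq_mul, inv_mul_cancel₀ hl'0]⟩
  have h1 : (1 : W.H X) ≠ 0 := one_ne_zero_of (ne_zero_of_tr hl1)
  have hX : 0 < finrank W.K (W.H X) := by
    have : Nontrivial (W.H X) := ⟨⟨1, 0, h1⟩⟩
    exact Module.finrank_pos
  have hXa : 0 < S.a X := S.a_pos hl hl1
  have hpos : ∀ n, 0 < S.al X n := by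
    intro n
    obtain ⟨m, hm, hm1⟩ := S.exists_lam hl hl1 n
    refine S.a_pos (Sys.xp_mem_C S hm hm) ?_
    rw [tr_xp, hm1, mul_one]
  obtain ⟨z, hz, hz0⟩ := Submodule.exists_mem_ne_zero_of_ne_bot hq
  obtain ⟨m, hm, hm1⟩ := S.exists_lam hl hl1 q
  exact concl_at S hpos hXa hX hz hz0 hm1 n Y Z

end Pool.Agent.E8helper24.HP
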