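import Pool.Agent.E8helper1.TPQ.Pub
import Pool.Agent.E8helper24.QF.Defs

/-!
# One power decides, for common Tate classes: definitions
-/

open CategoryTheory AlgebraicGeometry

universe u

namespace Pool.Agent.E8helper24.HP

section generic

variable {K V Γ : Type} [Field K] [AddCommGroup V] [Module K V] [Group Γ]

/-- The map `r` has the properties of the geometric Frobenius at a place with residue field `𝔽_q`:
for every `i` the restriction of `r` to the space `gr i` (the cohomology of degree `i`) is a zero of a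
monic polynomial with integral coefficients, of degree `dim (gr i)`, all complex roots of which
have absolute value `q ^ (i / 2)`, and the slopes of which are multiples of `1 / (dim (gr i))!`. -/
def IsFrobenius (gr : ℕ → Submodule K V) (q : ℕ) (r : V → V) : Prop :=
  ∀ i, ∃ P : Polynomial ℤ, P.Monic ∧ P.natDegree = Module.finrank K (gr i) ∧
    (∀ z : ℂ, Polynomial.aeval z P = 0 → ‖z‖ ^ 2 = (q : ℝ) ^ i) ∧
    Pool.Agent.E8helper1.TPQ.HasSlopes q P ∧
    ∀ a ∈ gr i, P.sum (fun n c => (c : K) • r^[n] a) = 0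

/-- The values of `χ` are `ℓ`-adic units; there is a homogeneous basis in which the group acts by
`ℓ`-adic integral matrices; and the Frobenius elements are dense: for every `g` in the group and
every `ε > 0` there is a Frobenius element `γ` with `χ γ = q`, a power of a prime number, such that
`χ γ` and `χ g`, and the matrices of `γ` and `g`, differ by less than `ε`. -/
def HasFrobenii {ℓ : ℕ} [Fact ℓ.Prime] (φ : K ≃+* ℚ_[ℓ]) (χ : Γ → K) (gr : ℕ → Submodule K V)
    (ρ : Γ → V → V) : Prop :=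
  (∀ g, ‖φ (χ g)‖ = 1) ∧ ∃ (d : ℕ) (v : Module.Basis (Fin d) K V), (∀ i, ∃ j, v i ∈ gr j) ∧
    (∀ g i j, ‖φ (v.repr (ρ g (v j)) i)‖ ≤ 1) ∧
    ∀ g, ∀ ε > 0, ∃ (γ : Γ) (q : ℕ), IsPrimePow q ∧ χ γ = q ∧ IsFrobenius gr q (ρ γ) ∧
      ‖φ (χ γ - χ g)‖ < ε ∧ ∀ i j, ‖φ (v.repr (ρ γ (v j) - ρ g (v j)) i)‖ < ε

/-- The action is semisimple: in every degree a subspace which is stable under a subgroup of finite
index has a complement which is stable under this subgroup. -/
def IsSemisimple (gr : ℕ → Submodule K V) (ρ : Γ → V → V) : Prop :=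
  ∀ Δ : Subgroup Γ, Δ.FiniteIndex → ∀ i, ∀ U : Submodule K V, U ≤ gr i →
    (∀ g ∈ Δ, ∀ u ∈ U, ρ g u ∈ U) → ∃ U' : Submodule K V, U' ≤ gr i ∧
      (∀ g ∈ Δ, ∀ u ∈ U', ρ g u ∈ U') ∧ U ⊓ U' = ⊥ ∧ U ⊔ U' = gr i

end generic

open Pool.Agent.H914 Pool.Agent.H914.VarClass Pool.Agent.H914.VarClass.Obj
  Pool.Agent.H914.WeilCohomology Pool.Agent.Y121.AHS
open Pool.Agent.E8helper24.QF (GalAction)

variable {k : Type u} [Field k] {𝒱 : VarClass k} {ops : CycleOps 𝒱} {Γ : Type} [Group Γ]
  {W : WeilCohomology.{u, 0} ops} {L : Type} [Field L] [Algebra W.K L]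

/-- The action of `Γ` on the cohomology of `X` with coefficients in `L ≃ ℚ_ℓ` is semisimple and
integral, and the Frobenius elements are dense. -/
def IsEtale (A : GalAction Γ W L) (X : 𝒱.Obj) {ℓ : ℕ} [Fact ℓ.Prime] (φ : L ≃+* ℚ_[ℓ]) : Prop :=
  IsSemisimple (grL W L X) (fun g => (A.act g).e X) ∧
    HasFrobenii φ (fun g => (A.act g).c) (grL W L X) (fun g => (A.act g).e X)

end Pool.Agent.E8helper24.HP
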