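import Pool.Agent.E8helper24.HP.OneS
import Pool.Agent.E8helper24.HP.OPub
import Pool.Agent.E8helper24.HP.Common
import Pool.Agent.E8helper1.TPQ.Conv
import Pool.Agent.E8helper1.TPQ.Fin
import Pool.Agent.E8helper1.TPH.Conv

/-!
# One power decides, for common Tate classes
-/

open CategoryTheory AlgebraicGeometry TensorProduct

universe u

set_option linter.unusedSectionVars false

namespace Pool.Agent.E8helper24.HP.Common

open Module
open Pool.Agent.H914 Pool.Agent.H914.VarClass Pool.Agent.H914.VarClass.Obj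
  Pool.Agent.H914.WeilCohomology
open Pool.Agent.Y133.Half Pool.Agent.Y121.AH
open Pool.Agent.E8helper24.QF
open Pool.Agent.E8helper24.INF.Drb (rankBy)
open Pool.Agent.E8helper1.TP (Gal)
open Pool.Agent.E8helper1.TX
open Pool.Agent.E8helper56.TY (M5)
open Pool.Agent.Y129 (TG)

variable {k : Type u} [Field k] {𝒱 : VarClass k} {ops : CycleOps 𝒱}
  {Γ : Type} [Group Γ] {W : WeilCohomology.{u, 0} ops}

lemma M_le_m {b M m : ℕ} (hb : 1 ≤ b) (hM : 2 ≤ M)
    (hm : (b : ℝ) ^ 3 * (M : ℝ) ^ 2 * Real.log (2 * b * M + 1) ≤ m) : M ≤ m := by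
  have hb' : (1 : ℝ) ≤ b := by exact_mod_cast hb
  have hM' : (2 : ℝ) ≤ M := by exact_mod_cast hM
  have h1 : (1 : ℝ) ≤ (b : ℝ) ^ 3 := one_le_pow₀ hb'
  have h2 : (1 : ℝ) ≤ Real.log (2 * b * M + 1) := by
    rw [Real.le_log_iff_exp_le (by positivity)]
    have := Real.exp_one_lt_d9
    nlinarith
  have h3 : (M : ℝ) ≤ m := by
    calc (M : ℝ) ≤ (M : ℝ) ^ 2 := by nlinarith
      _ ≤ (b : ℝ) ^ 3 * (M : ℝ) ^ 2 := le_mul_of_one_le_left (by positivity) h1
      _ ≤ (b : ℝ) ^ 3 * (M : ℝ) ^ 2 * Real.log (2 * b * M + 1) :=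
          le_mul_of_one_le_right (by positivity) h2
      _ ≤ m := hm
  exact_mod_cast h3

section one

variable {L : Type} [Field L] [Algebra W.K L] (A : GalAction Γ W L)

lemma c_one : ((toGA A).C 1).C.c = 1 := by
  have h1 := (toGA A).twist 1 1
  rw [one_mul] at h1
  have h2 := ((toGA A).C 1).C.ne
  have h3 : ((toGA A).C 1).C.c * 1 = ((toGA A).C 1).C.c * ((toGA A).C 1).C.c := by
    rw [mul_one]; exact h1
  exact (mul_left_cancel₀ h2 h3).symm

lemma e_one (X : 𝒱.Obj) (x : (baseW W L).H X) : ((toGA A).C 1).C.e X x = x := by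
  have h1 := (toGA A).mul 1 1 X x
  rw [one_mul] at h1
  exact (((toGA A).C 1).C.e X).injective h1.symm

/-- The action as an action on the powers of `X`. -/
noncomputable def toGal (X : 𝒱.Obj) : Gal (baseW W L) X where
  Γ := Γ
  χ g := ((toGA A).C g).C.c
  ρ n g := ((toGA A).C g).C.e (Pool.Agent.Y129.pw X n)
  act n :=
    { chi_one := c_one A
      chi_mul := (toGA A).twist
      one := fun a => e_one A _ a
      comp := fun g h a => (toGA A).mul g h _ a
      add := fun g a b => map_add _ a b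
      mul := fun g a b => map_mul _ a b
      smul := fun g r a => ((toGA A).C g).semi _ r a
      deg := fun g i a ha => ((toGA A).C g).C.gr.2 ha
      trace := fun g a => by
        have h1 := ((toGA A).C g).C.tr _ a
        rw [((toGA A).C g).lin] at h1
        exact h1
      cyc := by
        rintro g j _ ⟨z, hz, rfl⟩
        exact ⟨_, ⟨z, hz, rfl⟩, ((toGA A).C g).C.cyc hz⟩
      fix := by
        rintro j _ ⟨z, hz, rfl⟩
        exact ⟨⊤, inferInstance, fun g _ => ((toGA A).C g).C.cyc hz⟩ }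
  proj n i g a := ((toGA A).C g).C.nat _ a

lemma TG_eq (X : 𝒱.Obj) (n : ℕ) : TG (baseW W L) X (toGal A X).chi (toGal A X).rho n =
    (tatePred (toGA A)).sys.C (Pool.Agent.Y129.pw X n) := by
  rw [← Gal.span_eq]
  change Submodule.span _ _ = Submodule.span _ _
  congr 1
  ext c
  rw [Set.mem_iUnion]
  rfl

/-- **One power decides, for a system of classes which are Tate classes.** -/
theorem one_sys {X : 𝒱.Obj} (hX : 0 < finrank W.K (W.H X)) {ℓ : ℕ} [Fact ℓ.Prime]
    (φ : L ≃+* ℚ_[ℓ]) (hA : IsEtale A X φ) (S : Sys (baseW W L))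
    (hS : ∀ Z, S.C Z ≤ (tatePred (toGA A)).sys.C Z) (M : ℕ)
    (hM : M = Pool.Agent.E8helper1.TPQ.exponent (finrank W.K (W.H X)) X.dim) (m : ℕ)
    (hm : (finrank W.K (W.H X) : ℝ) ^ 3 * (M : ℝ) ^ 2 *
      Real.log (2 * finrank W.K (W.H X) * M + 1) ≤ m)
    (hT : (tatePred (toGA A)).sys.C (pw X (2 * m - 1)) ≤ S.C (pw X (2 * m - 1))) (n : ℕ) :
    (tatePred (toGA A)).sys.C (pw X n) ≤ S.C (pw X n) := by
  have hfin : finrank (baseW W L).K ((baseW W L).H X) = finrank W.K (W.H X) := by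
    have h : finrank L (L ⊗[W.K] W.H X) = finrank W.K (W.H X) := Module.finrank_baseChange
    exact h
  have hnt : Nontrivial ((baseW W L).H X) :=
    Module.nontrivial_of_finrank_pos (R := (baseW W L).K) (by rw [hfin]; exact hX)
  obtain ⟨hss, hF⟩ := hA
  let φ' : (baseW W L).K ≃+* ℚ_[ℓ] := φ
  have hF' : Pool.Agent.E8helper1.TPQ.Frobenii (toGal A X) φ' := hF
  obtain ⟨hχ, hfrob⟩ := Pool.Agent.E8helper1.TPQ.hasFrob_of (toGal A X) φ' hF'
  have hM5 : M5 (finrank (baseW W L).K ((baseW W L).H X)) X.dim = M := by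
    rw [hM, hfin]
    rfl
  have hM2 : 2 ≤ M := by
    have h1' : 1 ≤ (finrank W.K (W.H X)).factorial * ((2 * X.dim + 1) *
        (finrank W.K (W.H X)).factorial) ^ (finrank W.K (W.H X) - 1) :=
      Nat.succ_le_of_lt (Nat.mul_pos (Nat.factorial_pos _)
        (Nat.pow_pos (Nat.mul_pos (by omega) (Nat.factorial_pos _))))
    rw [hM, Pool.Agent.E8helper1.TPQ.exponent]
    omega
  have hm1 : M ≤ m := M_le_m hX hM2 hm
  obtain ⟨m', rfl⟩ : ∃ m', m = m' + 1 := ⟨m - 1, by omega⟩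
  have e : 2 * (m' + 1) - 1 = m' + m' + 1 := by omega
  rw [e] at hT
  have h1 := OneS.main_S (ρ := (toGal A X).rho) Pool.Agent.E8helper76.TX.t_SSG
    Pool.Agent.E8helper1.TPQ.s_asmq2 Pool.Agent.E8helper3.TX.t_SQRT
    Pool.Agent.E8helper97.TW.t_EMB φ' (toGal A X).power hχ hfrob
    (Gal.semisimple (toGal A X) hss) S (fun n => by rw [TG_eq]; exact hS _) m'
    (by rw [hM5, hfin]; exact hm)
    (by
      rw [TG_eq]
      exact Pool.Agent.E8helper1.TPH.sys_iso _ _ (pwIso129 X _) hT) n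
  rw [TG_eq] at h1
  exact Pool.Agent.E8helper1.TPH.sys_iso _ _ (pwIso129 X n).symm h1

end one

variable {ι : Type} {L : ι → Type} [∀ i, Field (L i)] [∀ i, Algebra W.K (L i)]
  (A : ∀ i, GalAction Γ W (L i))

/-- The converse: if all Tate classes are combinations of common ones, the spaces agree. -/
lemma le_of_defined (i : ι) {Z : 𝒱.Obj} (h : DefinedOverQ A i Z) :
    (tatePred (toGA (A i))).sys.C Z ≤
      ((commonPred (fun i => toGA (A i)) i).sys.base (L i)).C Z := by
  intro x hx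
  refine ClassPred.sp_ind (Q := tatePred (toGA (A i)))
    (q := fun x => x ∈ ((commonPred (fun i => toGA (A i)) i).sys.base (L i)).C Z) ?_ ?_ ?_ hx
  · intro j x hx
    have h1 : x ∈ combs A i Z j := h j x (isTate_iff.2 hx)
    have h2 : combs A i Z j ≤
        (((commonPred (fun i => toGA (A i)) i).sys.base (L i)).C Z).toAddSubmonoid := by
      refine AddSubmonoid.closure_le.2 ?_
      rintro _ ⟨l, c, hc, rfl⟩
      have h2 : c ∈ (commonPred (fun i => toGA (A i)) i).sp Z := ClassPred.sp_of hc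
      exact Submodule.smul_mem _ _ (Submodule.tmul_mem_baseChange_of_mem (1 : L i) h2)
    exact h2 h1
  · exact Submodule.zero_mem _
  · intro a b ha hb
    exact Submodule.add_mem _ ha hb

/-- **One power decides**, for common Tate classes. -/
theorem common_one (i : ι) {X : 𝒱.Obj} (hX : 0 < finrank W.K (W.H X)) {ℓ : ℕ} [Fact ℓ.Prime]
    (φ : L i ≃+* ℚ_[ℓ]) (hA : IsEtale (A i) X φ) (M : ℕ)
    (hM : M = Pool.Agent.E8helper1.TPQ.exponent (finrank W.K (W.H X)) X.dim) (m : ℕ)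
    (hm : (finrank W.K (W.H X) : ℝ) ^ 3 * (M : ℝ) ^ 2 *
      Real.log (2 * finrank W.K (W.H X) * M + 1) ≤ m)
    (h : DefinedOverQ A i (pw X (2 * m - 1))) (n : ℕ) : DefinedOverQ A i (pw X n) :=
  defined_of_le A i (one_sys (A i) hX φ hA
    ((commonPred (fun i => toGA (A i)) i).sys.base (L i))
    (base_le (A := fun i => toGA (A i)) i i) M hM m hm (le_of_defined A i h) n)

/-- **The two alternatives.** -/
theorem common_law (i : ι) {X : 𝒱.Obj} (hX : 0 < finrank W.K (W.H X)) {ℓ : ℕ} [Fact ℓ.Prime]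
    (φ : L i ≃+* ℚ_[ℓ]) (hA : IsEtale (A i) X φ) (M : ℕ)
    (hM : M = Pool.Agent.E8helper1.TPQ.exponent (finrank W.K (W.H X)) X.dim) (m : ℕ)
    (hm : (finrank W.K (W.H X) : ℝ) ^ 3 * (M : ℝ) ^ 2 *
      Real.log (2 * finrank W.K (W.H X) * M + 1) ≤ m) :
    (DefinedOverQ A i (pw X (2 * m - 1)) → ∀ n, DefinedOverQ A i (pw X n)) ∧
    (¬ DefinedOverQ A i (pw X (2 * m - 1)) → ∀ Z : 𝒱.Obj,
      AtMostHalf (fun n => rankBy (IsCommon A) ((pw X n).prod (Z.prod Z)))
        (fun n => QF.tateDim (A i) ((pw X n).prod (Z.prod Z)))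
        (constant (finrank W.K (W.H X)) m)) := by
  refine ⟨common_one A i hX φ hA M hM m hm, fun h Z n => ?_⟩
  have hM2 : 2 ≤ M := by
    have h1' : 1 ≤ (finrank W.K (W.H X)).factorial * ((2 * X.dim + 1) *
        (finrank W.K (W.H X)).factorial) ^ (finrank W.K (W.H X) - 1) :=
      Nat.succ_le_of_lt (Nat.mul_pos (Nat.factorial_pos _)
        (Nat.pow_pos (Nat.mul_pos (by omega) (Nat.factorial_pos _))))
    rw [hM, Pool.Agent.E8helper1.TPQ.exponent]
    omega
  have hm1 : M ≤ m := M_le_m hX hM2 hm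
  have h1 := (defined_or A i (pw X (2 * m - 1))).resolve_left h
  exact common_quant A i hX (m := m) (r := 2) (by omega) (by omega) (by omega) Z n

end Pool.Agent.E8helper24.HP.Common
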