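import Pool.Agent.E8helper1.TW.GeoQ

/-!
# One power decides, for a system of classes contained in the Tate classes
-/

open CategoryTheory AlgebraicGeometry Filter Topology

open scoped ENNReal

universe u v

namespace Pool.Agent.E8helper24.HP.OneS

open Module Matrix
open Pool.Agent.H914 Pool.Agent.H914.VarClass Pool.Agent.H914.VarClass.Obj
  Pool.Agent.H914.WeilCohomology Pool.Agent.H281R3.HT
open Pool.Agent.Y133.Half (Sys PH xp xp_def Ev Adj algSys)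
open Pool.Agent.Y133.Half.Sys (mem_Op)
open Pool.Agent.Y129 (pw pj PowerAction TG tateClasses tateDim cycRank tate_index finrank_TG
  TG_eq_iff liftN liftN_pj pw_ext)
open Pool.Agent.TH125.Gal (IsGaloisAct Intertwines TateAct)
open Pool.Agent.E8helper1.TX Pool.Agent.E8helper1.TW
open Pool.Agent.E8helper56.TY (M5)

set_option linter.unusedSectionVars false

variable {k : Type u} [Field k] {𝒱 : VarClass k} {ops : CycleOps 𝒱}
  {W : WeilCohomology.{u, 0} ops} {X : 𝒱.Obj} {Γ : Type} [Group Γ] {χ : Γ →* W.Kˣ}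
  {ρ : ∀ n, Γ →* (W.H (pw X n) ≃ₐ[W.K] W.H (pw X n))} {θ : Γ →* W.Kˣ}

section down

variable (h : PowerAction W X χ ρ)

include h in
/-- The statement for smaller powers. -/
theorem TG_downS (S : Sys W) {m n : ℕ} (hmn : m ≤ n) (hT : TG W X χ ρ n ≤ S.C (pw X n)) :
    TG W X χ ρ m ≤ S.C (pw X m) := by
  intro c hc
  let p : pw X n ⟶ pw X m := liftN X m (fun i => pj X n (Fin.castLE (by omega) i))
  let σ : pw X m ⟶ pw X n := liftN X n (fun i =>
    if hi : (i : ℕ) < m + 1 then pj X m ⟨i, hi⟩ else pj X m 0)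
  have h1 : σ ≫ p = 𝟙 _ := by
    apply pw_ext
    intro i
    rw [Category.assoc, liftN_pj, liftN_pj, Category.id_comp]
    have h2 : ((Fin.castLE (by omega : m + 1 ≤ n + 1) i : Fin (n + 1)) : ℕ) < m + 1 := i.2
    rw [dif_pos h2]
    congr 1
  have h2 : W.map p c ∈ TG W X χ ρ n :=
    TG_map h (h.equiv p (fun i => Fin.castLE (by omega) i) fun i => liftN_pj _ _ _) hc
  have h3 : W.map σ (W.map p c) = c := by
    rw [← W.map_comp, h1, W.map_id]
  rw [← h3]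
  exact S.map σ (hT h2)

variable (hθ : ∀ g, θ g ^ 2 = χ g)

include h hθ in
/-- Operators which commute with the normalized action and the parity are in the system. -/
theorem op_of_potS (S : Sys W) (hT : TG W X χ ρ 1 ≤ S.C (pw X 1)) {a : Module.End W.K (W.H X)}
    (h1 : ∃ Δ : Subgroup Γ, Δ.FiniteIndex ∧ ∀ g ∈ Δ, a * nu0 ρ θ g = nu0 ρ θ g * a)
    (h2 : a * H914.par (W.isInternal X) = H914.par (W.isInternal X) * a) :
    a ∈ S.Op X X := by
  obtain ⟨ι, _, _, v, -⟩ := Pool.Agent.Y129.exists_homogeneous_basis W X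
  have h3 : IsPot (R0 v h θ) (p0 v) (LinearMap.toMatrix v v a) := by
    obtain ⟨Δ, hΔ, h1⟩ := h1
    refine ⟨⟨Δ, hΔ, fun g hg => ?_⟩, ?_⟩
    · change LinearMap.toMatrix v v a * LinearMap.toMatrix v v _ =
        LinearMap.toMatrix v v _ * LinearMap.toMatrix v v a
      rw [← LinearMap.toMatrix_mul, ← LinearMap.toMatrix_mul, h1 g hg]
    · change LinearMap.toMatrix v v a * LinearMap.toMatrix v v _ =
        LinearMap.toMatrix v v _ * LinearMap.toMatrix v v a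
      rw [← LinearMap.toMatrix_mul, ← LinearMap.toMatrix_mul, h2]
  obtain ⟨a', ⟨c, hc, rfl⟩, h4⟩ := (isPot_iff v h hθ _).1 h3
  have h5 := (LinearMap.toMatrix v v).injective h4
  rw [← h5]
  exact Sys.Op.corr (S := S) (hT hc)

variable {ι : Type} [Fintype ι] [DecidableEq ι] (v : Basis ι W.K (W.H X))

include h hθ in
/-- The operators of the system are potentially invariant. -/
theorem SK_leS (S : Sys W) (hS : ∀ n, S.C (pw X n) ≤ TG W X χ ρ n) (m : ℕ) :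
    SK v S m ≤ PotOp (R0 v h θ) (p0 v) m := by
  cases m with
  | zero =>
    intro M _
    have hc : ∀ A B : Matrix (Fin 0 → ι) (Fin 0 → ι) W.K, A * B = B * A := by
      intro A B
      ext I J
      obtain rfl := Subsingleton.elim I J
      rw [Matrix.mul_apply, Matrix.mul_apply, Fintype.sum_subsingleton _ I,
        Fintype.sum_subsingleton _ I, mul_comm]
    exact ⟨⟨⊤, inferInstance, fun g _ => hc _ _⟩, hc _ _⟩
  | succ n =>
    intro M hM
    obtain ⟨a, ha, rfl⟩ := (mem_SK_succ v _ n _).1 hM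
    obtain ⟨c, hc, rfl⟩ := (mem_Op_iff _ n a).1 ha
    exact (mem_PotOp_iff v h hθ n _).2 ⟨c, hS _ hc, rfl⟩

include h hθ in
/-- The statement for an even power in terms of operators. -/
theorem PotOp_le_iffS (S : Sys W) (n : ℕ) :
    PotOp (R0 v h θ) (p0 v) (n + 1) ≤ SK v S (n + 1) ↔
    TG W X χ ρ (n + n + 1) ≤ S.C (pw X (n + n + 1)) := by
  constructor
  · intro h1 c hc
    have h2 := h1 ((mem_PotOp_iff v h hθ n _).2 ⟨c, hc, rfl⟩)
    obtain ⟨a, ha, h3⟩ := (mem_SK_succ v _ n _).1 h2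
    obtain ⟨c', hc', rfl⟩ := (mem_Op_iff _ n a).1 ha
    have h4 := opc_injective n (mt_injective v n h3)
    rw [← h4]
    exact hc'
  · intro h1 M hM
    obtain ⟨c, hc, rfl⟩ := (mem_PotOp_iff v h hθ n _).1 hM
    exact (mem_SK_succ v _ n _).2 ⟨_, (mem_Op_iff _ n _).2 ⟨c, h1 hc, rfl⟩, rfl⟩

end down

section core

variable {ℓ : ℕ} [Fact ℓ.Prime] (φ : W.K ≃+* ℚ_[ℓ])
  [Nontrivial (W.H X)]
  {ι : Type} [Fintype ι] [DecidableEq ι] (v : Basis ι W.K (W.H X)) {dg : ι → ℕ}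

/-- **The theorem, if the normalized action exists.** -/
theorem core_S [Algebra ℚ_[ℓ] ℂ] (hSSG : S_SSG) (hASM : S_ASMQ2)
    (h : PowerAction W X χ ρ) (hθ : ∀ g, θ g ^ 2 = χ g)
    (hv : ∀ i, v i ∈ W.gr X (dg i))
    (hlat : ∀ g i j, ‖φ (v.repr (ρ 0 g (v j)) i)‖ ≤ 1)
    (hθ1 : ∀ g, ‖φ ((θ g : W.Kˣ) : W.K)‖ = 1) (hss : SemisimpleH ρ)
    (FD : FrobQ (galData v φ hv h hθ hlat hθ1 hSSG hss) X.dim)
    (S : Sys W) (hS : ∀ n, S.C (pw X n) ≤ TG W X χ ρ n) (m : ℕ)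
    (hm : (finrank W.K (W.H X) : ℝ) ^ 3 * (M5 (finrank W.K (W.H X)) X.dim : ℝ) ^ 2 *
      Real.log (2 * finrank W.K (W.H X) * M5 (finrank W.K (W.H X)) X.dim + 1) ≤ (m + 1 : ℕ))
    (hT : TG W X χ ρ (m + m + 1) ≤ S.C (pw X (m + m + 1))) (n : ℕ) :
    TG W X χ ρ n ≤ S.C (pw X n) := by
  have hb : Fintype.card ι = finrank W.K (W.H X) := (Module.finrank_eq_card_basis v).symm
  have hne : Nonempty ι := by
    by_contra hne
    rw [not_nonempty_iff] at hne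
    have h3 : Subsingleton (W.H X) := by
      have h4 := (v.repr.toEquiv.trans Finsupp.equivFunOnFinite).injective
      exact h4.subsingleton
    exact not_subsingleton (W.H X) h3
  rw [← hb] at hm
  letI : Algebra W.K ℂ := ((algebraMap ℚ_[ℓ] ℂ).comp (φ : W.K →+* ℚ_[ℓ])).toAlgebra
  have halg : ∀ x : W.K, algebraMap ℚ_[ℓ] ℂ (φ x) = algebraMap W.K ℂ x := fun x => rfl
  have hT1 : TG W X χ ρ 1 ≤ S.C (pw X 1) := TG_downS h S (by omega) hT
  have hp : H914.par (W.isInternal X) ∈ S.Op X X :=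
    op_of_potS h hθ S hT1 ⟨⊤, inferInstance, fun g _ => par_nu0 h g⟩ rfl
  have hPO : ∀ m, PotOp (Rq v φ h θ) (mapφ φ (p0 v)) m = trφ φ (PotOp (R0 v h θ) (p0 v) m) :=
    fun m => PotOp_trφ φ (R0 v h θ) (p0 v) (Rq v φ h θ) (fun g => rfl) m
  have hA := hASM ℓ ι Γ (galData v φ hv h hθ hlat hθ1 hSSG hss) X.dim FD
    (fun m => trφ φ (SK v S m)) (psys0 v S hv hp)
    (fun m => by
      rw [bcM_trφ φ halg]
      exact SB_eq_bcM v S m)
    (fun m => by
      have h1 : PotOp (galData v φ hv h hθ hlat hθ1 hSSG hss).R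
        (galData v φ hv h hθ hlat hθ1 hSSG hss).p m = trφ φ (PotOp (R0 v h θ) (p0 v) m) := hPO m
      rw [h1]
      exact trφ_le φ (SK_leS h hθ v S hS m)) hne
  have h2 : ∀ m, PotOp (galData v φ hv h hθ hlat hθ1 hSSG hss).R
    (galData v φ hv h hθ hlat hθ1 hSSG hss).p m = trφ φ (PotOp (R0 v h θ) (p0 v) m) := hPO
  obtain ⟨-, -, hA2⟩ := hA
  have h4 := hA2 (m + 1) hm (by
    rw [h2]
    exact trφ_le φ ((PotOp_le_iffS h hθ v S m).2 hT)) (n + 1)
  rw [h2] at h4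
  have h5 := le_of_trφ φ h4.le
  exact TG_downS h S (by omega) ((PotOp_le_iffS h hθ v S n).1 h5)

end core

variable {ℓ : ℕ} [Fact ℓ.Prime]

/-- **One power decides, for a system of classes.** -/
theorem main_S (hSSG : S_SSG) (hASM : S_ASMQ2) (hSQ : S_SQRT) (hEMB : S_EMB)
    (φ : W.K ≃+* ℚ_[ℓ])
    [Nontrivial (W.H X)] (h : PowerAction W X χ ρ) (hχ : ∀ g, ‖φ (χ g : W.K)‖ = 1)
    (hlat : HasFrobQ φ χ ρ) (hss : SemisimpleH ρ)
    (S : Sys W) (hS : ∀ n, S.C (pw X n) ≤ TG W X χ ρ n) (m : ℕ)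
    (hm : (finrank W.K (W.H X) : ℝ) ^ 3 * (M5 (finrank W.K (W.H X)) X.dim : ℝ) ^ 2 *
      Real.log (2 * finrank W.K (W.H X) * M5 (finrank W.K (W.H X)) X.dim + 1) ≤ (m + 1 : ℕ))
    (hT : TG W X χ ρ (m + m + 1) ≤ S.C (pw X (m + m + 1))) (n : ℕ) :
    TG W X χ ρ n ≤ S.C (pw X n) := by
  obtain ⟨e⟩ := hEMB ℓ
  letI : Algebra ℚ_[ℓ] ℂ := e.toAlgebra
  obtain ⟨Δ, hΔ, θ', hθ1, hθ2⟩ := hSQ ℓ Γ ((Units.map (φ : W.K →* ℚ_[ℓ])).comp χ) hχ
  let θ : Δ →* W.Kˣ := (Units.map (φ.symm : ℚ_[ℓ] →* W.K)).comp θ'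
  have hθ : ∀ g, θ g ^ 2 = (χ.comp Δ.subtype) g := by
    intro g
    apply Units.ext
    have h1 := congrArg (fun u : ℚ_[ℓ]ˣ => φ.symm (u : ℚ_[ℓ])) (hθ1 g)
    simp only [Units.val_pow_eq_pow_val, map_pow] at h1
    change (φ.symm (θ' g : ℚ_[ℓ])) ^ 2 = (χ g : W.K)
    rw [h1]
    exact φ.symm_apply_apply _
  have hθn : ∀ g, ‖φ ((θ g : W.Kˣ) : W.K)‖ = 1 := by
    intro g
    have h1 : φ ((θ g : W.Kˣ) : W.K) = (θ' g : ℚ_[ℓ]) := φ.apply_symm_apply _
    rw [h1]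
    exact hθ2 g
  have h' := power_restrict h Δ
  obtain ⟨d, v, hv, hl, hF⟩ := hlat
  choose dg hv using hv
  obtain ⟨M1, hM0, hM1⟩ := exists_pow_mem Δ hΔ
  have hA := core_S (θ := θ) φ v hSSG hASM h' hθ hv
    (fun g => hl g) hθn (semisimple_restrict Δ hΔ hss)
    (frobDataQ v φ hv h Δ θ hθ (fun g => hl g) hl hχ hθn hSSG (semisimple_restrict Δ hΔ hss) hF
      hM0 hM1) S (fun n => by rw [TG_restrict Δ hΔ]; exact hS n) m hm
      (by rw [TG_restrict Δ hΔ]; exact hT) n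
  rw [TG_restrict Δ hΔ] at hA
  exact hA

end Pool.Agent.E8helper24.HP.OneS
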