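import Pool.Agent.E8helper24.HP.Const
import Pool.Agent.E8helper24.INF.DInf
import Pool.Agent.Y129.Gal

/-!
# The half law with an explicit constant for the powers of a variety
-/

open CategoryTheory AlgebraicGeometry

universe u v

set_option linter.unusedSectionVars false

namespace Pool.Agent.E8helper24.HP

open Module
open Pool.Agent.H914 Pool.Agent.H914.VarClass Pool.Agent.H914.VarClass.Obj
  Pool.Agent.H914.WeilCohomology Pool.Agent.Y133.Half Pool.Agent.H281R3.HT
open Pool.Agent.E8helper24.INF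
open Pool.Agent.Y129 (StableSystem CC)
open Pool.Agent.W536.RR (algSpan_induction algSpan_map)

lemma cl_eq_of_iso {k : Type u} [Field k] {𝒱 : VarClass k} {A B : 𝒱.Obj} (e : A ≅ B) :
    cl A = cl B := Quotient.sound (s := isoSetoid 𝒱) ⟨e⟩

variable {k : Type u} [Field k] {𝒱 : VarClass k} {ops : CycleOps 𝒱}
  {W : WeilCohomology.{u, v} ops} {X Y Z P Q U : 𝒱.Obj}

/-- The algebraic correspondences. -/
lemma op_CC {f : W.H P →ₗ[W.K] W.H Q} (hf : f ∈ (algSys W).Op P Q) : f ∈ CC W P Q := by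
  obtain ⟨c, hc, rfl⟩ := Sys.mem_Op.1 hf
  change c ∈ algSpan W (P.prod Q) at hc
  refine algSpan_induction (p := fun c => W.corr (X := P) (Y := Q) c ∈ CC W P Q) ?_ ?_ ?_ ?_ hc
  · have : W.corr (X := P) (Y := Q) (0 : W.H (P.prod Q)) = 0 := map_zero (corrL W P Q)
    rw [this]
    exact Submodule.zero_mem _
  · intro a b ha hb
    have : W.corr (X := P) (Y := Q) (a + b) = W.corr a + W.corr b := map_add (corrL W P Q) a b
    rw [this]
    exact Submodule.add_mem _ ha hb
  · intro t a ha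
    have : W.corr (X := P) (Y := Q) (t • a) = t • W.corr a := map_smul (corrL W P Q) t a
    rw [this]
    exact Submodule.smul_mem _ _ ha
  · intro j z hz
    exact Submodule.mem_iSup_of_mem ((j : ℤ) - P.dim) (KOp.gen (p := j) (by ring) hz)

variable (G : ∀ n, Submodule W.K (W.H (Pool.Agent.Y129.pw X n)))

/-- The transport of the classes to an object which is isomorphic to a power. -/
noncomputable def trans {m : ℕ} (θ : Q ≅ Pool.Agent.Y129.pw X m) : Submodule W.K (W.H Q) :=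
  (G m).map (W.map θ.hom).toLinearMap

variable {G}

lemma finrank_trans {m : ℕ} (θ : Q ≅ Pool.Agent.Y129.pw X m) :
    finrank W.K (trans G θ) = finrank W.K (G m) := by
  have h1 : Function.Injective (W.map θ.hom).toLinearMap := map_inj_of_iso θ
  exact (Submodule.equivMapOfInjective _ h1 _).finrank_eq.symm

lemma map_inv_hom (θ : P ≅ Q) (x : W.H P) : W.map θ.hom (W.map θ.inv x) = x := by
  rw [← W.map_comp, θ.hom_inv_id, W.map_id]

lemma map_hom_inv (θ : P ≅ Q) (x : W.H Q) : W.map θ.inv (W.map θ.hom x) = x := by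
  rw [← W.map_comp, θ.inv_hom_id, W.map_id]

lemma trans_apply (hG : StableSystem W X G) {m n : ℕ} (θ : P ≅ Pool.Agent.Y129.pw X m)
    (θ' : Q ≅ Pool.Agent.Y129.pw X n) {a : W.H P →ₗ[W.K] W.H Q} (ha : a ∈ (algSys W).Op P Q)
    {x : W.H P} (hx : x ∈ trans G θ) : a x ∈ trans G θ' := by
  obtain ⟨y, hy, rfl⟩ := hx
  have h1 : (W.map θ'.inv).toLinearMap ∘ₗ a ∘ₗ (W.map θ.hom).toLinearMap ∈
      (algSys W).Op (Pool.Agent.Y129.pw X m) (Pool.Agent.Y129.pw X n) :=
    Sys.Op.comp (Sys.Op.map _) (Sys.Op.comp ha (Sys.Op.map _))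
  have h2 := hG m n _ (op_CC h1) y hy
  refine ⟨_, h2, ?_⟩
  change W.map θ'.hom (W.map θ'.inv (a (W.map θ.hom y))) = _
  rw [map_inv_hom]
  rfl

lemma le_trans' (hle : ∀ n, algSpan W (Pool.Agent.Y129.pw X n) ≤ G n) {n : ℕ}
    (θ : Q ≅ Pool.Agent.Y129.pw X n) : (algSys W).C Q ≤ trans G θ := by
  intro c hc
  exact ⟨W.map θ.inv c, hle n (algSpan_map _ hc), map_inv_hom θ c⟩

/-- **The half law with an explicit constant.** -/
theorem half_powers (hX : 0 < finrank W.K (W.H X)) (hG : StableSystem W X G)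
    (hle : ∀ n, algSpan W (Pool.Agent.Y129.pw X n) ≤ G n) {m : ℕ} (hm : 1 ≤ m)
    (hlt : (algSys W).a (Pool.Agent.Y129.pw X (2 * m - 1)) < finrank W.K (G (2 * m - 1)))
    (n : ℕ) :
    ((algSys W).a (Pool.Agent.Y129.pw X n) : ℝ) ≤
      (1 / 2 + cst (finrank W.K (W.H X)) m * lrate n) * finrank W.K (G n) := by
  set S := algSys W with hS
  set b := finrank W.K (W.H X) with hb
  have hr := lrate_pos n
  have hT0 : (0 : ℝ) ≤ finrank W.K (G n) := Nat.cast_nonneg _
  have hc := cst_ge (b := b) (m := m) hX hm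
  set E : ℝ := (b : ℝ) ^ (2 * m) * (((b ^ 2 + 1 : ℕ) : ℝ) * (m + 1) * (b : ℝ) ^ (2 * (m + 1))) +
      4 * (b : ℝ) ^ 2 * dst b m with hE
  have hE0 : 0 ≤ E := by
    have h1 := one_le_dst (b := b) (m := m) hX hm
    have h2 : 0 ≤ dst b m := by linarith
    positivity
  by_cases hZ : ∀ l ∈ S.C X, W.tr X l = 0
  · have h1 : S.a (Pool.Agent.Y129.pw X n) = 0 :=
      a_prod_eq_zero S (a_eq_zero_of_tr S hZ) (Pool.Agent.Y129.pj X n 0)
    rw [h1, Nat.cast_zero]
    have : 0 ≤ cst b m := by linarith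
    positivity
  push Not at hZ
  obtain ⟨l', hl', hl'0⟩ := hZ
  obtain ⟨z, hz, hz1⟩ : ∃ l ∈ S.C X, W.tr X l = 1 :=
    ⟨(W.tr X l')⁻¹ • l', Submodule.smul_mem _ _ hl', by
      rw [map_smul, smul_eq_mul, inv_mul_cancel₀ hl'0]⟩
  have hpos : ∀ n, 0 < S.al X n := by
    intro n
    obtain ⟨m, hm, hm1⟩ := S.exists_lam hz hz1 n
    refine S.a_pos (Sys.xp_mem_C S hm hm) ?_
    rw [tr_xp, hm1, mul_one]
  rcases le_or_gt n 5 with hn | hn
  · -- small exponents
    have h1 : (S.a (Pool.Agent.Y129.pw X n) : ℝ) ≤ finrank W.K (G n) := by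
      exact_mod_cast (a_le_C S _).trans (Submodule.finrank_mono (hle _))
    have h2 : (0.1 : ℝ) ≤ lrate n := by
      have h3 := log_ge n
      have h4 := Real.log_two_gt_d9
      have h5 : (n : ℝ) ≤ 5 := by exact_mod_cast hn
      rw [lrate, le_div_iff₀ (by positivity)]
      nlinarith
    have h3 : (1 : ℝ) ≤ 1 / 2 + cst b m * lrate n := by
      have h4 : (5 : ℝ) ≤ cst b m := by linarith
      nlinarith
    calc (S.a (Pool.Agent.Y129.pw X n) : ℝ) ≤ finrank W.K (G n) := h1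
      _ ≤ _ := le_mul_of_one_le_left hT0 h3
  · obtain ⟨l, ε, hε, hnl⟩ : ∃ l ε, ε ≤ 1 ∧ n = 2 * l + 4 + ε :=
      ⟨(n - 4) / 2, (n - 4) % 2, by omega, by omega⟩
    have hl1 : 1 ≤ l := by omega
    obtain ⟨k, rfl⟩ : ∃ k, m = k + 1 := ⟨m - 1, by omega⟩
    -- the isomorphisms
    have hcV : cl (VV X X ε l) = cl (Pool.Agent.Y129.pw X n) := by
      have h1 : cl (Pool.Agent.Y129.pw X n) = cl (pw X n) := cl_eq_of_iso (pwIso129 X n)
      rw [h1, hnl]
      simp only [cl_prod, cl_sq, cl_pw]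
      have e1 : 2 * l + 4 + ε = ε + (l + l + 1 + 1 + 1) + 1 := by ring
      rw [e1, ← pwc_add (cl X) ε (l + l + 1 + 1 + 1)]
      change _ = _ * ((pwc (cl X) (l + l + 1) * cl X) * cl X)
      ac_rfl
    obtain ⟨θ⟩ := iso_of_cl hcV
    have hcP : cl (PP X k) = cl (Pool.Agent.Y129.pw X (2 * (k + 1) - 1)) := by
      have h1 : cl (Pool.Agent.Y129.pw X (2 * (k + 1) - 1)) = cl (pw X (2 * (k + 1) - 1)) :=
        cl_eq_of_iso (pwIso129 X _)
      have e1 : 2 * (k + 1) - 1 = k + k + 1 := by omega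
      rw [h1, e1]
      simp only [cl_prod, cl_pw, pwc_add]
    obtain ⟨θP⟩ := iso_of_cl hcP
    have h1 := half_at (S := S) (Z := X) hpos hX hz hz1 hε (trans G θP)
      (fun a ha x hx => trans_apply hG θP θP ha hx)
      (by rw [finrank_trans, a_cl S hcP]; exact hlt) hl1 (hpos 0) (trans G θ) (le_trans' hle θ)
      (fun a ha x hx => trans_apply hG θP θ ha hx)
    rw [finrank_trans, a_cl S hcV, ← hb] at h1
    push_cast at h1 hE
    have h2 : Real.log ((l : ℝ) + 2) / l ≤ 8 * lrate n := by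
      have hl0 : (0 : ℝ) < l := by exact_mod_cast hl1
      have h1 : (0 : ℝ) < (n : ℝ) + 1 := by positivity
      have h2 : (n : ℝ) + 1 ≤ 8 * l := by
        have : n + 1 ≤ 8 * l := by omega
        exact_mod_cast this
      have h3 : Real.log ((l : ℝ) + 2) ≤ Real.log ((n : ℝ) + 2) := by
        apply Real.log_le_log (by positivity)
        have : (l : ℝ) ≤ n := by exact_mod_cast (by omega : l ≤ n)
        linarith
      have h4 := log_pos' n
      rw [lrate, mul_div_assoc', div_le_div_iff₀ hl0 h1]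
      calc Real.log ((l : ℝ) + 2) * ((n : ℝ) + 1) ≤ Real.log ((n : ℝ) + 2) * ((n : ℝ) + 1) :=
            mul_le_mul_of_nonneg_right h3 h1.le
        _ ≤ Real.log ((n : ℝ) + 2) * (8 * l) := mul_le_mul_of_nonneg_left h2 h4.le
        _ = _ := by ring
    have h3 : 2 * (S.a (Pool.Agent.Y129.pw X n) : ℝ) ≤
        (1 + E * (Real.log ((l : ℝ) + 2) / l)) * finrank W.K (G n) := by
      refine h1.trans (le_of_eq ?_)
      rw [hE]
    have h4 : E * (Real.log ((l : ℝ) + 2) / l) ≤ E * (8 * lrate n) :=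
      mul_le_mul_of_nonneg_left h2 hE0
    have h5 : 4 * E * lrate n ≤ cst b (k + 1) * lrate n :=
      mul_le_mul_of_nonneg_right (by linarith) hr.le
    have h6 : 2 * (S.a (Pool.Agent.Y129.pw X n) : ℝ) ≤
        (1 + 2 * (cst b (k + 1) * lrate n)) * finrank W.K (G n) := by
      refine h3.trans (mul_le_mul_of_nonneg_right ?_ hT0)
      linarith
    linarith

end Pool.Agent.E8helper24.HP
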