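import Pool.Agent.E8helper24.HP.Const
import Pool.Agent.E8helper24.INF.DInf

/-!
# The half law with an explicit constant for two systems of classes
-/

open CategoryTheory AlgebraicGeometry

universe u v

set_option linter.unusedSectionVars false

namespace Pool.Agent.E8helper24.HP

open Module
open Pool.Agent.H914 Pool.Agent.H914.VarClass Pool.Agent.H914.VarClass.Obj
  Pool.Agent.H914.WeilCohomology Pool.Agent.Y133.Half
open Pool.Agent.E8helper24.INF

variable {k : Type u} [Field k] {𝒱 : VarClass k} {ops : CycleOps 𝒱}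
  {W : WeilCohomology.{u, v} ops} {X Y Z P Q U : 𝒱.Obj}

/-- **The half law with an explicit constant for two systems of classes.** -/
theorem half_sys {S T : Sys W} (hle : ∀ Z, S.C Z ≤ T.C Z) (hX : 0 < finrank W.K (W.H X)) {m : ℕ}
    (hm : 1 ≤ m)
    (hlt : S.a (pw X (2 * m - 1)) < finrank W.K (T.C (pw X (2 * m - 1)))) (n : ℕ) (Z : 𝒱.Obj) :
    (S.a ((pw X n).prod (Z.prod Z)) : ℝ) ≤
      (1 / 2 + cst (finrank W.K (W.H X)) m * lrate n) *
        finrank W.K (T.C ((pw X n).prod (Z.prod Z))) := by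
  set b := finrank W.K (W.H X) with hb
  set V := (pw X n).prod (Z.prod Z) with hV
  have hr := lrate_pos n
  have hT0 : (0 : ℝ) ≤ finrank W.K (T.C V) := Nat.cast_nonneg _
  have hc := cst_ge (b := b) (m := m) hX hm
  set E : ℝ := (b : ℝ) ^ (2 * m) * (((b ^ 2 + 1 : ℕ) : ℝ) * (m + 1) * (b : ℝ) ^ (2 * (m + 1))) +
      4 * (b : ℝ) ^ 2 * dst b m with hE
  have hE0 : 0 ≤ E := by
    have h1 := one_le_dst (b := b) (m := m) hX hm
    have h2 : 0 ≤ dst b m := by linarith
    positivity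
  have hzero : S.a V = 0 → (S.a V : ℝ) ≤ (1 / 2 + cst b m * lrate n) * finrank W.K (T.C V) := by
    intro h1
    rw [h1, Nat.cast_zero]
    have : 0 ≤ cst b m := by linarith
    positivity
  by_cases hZ : ∀ l ∈ S.C X, W.tr X l = 0
  · exact hzero (a_prod_eq_zero S (a_eq_zero_of_tr S hZ) (X := V) (fst _ _ ≫ prj X n 0))
  push Not at hZ
  obtain ⟨l', hl', hl'0⟩ := hZ
  obtain ⟨z, hz, hz1⟩ : ∃ l ∈ S.C X, W.tr X l = 1 :=
    ⟨(W.tr X l')⁻¹ • l', Submodule.smul_mem _ _ hl', by
      rw [map_smul, smul_eq_mul, inv_mul_cancel₀ hl'0]⟩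
  have hpos : ∀ n, 0 < S.al X n := by
    intro n
    obtain ⟨m, hm, hm1⟩ := S.exists_lam hz hz1 n
    refine S.a_pos (Sys.xp_mem_C S hm hm) ?_
    rw [tr_xp, hm1, mul_one]
  rcases Nat.eq_zero_or_pos (S.a (Z.prod Z)) with h0 | h0
  · exact hzero (a_prod_eq_zero S h0 (X := V) (snd _ _))
  rcases le_or_gt n 5 with hn | hn
  · -- small exponents
    have h1 : (S.a V : ℝ) ≤ finrank W.K (T.C V) := by
      exact_mod_cast (a_le_C S _).trans (Submodule.finrank_mono (hle _))
    have h2 : (0.1 : ℝ) ≤ lrate n := by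
      have h3 := log_ge n
      have h4 := Real.log_two_gt_d9
      have h5 : (n : ℝ) ≤ 5 := by exact_mod_cast hn
      rw [lrate, le_div_iff₀ (by positivity)]
      nlinarith
    have h3 : (1 : ℝ) ≤ 1 / 2 + cst b m * lrate n := by
      have h4 : (5 : ℝ) ≤ cst b m := by linarith
      nlinarith
    calc (S.a V : ℝ) ≤ finrank W.K (T.C V) := h1
      _ ≤ _ := le_mul_of_one_le_left hT0 h3
  · obtain ⟨l, ε, hε, hnl⟩ : ∃ l ε, ε ≤ 1 ∧ n = 2 * l + 2 + ε :=
      ⟨(n - 2) / 2, (n - 2) % 2, by omega, by omega⟩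
    have hl1 : 1 ≤ l := by omega
    obtain ⟨k, rfl⟩ : ∃ k, m = k + 1 := ⟨m - 1, by omega⟩
    -- the isomorphisms
    have hcV : cl (VV X Z ε l) = cl V := by
      rw [hV, hnl]
      simp only [cl_prod, cl_sq, cl_pw]
      have e1 : 2 * l + 2 + ε = ε + (l + l + 1) + 1 := by ring
      rw [e1, ← pwc_add (cl X) ε (l + l + 1)]
      ac_rfl
    have hcP : cl (PP X k) = cl (pw X (2 * (k + 1) - 1)) := by
      have e1 : 2 * (k + 1) - 1 = k + k + 1 := by omega
      rw [e1]
      simp only [cl_prod, cl_pw, pwc_add]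
    have h1 := half_at (S := S) (Z := Z) hpos hX hz hz1 hε (T.C (PP X k))
      (fun a ha x hx => Sys.Op.apply hle ha hx)
      (by rw [a_cl S hcP, C_cl T hcP]; exact hlt) hl1 h0 (T.C (VV X Z ε l)) (hle _)
      (fun a ha x hx => Sys.Op.apply hle ha hx)
    rw [a_cl S hcV, C_cl T hcV, ← hb] at h1
    push_cast at h1 hE
    have h2 : Real.log ((l : ℝ) + 2) / l ≤ 8 * lrate n := by
      have hl0 : (0 : ℝ) < l := by exact_mod_cast hl1
      have h1 : (0 : ℝ) < (n : ℝ) + 1 := by positivity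
      have h2 : (n : ℝ) + 1 ≤ 8 * l := by
        have : n + 1 ≤ 8 * l := by omega
        exact_mod_cast this
      have h3 : Real.log ((l : ℝ) + 2) ≤ Real.log ((n : ℝ) + 2) := by
        apply Real.log_le_log (by positivity)
        have : (l : ℝ) ≤ n := by exact_mod_cast (by omega : l ≤ n)
        linarith
      have h4 := log_pos' n
      rw [lrate, mul_div_assoc', div_le_div_iff₀ hl0 h1]
      calc Real.log ((l : ℝ) + 2) * ((n : ℝ) + 1) ≤ Real.log ((n : ℝ) + 2) * ((n : ℝ) + 1) :=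
            mul_le_mul_of_nonneg_right h3 h1.le
        _ ≤ Real.log ((n : ℝ) + 2) * (8 * l) := mul_le_mul_of_nonneg_left h2 h4.le
        _ = _ := by ring
    have h3 : 2 * (S.a V : ℝ) ≤
        (1 + E * (Real.log ((l : ℝ) + 2) / l)) * finrank W.K (T.C V) := by
      refine h1.trans (le_of_eq ?_)
      rw [hE]
    have h4 : E * (Real.log ((l : ℝ) + 2) / l) ≤ E * (8 * lrate n) :=
      mul_le_mul_of_nonneg_left h2 hE0
    have h5 : 4 * E * lrate n ≤ cst b (k + 1) * lrate n :=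
      mul_le_mul_of_nonneg_right (by linarith) hr.le
    have h6 : 2 * (S.a V : ℝ) ≤
        (1 + 2 * (cst b (k + 1) * lrate n)) * finrank W.K (T.C V) := by
      refine h3.trans (mul_le_mul_of_nonneg_right ?_ hT0)
      linarith
    linarith

end Pool.Agent.E8helper24.HP
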