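import Pool.Agent.E8helper24.HP.Pow
import Pool.Agent.E8helper24.HP.Pub
import Pool.Agent.E8helper1.TP5.Conv
import Pool.Agent.E8helper56.TY.Asm5

/-!
# The half law with a constant which depends only on the Betti numbers and the dimension
-/

open CategoryTheory AlgebraicGeometry

universe u

set_option linter.unusedSectionVars false

namespace Pool.Agent.E8helper24.HP

open Module
open Pool.Agent.H914 Pool.Agent.H914.VarClass Pool.Agent.H914.VarClass.Obj
  Pool.Agent.H914.WeilCohomology Pool.Agent.H281R3.HT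
open Pool.Agent.Y129 (pw TG finrank_TG)
open Pool.Agent.E8helper1.TX
open Pool.Agent.E8helper1.TP (Gal Hodge hdim)
open Pool.Agent.E8helper1.TP5 (exponent Frobenii hasFrob_of tate_law5)
open Pool.Agent.Y133.Half (algSys numDim_eq_cycRank cycRank)

variable {k : Type u} [Field k] {𝒱 : VarClass k} {ops : CycleOps 𝒱}
  {W : WeilCohomology.{u, 0} ops} {X : 𝒱.Obj}

lemma two_le_M {b d M : ℕ} {p : Prop} (hM : M = exponent b d ∨ p ∧ M = 2) :
    2 ≤ M := by
  rcases hM with rfl | ⟨-, rfl⟩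
  · have h1 : 1 ≤ b.factorial * ((2 * d + 1) * b.factorial) ^ (b - 1) :=
      Nat.succ_le_of_lt (Nat.mul_pos (Nat.factorial_pos _)
        (Nat.pow_pos (Nat.mul_pos (by omega) (Nat.factorial_pos _))))
    rw [exponent]
    omega
  · exact le_rfl

lemma M_le {b M m : ℕ} (hb : 1 ≤ b) (hM : 2 ≤ M)
    (hm : (b : ℝ) ^ 3 * (M : ℝ) ^ 2 * Real.log (2 * b * M + 1) ≤ m) : M ≤ m := by
  have hb' : (1 : ℝ) ≤ b := by exact_mod_cast hb
  have hM' : (2 : ℝ) ≤ M := by exact_mod_cast hM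
  have h1 : (1 : ℝ) ≤ (b : ℝ) ^ 3 := one_le_pow₀ hb'
  have h2 : (1 : ℝ) ≤ Real.log (2 * b * M + 1) := by
    rw [Real.le_log_iff_exp_le (by positivity)]
    have := Real.exp_one_lt_d9
    nlinarith
  have h3 : (M : ℝ) ≤ m := by
    calc (M : ℝ) ≤ (M : ℝ) ^ 2 := by nlinarith
      _ ≤ (b : ℝ) ^ 3 * (M : ℝ) ^ 2 := le_mul_of_one_le_left (by positivity) h1
      _ ≤ (b : ℝ) ^ 3 * (M : ℝ) ^ 2 * Real.log (2 * b * M + 1) :=
          le_mul_of_one_le_right (by positivity) h2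
      _ ≤ m := hm
  exact_mod_cast h3

/-- Hom = num for all powers follows from the Tate conjecture. -/
theorem homEqNum_of [Algebra W.K ℂ] {ℓ : ℕ} [Fact ℓ.Prime] (φ : W.K ≃+* ℚ_[ℓ])
    (hX : 0 < hdim W X) (G : Gal W X) (hG : Frobenii G φ) (hss : G.Semisimple)
    (H : Hodge W) (D : X.Cycles) (hD : H.Polarizes X D) (hT : ∀ n, G.TateConj n) (n : ℕ) :
    HomEqNum W (pw X n) := by
  have hnt : Nontrivial (W.H X) := Module.nontrivial_of_finrank_pos hX
  obtain ⟨hχ, hfrob⟩ := hasFrob_of G φ hG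
  obtain ⟨k1, -, -⟩ := main_TG5 (ρ := G.rho) Pool.Agent.E8helper89.TX.t_STARJ
    Pool.Agent.E8helper76.TX.t_SSG Pool.Agent.E8helper56.TY.t_ASM5
    Pool.Agent.E8helper26.TX.t_TRF Pool.Agent.E8helper3.TX.t_SQRT
    Pool.Agent.E8helper89.TX.t_HDG Pool.Agent.E8helper65.TX.t_HRS φ G.power hχ hfrob
    (G.semisimple hss) H.toDec D (H.polarizes hD)
  exact k1 ((G.le_iff 1).2 (hT 1)) n

/-- **The half law with a constant which depends only on the Betti numbers and the dimension.** -/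
theorem tate_half [Algebra W.K ℂ] {ℓ : ℕ} [Fact ℓ.Prime] (φ : W.K ≃+* ℚ_[ℓ])
    (hX : 0 < hdim W X) (G : Gal W X) (hG : Frobenii G φ) (hss : G.Semisimple)
    (H : Hodge W) (D : X.Cycles) (hD : H.Polarizes X D) (M : ℕ)
    (hM : M = exponent (hdim W X) X.dim ∨ G.NoTypeFour ∧ M = 2) (m : ℕ)
    (hm : (hdim W X : ℝ) ^ 3 * (M : ℝ) ^ 2 * Real.log (2 * hdim W X * M + 1) ≤ m) :
    ((∀ n, G.TateConj n) ∧ ∀ n, HomEqNum W (pw X n)) ∨
      AtMostHalf (fun n => cycRank ops (pw X n)) G.tateDim (constant (hdim W X) m) := by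
  by_cases hT : ∀ n, G.TateConj n
  · exact Or.inl ⟨hT, homEqNum_of φ hX G hG hss H D hD hT⟩
  right
  have hM2 := two_le_M hM
  have hMm := M_le hX hM2 hm
  have hnT : ¬ G.TateConj (2 * m - 1) := by
    intro h
    obtain ⟨N, -, -, -, h1, h2⟩ := tate_law5 Pool.Agent.E8helper56.TY.t_ASM5 φ hX G hG hss H D hD
      M hM m hMm h
    exact hT (h1.1 (h2 hm))
  have hle : ∀ n, algSpan W (pw X n) ≤ TG W X G.chi G.rho n := G.power.algSpan_le
  have hlt : (algSys W).a (pw X (2 * m - 1)) <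
      finrank W.K (TG W X G.chi G.rho (2 * m - 1)) := by
    refine lt_of_le_of_lt (Pool.Agent.E8helper24.INF.a_le_C (algSys W) _) ?_
    apply Submodule.finrank_lt_finrank_of_lt
    refine lt_of_le_of_ne (hle _) fun h => hnT ?_
    rw [← G.le_iff]
    exact h.ge
  intro n
  have h1 := half_powers (G := TG W X G.chi G.rho) hX G.power.stable hle (m := m) (by omega)
    hlt n
  rw [numDim_eq_cycRank W, finrank_TG, ← G.dim_eq] at h1
  exact h1

end Pool.Agent.E8helper24.HP
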